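import Mathlib

/-!
Coprimality of polynomials in several variables.
-/

set_option autoImplicit false

open MvPolynomial

namespace Run7.h879.SH

variable {k : Type} [Field k]

/-- a polynomial without the first variable is prime to a polynomial with a coefficient prime to it -/
theorem rel_of_coeff {n : ℕ} (P Q : MvPolynomial (Fin (n + 1)) k) (P0 : MvPolynomial (Fin n) k)
    (hP : finSuccEquiv k n P = Polynomial.C P0) (hP0 : P0 ≠ 0) (j : ℕ)
    (hQ : IsRelPrime P0 ((finSuccEquiv k n Q).coeff j)) : IsRelPrime P Q := by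
  intro d hdP hdQ
  have h1 : finSuccEquiv k n d ∣ Polynomial.C P0 := by
    rw [← hP]
    exact map_dvd _ hdP
  have h2 : finSuccEquiv k n d ∣ finSuccEquiv k n Q := map_dvd _ hdQ
  have h3 : (finSuccEquiv k n d).natDegree = 0 := by
    have h4 := Polynomial.natDegree_le_of_dvd h1 (Polynomial.C_ne_zero.2 hP0)
    rw [Polynomial.natDegree_C] at h4
    omega
  obtain ⟨d0, hd0⟩ : ∃ d0, finSuccEquiv k n d = Polynomial.C d0 :=
    ⟨_, Polynomial.eq_C_of_natDegree_eq_zero h3⟩
  rw [hd0] at h1 h2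
  have h5 : d0 ∣ P0 := by
    have := (Polynomial.C_dvd_iff_dvd_coeff _ _).1 h1 0
    rwa [Polynomial.coeff_C_zero] at this
  have h6 : d0 ∣ (finSuccEquiv k n Q).coeff j := (Polynomial.C_dvd_iff_dvd_coeff _ _).1 h2 j
  have h7 : IsUnit d0 := hQ h5 h6
  have h8 : IsUnit (finSuccEquiv k n d) := by
    rw [hd0]
    exact Polynomial.isUnit_C.2 h7
  exact (MulEquiv.isUnit_map (finSuccEquiv k n)).1 h8

theorem rel_of_unit {n : ℕ} (P Q : MvPolynomial (Fin (n + 1)) k) (P0 : MvPolynomial (Fin n) k)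
    (hP : finSuccEquiv k n P = Polynomial.C P0) (hP0 : P0 ≠ 0) (j : ℕ)
    (hQ : IsUnit ((finSuccEquiv k n Q).coeff j)) : IsRelPrime P Q :=
  rel_of_coeff P Q P0 hP hP0 j (fun _ _ h => isUnit_of_dvd_unit h hQ)

/-- a polynomial with nonzero constant term is prime to monomials -/
theorem rel_mono (P : MvPolynomial (Fin 2) k) (hP : eval (fun _ => 0) P ≠ 0) (i j : ℕ) (c : k)
    (hc : c ≠ 0) : IsRelPrime P (C c * X 0 ^ i * X 1 ^ j) := by
  have h1 : ∀ l : Fin 2, IsRelPrime P (X l) := by
    intro l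
    rw [isRelPrime_comm]
    have hirr : Irreducible (X l : MvPolynomial (Fin 2) k) := (X_prime (i := l)).irreducible
    rw [hirr.isRelPrime_iff_not_dvd]
    rintro ⟨d, rfl⟩
    apply hP
    rw [map_mul, eval_X, zero_mul]
  have h2 : IsRelPrime P (C c) := IsUnit.isRelPrime_right (by
    have : IsUnit c := isUnit_iff_ne_zero.2 hc
    exact this.map C)
  exact (h2.mul_right ((h1 0).pow_right)).mul_right ((h1 1).pow_right)

end Run7.h879.SH
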