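import Mathlib
import Pool.Agent.Run7.h879.SH.Alg1

/-!
Common factors of two trinomials in two variables.
-/

set_option autoImplicit false

open MvPolynomial

namespace Run7.h879.SH

variable {k : Type} [Field k]

theorem lin_mult (u v r : k) (h : (Polynomial.C u * Polynomial.X + Polynomial.C v : Polynomial k) ≠ 0) :
    (u * r + v = 0 ∧
      Polynomial.rootMultiplicity r (Polynomial.C u * Polynomial.X + Polynomial.C v) = 1) ∨
    (u * r + v ≠ 0 ∧
      Polynomial.rootMultiplicity r (Polynomial.C u * Polynomial.X + Polynomial.C v) = 0) := by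
  by_cases h1 : u * r + v = 0
  · refine Or.inl ⟨h1, ?_⟩
    have hv : v = -(u * r) := by linear_combination h1
    have h2 : (Polynomial.C u * Polynomial.X + Polynomial.C v : Polynomial k) =
        Polynomial.C u * (Polynomial.X - Polynomial.C r) := by
      rw [hv, Polynomial.C_neg, Polynomial.C_mul]
      ring
    rw [h2] at h ⊢
    rw [Polynomial.rootMultiplicity_mul h, Polynomial.rootMultiplicity_C, zero_add,
      Polynomial.rootMultiplicity_X_sub_C_self]
  · refine Or.inr ⟨h1, Polynomial.rootMultiplicity_eq_zero ?_⟩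
    intro h2
    apply h1
    simpa [Polynomial.IsRoot.def] using h2

theorem mult_id (F E : Polynomial k) (hF : F ≠ 0) (hE : E ≠ 0) (N : ℕ) (a b : ℤ) (κ : k)
    (hκ : κ ≠ 0)
    (h : F ^ N * (1 + Polynomial.X) ^ (-a).toNat * Polynomial.X ^ (-b).toNat =
      Polynomial.C κ * (1 + Polynomial.X) ^ a.toNat * Polynomial.X ^ b.toNat * E ^ N) :
    a = N * ((Polynomial.rootMultiplicity (-1) F : ℤ) - Polynomial.rootMultiplicity (-1) E) ∧
    b = N * ((Polynomial.rootMultiplicity 0 F : ℤ) - Polynomial.rootMultiplicity 0 E) := by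
  have hX : (Polynomial.X : Polynomial k) ≠ 0 := Polynomial.X_ne_zero
  have h1X : (1 + Polynomial.X : Polynomial k) ≠ 0 := by
    intro h0
    have := congrArg (Polynomial.eval 0) h0
    simp at this
  have hC : (Polynomial.C κ : Polynomial k) ≠ 0 := Polynomial.C_ne_zero.2 hκ
  have mm : ∀ (r : k) (f g : Polynomial k), f ≠ 0 → g ≠ 0 →
      Polynomial.rootMultiplicity r (f * g) =
        Polynomial.rootMultiplicity r f + Polynomial.rootMultiplicity r g := fun r f g hf hg =>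
    Polynomial.rootMultiplicity_mul (mul_ne_zero hf hg)
  have mp : ∀ (r : k) (f : Polynomial k) (n : ℕ), f ≠ 0 →
      Polynomial.rootMultiplicity r (f ^ n) = n * Polynomial.rootMultiplicity r f := by
    intro r f n hf
    induction n with
    | zero =>
      rw [pow_zero, zero_mul]
      exact Polynomial.rootMultiplicity_eq_zero (by simp [Polynomial.IsRoot.def])
    | succ n ih =>
      rw [pow_succ, mm r _ _ (pow_ne_zero _ hf) hf, ih]
      ring
  have key : ∀ r : k, N * Polynomial.rootMultiplicity r F +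
      (-a).toNat * Polynomial.rootMultiplicity r (1 + Polynomial.X) +
      (-b).toNat * Polynomial.rootMultiplicity r Polynomial.X =
      a.toNat * Polynomial.rootMultiplicity r (1 + Polynomial.X) +
      b.toNat * Polynomial.rootMultiplicity r Polynomial.X +
      N * Polynomial.rootMultiplicity r E := by
    intro r
    have h2 := congrArg (Polynomial.rootMultiplicity r) h
    rw [mm r _ _ (mul_ne_zero (pow_ne_zero _ hF) (pow_ne_zero _ h1X)) (pow_ne_zero _ hX),
      mm r _ _ (pow_ne_zero _ hF) (pow_ne_zero _ h1X),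
      mm r _ _ (mul_ne_zero (mul_ne_zero hC (pow_ne_zero _ h1X)) (pow_ne_zero _ hX))
        (pow_ne_zero _ hE),
      mm r _ _ (mul_ne_zero hC (pow_ne_zero _ h1X)) (pow_ne_zero _ hX),
      mm r _ _ hC (pow_ne_zero _ h1X), mp r _ _ hF, mp r _ _ hE, mp r _ _ h1X, mp r _ _ h1X,
      mp r _ _ hX, mp r _ _ hX, Polynomial.rootMultiplicity_C] at h2
    linarith
  have e1 : Polynomial.rootMultiplicity (-1 : k) (1 + Polynomial.X) = 1 := by
    have h3 : (1 + Polynomial.X : Polynomial k) = Polynomial.X - Polynomial.C (-1) := by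
      rw [Polynomial.C_neg, Polynomial.C_1]
      ring
    rw [h3, Polynomial.rootMultiplicity_X_sub_C_self]
  have e2 : Polynomial.rootMultiplicity (-1 : k) Polynomial.X = 0 :=
    Polynomial.rootMultiplicity_eq_zero (by simp [Polynomial.IsRoot.def])
  have e3 : Polynomial.rootMultiplicity (0 : k) (1 + Polynomial.X) = 0 :=
    Polynomial.rootMultiplicity_eq_zero (by simp [Polynomial.IsRoot.def])
  have e4 : Polynomial.rootMultiplicity (0 : k) Polynomial.X = 1 := by
    have h3 : (Polynomial.X : Polynomial k) = Polynomial.X - Polynomial.C 0 := by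
      rw [Polynomial.C_0, sub_zero]
    rw [h3, Polynomial.rootMultiplicity_X_sub_C_self]
  have k1 := key (-1)
  have k2 := key 0
  rw [e1, e2] at k1
  rw [e3, e4] at k2
  constructor
  · have h4 : a = (a.toNat : ℤ) - (-a).toNat := by omega
    zify at k1
    rw [mul_sub]
    linarith
  · have h4 : b = (b.toNat : ℤ) - (-b).toNat := by omega
    zify at k2
    rw [mul_sub]
    linarith

theorem zpow_clear {Ω : Type} [Field Ω] (z : Ω) (hz : z ≠ 0) (a : ℤ) :
    z ^ a * z ^ (-a).toNat = z ^ a.toNat := by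
  rw [← zpow_natCast, ← zpow_natCast, ← zpow_add₀ hz]
  congr 1
  omega

theorem tri_field [CharZero k] {Ω : Type} [Field Ω] [Algebra k Ω] (s : Ω)
    (hs : ∀ f : Polynomial k, Polynomial.aeval s f = 0 → f = 0) (N : ℕ) (hN : 0 < N)
    (a b c d : ℤ) (hdet : a * d - b * c ≠ 0) (κ κ' : k) (hκ : κ ≠ 0) (hκ' : κ' ≠ 0) (x y : Ω)
    (hxy : x + y = -1)
    (hrel : x * ((a : Ω) * s + b * (1 + s)) + y * ((c : Ω) * s + d * (1 + s)) = 0)
    (hx : x ^ N = algebraMap k Ω κ * (1 + s) ^ a * s ^ b)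
    (hy : y ^ N = algebraMap k Ω κ' * (1 + s) ^ c * s ^ d) :
    (a = N ∧ b = 0 ∧ c = 0 ∧ d = N ∧ x = -(1 + s) ∧ y = s) ∨
    (a = 0 ∧ b = N ∧ c = N ∧ d = 0 ∧ x = s ∧ y = -(1 + s)) ∨
    (a = N ∧ b = -N ∧ c = 0 ∧ d = -N ∧ x * s = -(1 + s) ∧ y * s = 1) ∨
    (a = 0 ∧ b = -N ∧ c = N ∧ d = -N ∧ x * s = 1 ∧ y * s = -(1 + s)) ∨
    (a = -N ∧ b = N ∧ c = -N ∧ d = 0 ∧ x * -(1 + s) = s ∧ y * -(1 + s) = 1) ∨
    (a = -N ∧ b = 0 ∧ c = -N ∧ d = N ∧ x * -(1 + s) = 1 ∧ y * -(1 + s) = s) := by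
  obtain ⟨AT, hAT⟩ : ∃ AT : Polynomial k, AT = Polynomial.C (((a + b : ℤ) : k)) * Polynomial.X +
    Polynomial.C ((b : ℤ) : k) := ⟨_, rfl⟩
  obtain ⟨BT, hBT⟩ : ∃ BT : Polynomial k, BT = Polynomial.C (((c + d : ℤ) : k)) * Polynomial.X +
    Polynomial.C ((d : ℤ) : k) := ⟨_, rfl⟩
  obtain ⟨ET, hET⟩ : ∃ ET : Polynomial k, ET = Polynomial.C (((a + b - c - d : ℤ) : k)) * Polynomial.X +
    Polynomial.C ((b - d : ℤ) : k) := ⟨_, rfl⟩
  have lin0 : ∀ u v : ℤ, (Polynomial.C ((u : ℤ) : k) * Polynomial.X +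
      Polynomial.C ((v : ℤ) : k) : Polynomial k) = 0 → u = 0 ∧ v = 0 := by
    intro u v h
    have h1 := congrArg (fun f => Polynomial.coeff f 1) h
    have h2 := congrArg (fun f => Polynomial.coeff f 0) h
    simp only [Polynomial.coeff_add, Polynomial.coeff_C_mul, Polynomial.coeff_X_one, mul_one,
      Polynomial.coeff_C_succ, add_zero, Polynomial.coeff_zero, Polynomial.coeff_X_zero, mul_zero,
      Polynomial.coeff_C_zero, zero_add, Polynomial.coeff_C_of_ne_zero one_ne_zero] at h1 h2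
    exact ⟨by exact_mod_cast h1, by exact_mod_cast h2⟩
  have hA0 : AT ≠ 0 := by
    intro h
    rw [hAT] at h
    obtain ⟨h1, h2⟩ := lin0 _ _ h
    apply hdet
    have h3 : a = 0 := by omega
    rw [h2, h3]
    ring
  have hB0 : BT ≠ 0 := by
    intro h
    rw [hBT] at h
    obtain ⟨h1, h2⟩ := lin0 _ _ h
    apply hdet
    have h3 : c = 0 := by omega
    rw [h2, h3]
    ring
  have hE0 : ET ≠ 0 := by
    intro h
    rw [hET] at h
    obtain ⟨h1, h2⟩ := lin0 _ _ h
    apply hdet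
    have h3 : d = b := by omega
    have h4 : c = a := by omega
    rw [h3, h4]
    ring
  have hs0 : s ≠ 0 := by
    intro h
    exact Polynomial.X_ne_zero (hs Polynomial.X (by rw [Polynomial.aeval_X, h]))
  have hs1 : 1 + s ≠ 0 := by
    intro h
    have h1 := hs (1 + Polynomial.X) (by rw [map_add, map_one, Polynomial.aeval_X, h])
    have := congrArg (Polynomial.eval 0) h1
    simp at this
  obtain ⟨A, hA⟩ : ∃ A : Ω, A = ((a : Ω) + b) * s + b := ⟨_, rfl⟩
  obtain ⟨B, hB⟩ : ∃ B : Ω, B = ((c : Ω) + d) * s + d := ⟨_, rfl⟩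
  have eA : Polynomial.aeval s AT = A := by
    rw [hAT, hA]
    simp
  have eB : Polynomial.aeval s BT = B := by
    rw [hBT, hB]
    simp
  have eE : Polynomial.aeval s ET = A - B := by
    rw [hET, hA, hB]
    simp
    ring
  have hEne : A - B ≠ 0 := by
    rw [← eE]
    exact fun h => hE0 (hs _ h)
  have hrel2 : x * A + y * B = 0 := by
    rw [hA, hB]
    linear_combination hrel
  have hxE : x * (A - B) = B := by
    have hy1 : y = -1 - x := by linear_combination hxy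
    rw [hy1] at hrel2
    linear_combination hrel2
  have hyE : y * (A - B) = -A := by
    have hx1 : x = -1 - y := by linear_combination hxy
    rw [hx1] at hrel2
    linear_combination -hrel2
  -- the identities
  have id1 : BT ^ N * (1 + Polynomial.X) ^ (-a).toNat * Polynomial.X ^ (-b).toNat =
      Polynomial.C κ * (1 + Polynomial.X) ^ a.toNat * Polynomial.X ^ b.toNat * ET ^ N := by
    rw [← sub_eq_zero]
    apply hs
    simp only [map_sub, map_mul, map_pow, map_add, map_one, Polynomial.aeval_X, Polynomial.aeval_C,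
      eB, eE]
    have h2 : B ^ N = (algebraMap k Ω κ * (1 + s) ^ a * s ^ b) * (A - B) ^ N := by
      rw [← hx, ← mul_pow, hxE]
    rw [h2, ← zpow_clear _ hs1 a, ← zpow_clear _ hs0 b]
    ring
  have id2 : AT ^ N * (1 + Polynomial.X) ^ (-c).toNat * Polynomial.X ^ (-d).toNat =
      Polynomial.C ((-1) ^ N * κ') * (1 + Polynomial.X) ^ c.toNat * Polynomial.X ^ d.toNat *
        ET ^ N := by
    rw [← sub_eq_zero]
    apply hs
    simp only [map_sub, map_mul, map_pow, map_add, map_one, Polynomial.aeval_X, Polynomial.aeval_C,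
      eA, eE, map_neg]
    have h1 : A = -(y * (A - B)) := by rw [hyE, neg_neg]
    have h2 : A ^ N = (-1) ^ N * (algebraMap k Ω κ' * (1 + s) ^ c * s ^ d) * (A - B) ^ N := by
      conv_lhs => rw [h1]
      rw [neg_pow, mul_pow, hy]
      ring
    rw [h2, ← zpow_clear _ hs1 c, ← zpow_clear _ hs0 d]
    ring
  obtain ⟨ea, eb⟩ := mult_id BT ET hB0 hE0 N a b κ hκ id1
  obtain ⟨ec, ed⟩ := mult_id AT ET hA0 hE0 N c d _
    (mul_ne_zero (pow_ne_zero _ (neg_ne_zero.2 one_ne_zero)) hκ') id2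
  have cast0 : ∀ u : ℤ, ((u : ℤ) : k) = 0 ↔ u = 0 := fun u => Int.cast_eq_zero
  have mB1 : (c = 0 ∧ Polynomial.rootMultiplicity (-1) BT = 1) ∨
      (c ≠ 0 ∧ Polynomial.rootMultiplicity (-1) BT = 0) := by
    have h1 := lin_mult (((c + d : ℤ) : k)) ((d : ℤ) : k) (-1) (by rw [← hBT]; exact hB0)
    rw [← hBT] at h1
    have h2 : (((c + d : ℤ) : k)) * (-1) + ((d : ℤ) : k) = 0 ↔ c = 0 := by
      rw [← cast0 c]
      push_cast
      constructor <;> intro h <;> linear_combination -h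
    rw [ne_eq, h2] at h1
    exact h1
  have mB0 : (d = 0 ∧ Polynomial.rootMultiplicity 0 BT = 1) ∨
      (d ≠ 0 ∧ Polynomial.rootMultiplicity 0 BT = 0) := by
    have h1 := lin_mult (((c + d : ℤ) : k)) ((d : ℤ) : k) 0 (by rw [← hBT]; exact hB0)
    rw [← hBT] at h1
    have h2 : (((c + d : ℤ) : k)) * 0 + ((d : ℤ) : k) = 0 ↔ d = 0 := by
      rw [mul_zero, zero_add, cast0]
    rw [ne_eq, h2] at h1
    exact h1
  have mA1 : (a = 0 ∧ Polynomial.rootMultiplicity (-1) AT = 1) ∨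
      (a ≠ 0 ∧ Polynomial.rootMultiplicity (-1) AT = 0) := by
    have h1 := lin_mult (((a + b : ℤ) : k)) ((b : ℤ) : k) (-1) (by rw [← hAT]; exact hA0)
    rw [← hAT] at h1
    have h2 : (((a + b : ℤ) : k)) * (-1) + ((b : ℤ) : k) = 0 ↔ a = 0 := by
      rw [← cast0 a]
      push_cast
      constructor <;> intro h <;> linear_combination -h
    rw [ne_eq, h2] at h1
    exact h1
  have mA0 : (b = 0 ∧ Polynomial.rootMultiplicity 0 AT = 1) ∨
      (b ≠ 0 ∧ Polynomial.rootMultiplicity 0 AT = 0) := by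
    have h1 := lin_mult (((a + b : ℤ) : k)) ((b : ℤ) : k) 0 (by rw [← hAT]; exact hA0)
    rw [← hAT] at h1
    have h2 : (((a + b : ℤ) : k)) * 0 + ((b : ℤ) : k) = 0 ↔ b = 0 := by
      rw [mul_zero, zero_add, cast0]
    rw [ne_eq, h2] at h1
    exact h1
  have mE1 : (a = c ∧ Polynomial.rootMultiplicity (-1) ET = 1) ∨
      (a ≠ c ∧ Polynomial.rootMultiplicity (-1) ET = 0) := by
    have h1 := lin_mult (((a + b - c - d : ℤ) : k)) ((b - d : ℤ) : k) (-1)
      (by rw [← hET]; exact hE0)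
    rw [← hET] at h1
    have h2 : (((a + b - c - d : ℤ) : k)) * (-1) + ((b - d : ℤ) : k) = 0 ↔ a = c := by
      rw [← sub_eq_zero (a := a), ← cast0 (a - c)]
      push_cast
      constructor <;> intro h <;> linear_combination -h
    rw [ne_eq, h2] at h1
    exact h1
  have mE0 : (b = d ∧ Polynomial.rootMultiplicity 0 ET = 1) ∨
      (b ≠ d ∧ Polynomial.rootMultiplicity 0 ET = 0) := by
    have h1 := lin_mult (((a + b - c - d : ℤ) : k)) ((b - d : ℤ) : k) 0
      (by rw [← hET]; exact hE0)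
    rw [← hET] at h1
    have h2 : (((a + b - c - d : ℤ) : k)) * 0 + ((b - d : ℤ) : k) = 0 ↔ b = d := by
      rw [mul_zero, zero_add, cast0, sub_eq_zero]
    rw [ne_eq, h2] at h1
    exact h1
  have hNZ : (0 : ℤ) < N := by exact_mod_cast hN
  have hcomb : (a = N ∧ b = 0 ∧ c = 0 ∧ d = N) ∨ (a = 0 ∧ b = N ∧ c = N ∧ d = 0) ∨
      (a = N ∧ b = -N ∧ c = 0 ∧ d = -N) ∨ (a = 0 ∧ b = -N ∧ c = N ∧ d = -N) ∨
      (a = -N ∧ b = N ∧ c = -N ∧ d = 0) ∨ (a = -N ∧ b = 0 ∧ c = -N ∧ d = N) := by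
    have hac : (a = N ∧ c = 0) ∨ (a = 0 ∧ c = N) ∨ (a = -N ∧ c = -N) ∨ (a = 0 ∧ c = 0) := by
      rcases mB1 with ⟨h1, g1⟩ | ⟨h1, g1⟩ <;> rcases mA1 with ⟨h2, g2⟩ | ⟨h2, g2⟩ <;>
        rcases mE1 with ⟨h3, g3⟩ | ⟨h3, g3⟩ <;> rw [g1, g3] at ea <;> rw [g2, g3] at ec <;>
        norm_num at ea ec <;> omega
    have hbd : (b = N ∧ d = 0) ∨ (b = 0 ∧ d = N) ∨ (b = -N ∧ d = -N) ∨ (b = 0 ∧ d = 0) := by
      rcases mB0 with ⟨h1, g1⟩ | ⟨h1, g1⟩ <;> rcases mA0 with ⟨h2, g2⟩ | ⟨h2, g2⟩ <;>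
        rcases mE0 with ⟨h3, g3⟩ | ⟨h3, g3⟩ <;> rw [g1, g3] at eb <;> rw [g2, g3] at ed <;>
        norm_num at eb ed <;> omega
    rcases hac with ⟨h1, h2⟩ | ⟨h1, h2⟩ | ⟨h1, h2⟩ | ⟨h1, h2⟩ <;>
      rcases hbd with ⟨h3, h4⟩ | ⟨h3, h4⟩ | ⟨h3, h4⟩ | ⟨h3, h4⟩ <;>
      first
        | (exfalso; apply hdet; rw [h1, h2, h3, h4]; ring1)
        | (simp only [h1, h2, h3, h4]; simp)
  have hNΩ : (N : Ω) ≠ 0 := by
    have h1 : ((N : k)) ≠ 0 := Nat.cast_ne_zero.2 hN.ne'
    have h2 := (map_ne_zero (algebraMap k Ω)).2 h1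
    rwa [map_natCast] at h2
  rcases hcomb with ⟨h1, h2, h3, h4⟩ | ⟨h1, h2, h3, h4⟩ | ⟨h1, h2, h3, h4⟩ | ⟨h1, h2, h3, h4⟩ |
    ⟨h1, h2, h3, h4⟩ | ⟨h1, h2, h3, h4⟩ <;> rw [hA, hB, h1, h2, h3, h4] at hxE hyE <;>
    push_cast at hxE hyE
  · refine Or.inl ⟨h1, h2, h3, h4, ?_, ?_⟩
    · apply mul_left_cancel₀ hNΩ
      linear_combination -hxE
    · apply mul_left_cancel₀ hNΩ
      linear_combination -hyE
  · refine Or.inr (Or.inl ⟨h1, h2, h3, h4, ?_, ?_⟩)
    · apply mul_left_cancel₀ hNΩ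
      linear_combination hxE
    · apply mul_left_cancel₀ hNΩ
      linear_combination hyE
  · refine Or.inr (Or.inr (Or.inl ⟨h1, h2, h3, h4, ?_, ?_⟩))
    · apply mul_left_cancel₀ hNΩ
      linear_combination hxE
    · apply mul_left_cancel₀ hNΩ
      linear_combination hyE
  · refine Or.inr (Or.inr (Or.inr (Or.inl ⟨h1, h2, h3, h4, ?_, ?_⟩)))
    · apply mul_left_cancel₀ hNΩ
      linear_combination -hxE
    · apply mul_left_cancel₀ hNΩ
      linear_combination -hyE
  · refine Or.inr (Or.inr (Or.inr (Or.inr (Or.inl ⟨h1, h2, h3, h4, ?_, ?_⟩))))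
    · apply mul_left_cancel₀ hNΩ
      linear_combination -hxE
    · apply mul_left_cancel₀ hNΩ
      linear_combination -hyE
  · refine Or.inr (Or.inr (Or.inr (Or.inr (Or.inr ⟨h1, h2, h3, h4, ?_, ?_⟩))))
    · apply mul_left_cancel₀ hNΩ
      linear_combination hxE
    · apply mul_left_cancel₀ hNΩ
      linear_combination hyE

end Run7.h879.SH
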