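import Mathlib
import Pool.Agent.Run7.h879.SH.Alg2

/-!
Common factors of two trinomials in two variables.
-/

set_option autoImplicit false

open MvPolynomial

namespace Run7.h879.SH

variable {k : Type} [Field k]

/-- the residue field at an irreducible polynomial -/
theorem exists_res (D : MvPolynomial (Fin 2) k) (hD : Irreducible D) :
    ∃ (Ω : Type) (_ : Field Ω) (_ : Algebra k Ω) (φ : MvPolynomial (Fin 2) k →ₐ[k] Ω),
      ∀ f, φ f = 0 ↔ D ∣ f := by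
  have hprime : (Ideal.span {D}).IsPrime := by
    rw [Ideal.span_singleton_prime hD.ne_zero]
    exact hD.prime
  let B := MvPolynomial (Fin 2) k ⧸ Ideal.span {D}
  have : IsDomain B := Ideal.Quotient.isDomain _
  refine ⟨FractionRing B, inferInstance, inferInstance,
    (IsScalarTower.toAlgHom k B (FractionRing B)).comp (Ideal.Quotient.mkₐ k (Ideal.span {D})),
    fun f => ?_⟩
  rw [AlgHom.comp_apply]
  have h1 : (IsScalarTower.toAlgHom k B (FractionRing B)) (Ideal.Quotient.mkₐ k (Ideal.span {D}) f) =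
      algebraMap B (FractionRing B) (Ideal.Quotient.mk (Ideal.span {D}) f) := rfl
  rw [h1, map_eq_zero_iff _ (IsFractionRing.injective B (FractionRing B)),
    Ideal.Quotient.eq_zero_iff_mem, Ideal.mem_span_singleton]

theorem fse_C (n : ℕ) (u : k) : finSuccEquiv k n (C u) = Polynomial.C (C u) := by
  simp [finSuccEquiv_apply]

theorem euler (i j : Fin 2) (n : ℕ) : (X i : MvPolynomial (Fin 2) k) * pderiv i (X j ^ n) =
    if i = j then (n : MvPolynomial (Fin 2) k) * X j ^ n else 0 := by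
  split_ifs with h
  · subst h
    rcases n with _ | n
    · simp
    · rw [pderiv_pow, pderiv_X_self, Nat.add_sub_cancel]
      push_cast
      ring
  · rw [pderiv_pow, pderiv_X_of_ne (Ne.symm h)]
    ring

theorem euler2 (i : Fin 2) (e f : ℕ) : (X i : MvPolynomial (Fin 2) k) * pderiv i (X 0 ^ e * X 1 ^ f) =
    (if i = 0 then (e : MvPolynomial (Fin 2) k) else f) * (X 0 ^ e * X 1 ^ f) := by
  have h0 := euler (k := k) i 0 e
  have h1 := euler (k := k) i 1 f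
  rw [pderiv_mul]
  fin_cases i
  · simp only [Fin.mk_zero, if_true, Fin.zero_eq_one_iff, Nat.succ_ne_self, if_false,
      Nat.reduceEqDiff, OfNat.ofNat_ne_one] at h0 h1 ⊢
    linear_combination (X 1 ^ f) * h0 + (X 0 ^ e) * h1
  · simp only [Fin.mk_one, if_true, one_ne_zero, if_false] at h0 h1 ⊢
    linear_combination (X 1 ^ f) * h0 + (X 0 ^ e) * h1

theorem tri [CharZero k] (N : ℕ) (hN : 0 < N) (c1 c2 c3 c4 : k) (h1 : c1 ≠ 0) (h2 : c2 ≠ 0)
    (h3 : c3 ≠ 0) (h4 : c4 ≠ 0) (e0 e1 e2 f0 f1 f2 : ℕ) (a b c d : ℤ) (ha : a = e1 - e0)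
    (hb : b = f1 - f0) (hc : c = e2 - e0) (hd : d = f2 - f0) (hdet : a * d - b * c ≠ 0)
    (hnot : ¬ IsRelPrime (1 + C c1 * X 0 ^ N + C c2 * X 1 ^ N : MvPolynomial (Fin 2) k)
      (X 0 ^ e0 * X 1 ^ f0 + C c3 * (X 0 ^ e1 * X 1 ^ f1) + C c4 * (X 0 ^ e2 * X 1 ^ f2))) :
    (a = N ∧ b = 0 ∧ c = 0 ∧ d = N ∧ c3 = c1 ∧ c4 = c2) ∨
    (a = 0 ∧ b = N ∧ c = N ∧ d = 0 ∧ c3 = c2 ∧ c4 = c1) ∨
    (a = N ∧ b = -N ∧ c = 0 ∧ d = -N ∧ c3 * c2 = c1 ∧ c4 * c2 = 1) ∨
    (a = 0 ∧ b = -N ∧ c = N ∧ d = -N ∧ c3 * c2 = 1 ∧ c4 * c2 = c1) ∨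
    (a = -N ∧ b = N ∧ c = -N ∧ d = 0 ∧ c3 * c1 = c2 ∧ c4 * c1 = 1) ∨
    (a = -N ∧ b = 0 ∧ c = -N ∧ d = N ∧ c3 * c1 = 1 ∧ c4 * c1 = c2) := by
  obtain ⟨P, hP⟩ : ∃ P : MvPolynomial (Fin 2) k, P = 1 + C c1 * X 0 ^ N + C c2 * X 1 ^ N :=
    ⟨_, rfl⟩
  obtain ⟨Q, hQ⟩ : ∃ Q : MvPolynomial (Fin 2) k, Q = X 0 ^ e0 * X 1 ^ f0 +
    C c3 * (X 0 ^ e1 * X 1 ^ f1) + C c4 * (X 0 ^ e2 * X 1 ^ f2) := ⟨_, rfl⟩
  rw [← hP, ← hQ] at hnot
  have hPe : eval (fun _ => 0) P ≠ 0 := by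
    rw [hP]
    simp [zero_pow hN.ne']
  have hP0 : P ≠ 0 := by
    rintro h
    rw [h, map_zero] at hPe
    exact hPe rfl
  obtain ⟨D, hD, hDP, hDQ⟩ : ∃ D, Irreducible D ∧ D ∣ P ∧ D ∣ Q := by
    by_contra hcon
    push Not at hcon
    exact hnot (WfDvdMonoid.isRelPrime_of_no_irreducible_factors (fun h => hP0 h.1)
      fun z hz hzP => hcon z hz hzP)
  have hmono : ∀ (i j : ℕ) (u : k), u ≠ 0 → ¬ D ∣ C u * X 0 ^ i * X 1 ^ j := fun i j u hu h =>
    hD.not_isUnit (rel_mono P hPe i j u hu hDP h)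
  obtain ⟨Ω, _, _, φ, hφ⟩ := exists_res D hD
  have hcz : CharZero Ω := charZero_of_injective_algebraMap (algebraMap k Ω).injective
  obtain ⟨x, hx⟩ : ∃ x, x = φ (X 0) := ⟨_, rfl⟩
  obtain ⟨y, hy⟩ : ∃ y, y = φ (X 1) := ⟨_, rfl⟩
  have hx0 : x ≠ 0 := by
    rw [hx]
    intro h
    refine hmono 1 0 1 one_ne_zero ?_
    rw [← hφ]
    simp [h]
  have hy0 : y ≠ 0 := by
    rw [hy]
    intro h
    refine hmono 0 1 1 one_ne_zero ?_
    rw [← hφ]
    simp [h]
  have hφC : ∀ u : k, φ (C u) = algebraMap k Ω u := fun u => φ.commutes u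
  obtain ⟨s, hs⟩ : ∃ s : Ω, s = algebraMap k Ω c2 * y ^ N := ⟨_, rfl⟩
  have hp1 : algebraMap k Ω c1 * x ^ N = -(1 + s) := by
    have e1 := (hφ P).2 hDP
    rw [hP] at e1
    simp only [map_add, map_one, map_mul, map_pow, hφC, ← hx, ← hy] at e1
    rw [hs]
    linear_combination e1
  have h1Ω : algebraMap k Ω c1 ≠ 0 := (map_ne_zero _).2 h1
  have h2Ω : algebraMap k Ω c2 ≠ 0 := (map_ne_zero _).2 h2
  have h3Ω : algebraMap k Ω c3 ≠ 0 := (map_ne_zero _).2 h3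
  have h4Ω : algebraMap k Ω c4 ≠ 0 := (map_ne_zero _).2 h4
  have hs0 : s ≠ 0 := by
    rw [hs]
    exact mul_ne_zero h2Ω (pow_ne_zero _ hy0)
  have hs1 : 1 + s ≠ 0 := by
    intro h
    rw [h, neg_zero] at hp1
    exact mul_ne_zero h1Ω (pow_ne_zero _ hx0) hp1
  -- transcendence
  have htr : ∀ f : Polynomial k, Polynomial.aeval s f = 0 → f = 0 := by
    intro f hf
    by_contra hf0
    obtain ⟨F, hF⟩ : ∃ F : MvPolynomial (Fin 2) k, F = Polynomial.aeval (C c2 * X 1 ^ N) f :=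
      ⟨_, rfl⟩
    have g1 : φ F = 0 := by
      rw [hF, ← Polynomial.aeval_algHom_apply, map_mul, map_pow, hφC, ← hy, ← hs, hf]
    have g2 : finSuccEquiv k 1 F =
        Polynomial.C (Polynomial.aeval (C c2 * X 0 ^ N : MvPolynomial (Fin 1) k) f) := by
      have e1 : finSuccEquiv k 1 F = Polynomial.aeval
          (finSuccEquiv k 1 (C c2 * X 1 ^ N)) f := by
        rw [hF]
        exact (Polynomial.aeval_algHom_apply (finSuccEquiv k 1).toAlgHom _ f).symm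
      have e2 : finSuccEquiv k 1 (C c2 * X 1 ^ N) =
          Polynomial.C (C c2 * X 0 ^ N : MvPolynomial (Fin 1) k) := by
        have e3 : (X 1 : MvPolynomial (Fin 2) k) = X (Fin.succ 0) := rfl
        rw [map_mul, map_pow, e3, finSuccEquiv_X_succ, Polynomial.C_mul, Polynomial.C_pow]
        congr 1
        exact fse_C 1 c2
      rw [e1, e2]
      exact Polynomial.aeval_algHom_apply (Algebra.ofId (MvPolynomial (Fin 1) k)
        (Polynomial (MvPolynomial (Fin 1) k)) |>.restrictScalars k) _ f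
    have g3 : (Polynomial.aeval (C c2 * X 0 ^ N : MvPolynomial (Fin 1) k) f) ≠ 0 := by
      intro h0
      have e1 := congrArg (aeval (fun _ : Fin 1 => (Polynomial.X : Polynomial k))) h0
      rw [map_zero, ← Polynomial.aeval_algHom_apply, map_mul, map_pow, aeval_X, aeval_C] at e1
      have e2 : f.comp (Polynomial.C c2 * Polynomial.X ^ N) = 0 := e1
      rw [Polynomial.comp_eq_zero_iff] at e2
      rcases e2 with e2 | ⟨-, e2⟩
      · exact hf0 e2
      · have e3 := congrArg (fun q => Polynomial.coeff q N) e2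
        simp only [Polynomial.coeff_C_mul, Polynomial.coeff_X_pow_self, mul_one,
          Polynomial.coeff_C_of_ne_zero hN.ne'] at e3
        exact h2 e3
    have g4 : IsRelPrime F P := by
      refine rel_of_unit F P _ g2 g3 N ?_
      have e3 : (X 1 : MvPolynomial (Fin 2) k) = X (Fin.succ 0) := rfl
      have e4 : ∀ u : k, finSuccEquiv k 1 (C u) = Polynomial.C (C u) := fun u =>
        fse_C 1 u
      have e5 : (finSuccEquiv k 1 P).coeff N = C c1 := by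
        rw [hP]
        simp only [map_add, map_mul, map_pow, map_one, e3, finSuccEquiv_X_succ,
          finSuccEquiv_X_zero, e4]
        rw [← Polynomial.C_pow, ← Polynomial.C_mul, Polynomial.coeff_add, Polynomial.coeff_add,
          Polynomial.coeff_C_mul, Polynomial.coeff_X_pow_self, Polynomial.coeff_C_of_ne_zero hN.ne',
          Polynomial.coeff_one, if_neg hN.ne']
        ring
      rw [e5]
      have : IsUnit c1 := isUnit_iff_ne_zero.2 h1
      exact this.map C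
    exact hD.not_isUnit (g4 ((hφ F).1 g1) hDP)
  -- the derivatives
  obtain ⟨P1, hP1⟩ := hDP
  obtain ⟨Q1, hQ1⟩ := hDQ
  have hφD : φ D = 0 := (hφ D).2 dvd_rfl
  have hder : ∀ i, φ Q1 * φ (X i * pderiv i P) = φ P1 * φ (X i * pderiv i Q) := by
    intro i
    rw [hP1, hQ1, pderiv_mul, pderiv_mul]
    simp only [map_mul, map_add, hφD]
    ring
  have d0P : X 0 * pderiv 0 P = C c1 * ((N : MvPolynomial (Fin 2) k) * X 0 ^ N) := by
    rw [hP]
    have e1 := euler (k := k) 0 0 N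
    have e2 := euler (k := k) 0 1 N
    simp only [if_true, Fin.zero_eq_one_iff, OfNat.ofNat_ne_one, if_false] at e1 e2
    simp only [map_add, pderiv_C_mul, pderiv_one, Algebra.smul_def, algebraMap_eq]
    linear_combination (C c1) * e1 + (C c2) * e2
  have d1P : X 1 * pderiv 1 P = C c2 * ((N : MvPolynomial (Fin 2) k) * X 1 ^ N) := by
    rw [hP]
    have e1 := euler (k := k) 1 0 N
    have e2 := euler (k := k) 1 1 N
    simp only [if_true, one_ne_zero, if_false] at e1 e2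
    simp only [map_add, pderiv_C_mul, pderiv_one, Algebra.smul_def, algebraMap_eq]
    linear_combination (C c1) * e1 + (C c2) * e2
  have hP10 : φ P1 ≠ 0 := by
    intro h
    obtain ⟨P2, hP2⟩ := (hφ P1).1 h
    refine hmono N 0 (c1 * N) (mul_ne_zero h1 (by exact_mod_cast hN.ne')) ?_
    have e1 : C (c1 * N) * X 0 ^ N * X 1 ^ 0 = X 0 * pderiv 0 P := by
      rw [d0P, C_mul]
      simp
      ring
    rw [e1, hP1, hP2, pderiv_mul, pderiv_mul]
    exact ⟨X 0 * (pderiv 0 D * P2 + (pderiv 0 D * P2 + D * pderiv 0 P2)), by ring⟩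
  obtain ⟨q0, hq0⟩ : ∃ q, q = x ^ e0 * y ^ f0 := ⟨_, rfl⟩
  obtain ⟨q1, hq1⟩ : ∃ q, q = algebraMap k Ω c3 * (x ^ e1 * y ^ f1) := ⟨_, rfl⟩
  obtain ⟨q2, hq2⟩ : ∃ q, q = algebraMap k Ω c4 * (x ^ e2 * y ^ f2) := ⟨_, rfl⟩
  have hQsum : q0 + q1 + q2 = 0 := by
    have e1 := (hφ Q).2 ⟨Q1, hQ1⟩
    rw [hQ] at e1
    simp only [map_add, map_mul, map_pow, hφC, ← hx, ← hy] at e1
    rw [hq0, hq1, hq2]
    exact e1
  have d0Q : φ (X 0 * pderiv 0 Q) = e0 * q0 + e1 * q1 + e2 * q2 := by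
    have e1' := euler2 (k := k) 0 e0 f0
    have e2' := euler2 (k := k) 0 e1 f1
    have e3' := euler2 (k := k) 0 e2 f2
    simp only [if_true] at e1' e2' e3'
    have e4 : X 0 * pderiv 0 Q = (e0 : MvPolynomial (Fin 2) k) * (X 0 ^ e0 * X 1 ^ f0) +
        C c3 * ((e1 : MvPolynomial (Fin 2) k) * (X 0 ^ e1 * X 1 ^ f1)) +
        C c4 * ((e2 : MvPolynomial (Fin 2) k) * (X 0 ^ e2 * X 1 ^ f2)) := by
      rw [hQ, map_add, map_add, pderiv_C_mul, pderiv_C_mul]
      linear_combination e1' + (C c3) * e2' + (C c4) * e3'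
    rw [e4]
    simp only [map_add, map_mul, map_pow, hφC, ← hx, ← hy, map_natCast]
    rw [hq0, hq1, hq2]
    ring
  have d1Q : φ (X 1 * pderiv 1 Q) = f0 * q0 + f1 * q1 + f2 * q2 := by
    have e1' := euler2 (k := k) 1 e0 f0
    have e2' := euler2 (k := k) 1 e1 f1
    have e3' := euler2 (k := k) 1 e2 f2
    simp only [one_ne_zero, if_false] at e1' e2' e3'
    have e4 : X 1 * pderiv 1 Q = (f0 : MvPolynomial (Fin 2) k) * (X 0 ^ e0 * X 1 ^ f0) +
        C c3 * ((f1 : MvPolynomial (Fin 2) k) * (X 0 ^ e1 * X 1 ^ f1)) +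
        C c4 * ((f2 : MvPolynomial (Fin 2) k) * (X 0 ^ e2 * X 1 ^ f2)) := by
      rw [hQ, map_add, map_add, pderiv_C_mul, pderiv_C_mul]
      linear_combination e1' + (C c3) * e2' + (C c4) * e3'
    rw [e4]
    simp only [map_add, map_mul, map_pow, hφC, ← hx, ← hy, map_natCast]
    rw [hq0, hq1, hq2]
    ring
  have r0 := hder 0
  have r1 := hder 1
  rw [d0P, d0Q] at r0
  rw [d1P, d1Q] at r1
  simp only [map_mul, map_pow, hφC, ← hx, ← hy, map_natCast] at r0 r1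
  have haΩ : (a : Ω) = e1 - e0 := by rw [ha]; push_cast; ring
  have hbΩ : (b : Ω) = f1 - f0 := by rw [hb]; push_cast; ring
  have hcΩ : (c : Ω) = e2 - e0 := by rw [hc]; push_cast; ring
  have hdΩ : (d : Ω) = f2 - f0 := by rw [hd]; push_cast; ring
  have r0' : (N : Ω) * φ Q1 * -(1 + s) = φ P1 * (a * q1 + c * q2) := by
    rw [haΩ, hcΩ, ← hp1]
    linear_combination r0 + φ P1 * e0 * hQsum
  have r1' : (N : Ω) * φ Q1 * s = φ P1 * (b * q1 + d * q2) := by
    rw [hbΩ, hdΩ, hs]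
    linear_combination r1 + φ P1 * f0 * hQsum
  have hrel : q1 * ((a : Ω) * s + b * (1 + s)) + q2 * ((c : Ω) * s + d * (1 + s)) = 0 := by
    apply mul_left_cancel₀ hP10
    rw [mul_zero]
    linear_combination -s * r0' - (1 + s) * r1'
  have hq00 : q0 ≠ 0 := by
    rw [hq0]
    exact mul_ne_zero (pow_ne_zero _ hx0) (pow_ne_zero _ hy0)
  have hxN : x ^ N = algebraMap k Ω (-c1⁻¹) * (1 + s) := by
    rw [map_neg, map_inv₀]
    apply mul_left_cancel₀ h1Ω
    rw [hp1]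
    field_simp
  have hyN : y ^ N = algebraMap k Ω c2⁻¹ * s := by
    rw [map_inv₀, hs]
    field_simp
  have hquo : ∀ (u : k) (m n m0 n0 : ℕ) (A B : ℤ), A = (m : ℤ) - m0 → B = (n : ℤ) - n0 →
      algebraMap k Ω u * (x ^ m * y ^ n) / (x ^ m0 * y ^ n0) =
        algebraMap k Ω u * x ^ A * y ^ B := by
    intro u m n m0 n0 A B hA hB
    rw [hA, hB, zpow_sub₀ hx0, zpow_sub₀ hy0]
    simp only [zpow_natCast]
    field_simp
  have hqa : q1 / q0 = algebraMap k Ω c3 * x ^ a * y ^ b := by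
    rw [hq1, hq0]
    exact hquo c3 e1 f1 e0 f0 a b ha hb
  have hqb : q2 / q0 = algebraMap k Ω c4 * x ^ c * y ^ d := by
    rw [hq2, hq0]
    exact hquo c4 e2 f2 e0 f0 c d hc hd
  have hpw : ∀ (u : k) (A B : ℤ), (algebraMap k Ω u * x ^ A * y ^ B) ^ N =
      algebraMap k Ω (u ^ N * (-c1⁻¹) ^ A * (c2⁻¹) ^ B) * (1 + s) ^ A * s ^ B := by
    intro u A B
    have e1 : (x ^ A) ^ N = (x ^ N) ^ A := by
      rw [← zpow_natCast, ← zpow_natCast, ← zpow_mul, ← zpow_mul, mul_comm]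
    have e2 : (y ^ B) ^ N = (y ^ N) ^ B := by
      rw [← zpow_natCast, ← zpow_natCast, ← zpow_mul, ← zpow_mul, mul_comm]
    rw [mul_pow, mul_pow, e1, e2, hxN, hyN, mul_zpow, mul_zpow]
    simp only [map_mul, map_pow, map_zpow₀]
    ring
  have hmain := tri_field s htr N hN a b c d hdet (c3 ^ N * (-c1⁻¹) ^ a * (c2⁻¹) ^ b)
    (c4 ^ N * (-c1⁻¹) ^ c * (c2⁻¹) ^ d)
    (mul_ne_zero (mul_ne_zero (pow_ne_zero _ h3)
      (zpow_ne_zero _ (neg_ne_zero.2 (inv_ne_zero h1)))) (zpow_ne_zero _ (inv_ne_zero h2)))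
    (mul_ne_zero (mul_ne_zero (pow_ne_zero _ h4)
      (zpow_ne_zero _ (neg_ne_zero.2 (inv_ne_zero h1)))) (zpow_ne_zero _ (inv_ne_zero h2)))
    (q1 / q0) (q2 / q0) (by
      field_simp
      linear_combination hQsum) (by
      field_simp
      linear_combination hrel) (by rw [hqa, hpw]) (by rw [hqb, hpw])
  have hxNz : x ^ (N : ℤ) = x ^ N := zpow_natCast _ _
  have hyNz : y ^ (N : ℤ) = y ^ N := zpow_natCast _ _
  have hxN0 : x ^ N ≠ 0 := pow_ne_zero _ hx0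
  have hyN0 : y ^ N ≠ 0 := pow_ne_zero _ hy0
  have hinj : ∀ u v : k, algebraMap k Ω u = algebraMap k Ω v → u = v := fun u v h =>
    (algebraMap k Ω).injective h
  rw [hqa, hqb, ← hp1] at hmain
  rcases hmain with ⟨g1, g2, g3, g4, g5, g6⟩ | ⟨g1, g2, g3, g4, g5, g6⟩ |
    ⟨g1, g2, g3, g4, g5, g6⟩ | ⟨g1, g2, g3, g4, g5, g6⟩ | ⟨g1, g2, g3, g4, g5, g6⟩ |
    ⟨g1, g2, g3, g4, g5, g6⟩ <;> rw [g1, g2] at g5 <;> rw [g3, g4] at g6 <;>
    simp only [zpow_neg, hxNz, hyNz, zpow_zero, mul_one] at g5 g6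
  · refine Or.inl ⟨g1, g2, g3, g4, hinj _ _ ?_, hinj _ _ ?_⟩
    · exact mul_right_cancel₀ hxN0 g5
    · rw [hs] at g6
      exact mul_right_cancel₀ hyN0 g6
  · refine Or.inr (Or.inl ⟨g1, g2, g3, g4, hinj _ _ ?_, hinj _ _ ?_⟩)
    · rw [hs] at g5
      exact mul_right_cancel₀ hyN0 g5
    · exact mul_right_cancel₀ hxN0 g6
  · refine Or.inr (Or.inr (Or.inl ⟨g1, g2, g3, g4, hinj _ _ ?_, hinj _ _ ?_⟩))
    · rw [hs] at g5
      rw [map_mul]
      apply mul_right_cancel₀ hxN0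
      rw [← g5]
      field_simp
    · rw [hs] at g6
      rw [map_mul, map_one, ← g6]
      field_simp
  · refine Or.inr (Or.inr (Or.inr (Or.inl ⟨g1, g2, g3, g4, hinj _ _ ?_, hinj _ _ ?_⟩)))
    · rw [hs] at g5
      rw [map_mul, map_one, ← g5]
      field_simp
    · rw [hs] at g6
      rw [map_mul]
      apply mul_right_cancel₀ hxN0
      rw [← g6]
      field_simp
  · refine Or.inr (Or.inr (Or.inr (Or.inr (Or.inl ⟨g1, g2, g3, g4, hinj _ _ ?_, hinj _ _ ?_⟩))))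
    · rw [hs] at g5
      rw [map_mul]
      apply mul_right_cancel₀ hyN0
      rw [← g5]
      field_simp
    · rw [map_mul, map_one, ← g6]
      field_simp
  · refine Or.inr (Or.inr (Or.inr (Or.inr (Or.inr ⟨g1, g2, g3, g4, hinj _ _ ?_, hinj _ _ ?_⟩))))
    · rw [map_mul, map_one, ← g5]
      field_simp
    · rw [hs] at g6
      rw [map_mul]
      apply mul_right_cancel₀ hyN0
      rw [← g6]
      field_simp

end Run7.h879.SH
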