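import Mathlib

/-!
The analysis for cubic polynomials with a non-real root.
-/

set_option autoImplicit false

namespace Run7.h879.SH

open Complex

theorem pow_near (w : ℂ) : ∀ n : ℕ, n * ‖w‖ ≤ 1 → ‖(1 + w) ^ n - 1 - n * w‖ ≤ (n * ‖w‖) ^ 2 := by
  intro n
  induction n with
  | zero => intro _; simp
  | succ n ih =>
    intro h
    have hw : 0 ≤ ‖w‖ := norm_nonneg w
    have h1 : (n : ℝ) * ‖w‖ ≤ 1 := by
      push_cast at h
      nlinarith
    have h2 := ih h1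
    have e1 : (1 + w) ^ (n + 1) - 1 - ((n + 1 : ℕ) : ℂ) * w =
        (1 + w) * ((1 + w) ^ n - 1 - n * w) + n * w ^ 2 := by
      push_cast
      ring
    rw [e1]
    have h3 : ‖(1 + w) * ((1 + w) ^ n - 1 - n * w) + n * w ^ 2‖ ≤
        (1 + ‖w‖) * (n * ‖w‖) ^ 2 + n * ‖w‖ ^ 2 := by
      refine (norm_add_le _ _).trans (add_le_add ?_ ?_)
      · rw [norm_mul]
        refine mul_le_mul ?_ h2 (norm_nonneg _) (by positivity)
        refine (norm_add_le _ _).trans ?_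
        rw [norm_one]
      · rw [norm_mul, norm_pow, Complex.norm_natCast]
    refine h3.trans ?_
    push_cast
    have hn : (0 : ℝ) ≤ n := Nat.cast_nonneg n
    have h4 : ‖w‖ * (n * ‖w‖) ^ 2 ≤ n * ‖w‖ ^ 2 := by
      have h5 : ‖w‖ * (n * ‖w‖) ^ 2 = (n * ‖w‖ ^ 2) * (n * ‖w‖) := by ring
      rw [h5]
      exact mul_le_of_le_one_right (by positivity) h1
    nlinarith [sq_nonneg ‖w‖]

theorem re_pow_lower {p : ℕ} (hodd : Odd p) (r η : ℝ) (hη : η ≠ 0) (h : 2 * (p * |r|) ≤ |η|) :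
    1 / 2 * (p * |r| * |η| ^ (p - 1)) ≤ |(((r : ℂ) + η * I) ^ p).re| := by
  obtain ⟨m, hm⟩ := hodd
  have hη' : 0 < |η| := abs_pos.2 hη
  have hηC : (η : ℂ) ≠ 0 := by exact_mod_cast hη
  obtain ⟨w, hw⟩ : ∃ w : ℂ, w = r / (η * I) := ⟨_, rfl⟩
  have hnw : ‖w‖ = |r| / |η| := by
    rw [hw, norm_div, norm_mul, Complex.norm_I, mul_one, Complex.norm_real, Complex.norm_real,
      Real.norm_eq_abs, Real.norm_eq_abs]
  have hpw : (p : ℝ) * ‖w‖ ≤ 1 / 2 := by
    rw [hnw, mul_div_assoc', div_le_iff₀ hη']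
    linarith
  have h1 := pow_near w p (by linarith)
  have hI : (η * I : ℂ) ^ p = ((-1) ^ m * η ^ p : ℝ) * I := by
    rw [mul_pow, hm, pow_succ I, pow_mul I, I_sq]
    push_cast
    ring
  have e1 : (r : ℂ) + η * I = (η * I) * (1 + w) := by
    rw [hw]
    field_simp
    ring
  have e2 : ((r : ℂ) + η * I) ^ p = ((-1) ^ m * η ^ p : ℝ) * I * (1 + w) ^ p := by
    rw [e1, mul_pow, hI]
  -- the main term
  have e3 : (((-1) ^ m * η ^ p : ℝ) * I * (1 + p * w) : ℂ) =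
      ((-1) ^ m * η ^ p : ℝ) * I + (((-1) ^ m * (η ^ (p - 1) * (p * r)) : ℝ) : ℂ) := by
    have h2 : η ^ p = η ^ (p - 1) * η := by
      rw [← pow_succ]
      congr 1
      omega
    rw [hw, h2]
    push_cast
    field_simp
  have e4 : (((r : ℂ) + η * I) ^ p).re = (-1) ^ m * (η ^ (p - 1) * (p * r)) +
      ((((-1) ^ m * η ^ p : ℝ) : ℂ) * I * ((1 + w) ^ p - 1 - p * w)).re := by
    have h2 : ((r : ℂ) + η * I) ^ p = (((-1) ^ m * η ^ p : ℝ) * I * (1 + p * w) : ℂ) +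
        ((((-1) ^ m * η ^ p : ℝ) : ℂ) * I * ((1 + w) ^ p - 1 - p * w)) := by
      rw [e2]
      ring
    rw [h2, e3, Complex.add_re, Complex.add_re, Complex.re_ofReal_mul, Complex.I_re, mul_zero,
      zero_add, Complex.ofReal_re]
  have h3 : |((((-1) ^ m * η ^ p : ℝ) : ℂ) * I * ((1 + w) ^ p - 1 - p * w)).re| ≤
      |η| ^ p * (p * ‖w‖) ^ 2 := by
    refine (Complex.abs_re_le_norm _).trans ?_
    rw [norm_mul, norm_mul, Complex.norm_I, mul_one, Complex.norm_real, Real.norm_eq_abs, abs_mul,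
      abs_pow, abs_neg, abs_one, one_pow, one_mul, abs_pow]
    exact mul_le_mul_of_nonneg_left h1 (by positivity)
  have h4 : |(-1) ^ m * (η ^ (p - 1) * (p * r))| = p * |r| * |η| ^ (p - 1) := by
    rw [abs_mul, abs_pow, abs_neg, abs_one, one_pow, one_mul, abs_mul, abs_pow, abs_mul,
      Nat.abs_cast]
    ring
  have h5 : |η| ^ p * (p * ‖w‖) ^ 2 ≤ 1 / 2 * (p * |r| * |η| ^ (p - 1)) := by
    have h6 : |η| ^ p = |η| ^ (p - 1) * |η| := by
      rw [← pow_succ]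
      congr 1
      omega
    have h7 : |η| * (p * ‖w‖) = p * |r| := by
      rw [hnw]
      field_simp
    calc |η| ^ p * (p * ‖w‖) ^ 2 = |η| ^ (p - 1) * (|η| * (p * ‖w‖)) * (p * ‖w‖) := by
          rw [h6]; ring
      _ = |η| ^ (p - 1) * (p * |r|) * (p * ‖w‖) := by rw [h7]
      _ ≤ |η| ^ (p - 1) * (p * |r|) * (1 / 2) := mul_le_mul_of_nonneg_left hpw (by positivity)
      _ = _ := by ring
  rw [e4]
  have h8 := abs_sub_abs_le_abs_sub ((-1) ^ m * (η ^ (p - 1) * (p * r)))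
    (-((((-1) ^ m * η ^ p : ℝ) : ℂ) * I * ((1 + w) ^ p - 1 - p * w)).re)
  rw [abs_neg, sub_neg_eq_add] at h8
  linarith

end Run7.h879.SH
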