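import Mathlib
import Pool.Agent.Run7.h879.SH.Cx1

/-!
The analysis for cubic polynomials with a non-real root: the main estimate.
-/

set_option autoImplicit false

namespace Run7.h879.SH

open Complex ComplexConjugate

theorem exp4_le : Real.exp 4 ≤ 55 := by
  have h1 := Real.exp_one_lt_d9
  have h2 : Real.exp 4 = Real.exp 1 ^ 4 := by
    rw [← Real.exp_nat_mul]
    norm_num
  rw [h2]
  have h3 : Real.exp 1 ^ 4 ≤ 2.7182818286 ^ 4 := pow_le_pow_left₀ (Real.exp_pos _).le h1.le 4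
  refine h3.trans ?_
  norm_num

theorem cx_small {p : ℕ} (hp : 100000 ≤ p) (r : ℝ) (u : ℂ) (h1 : (r : ℂ) + u + conj u = 1)
    (h2 : |r| * ‖u‖ ^ 2 ≤ 1 / p ^ 3) (h3 : |r| ≤ Real.exp 4 * p * ‖u‖) :
    1 / 3 ≤ ‖u‖ ∧ |r| ≤ 9 / p ^ 3 := by
  have hpR : (100000 : ℝ) ≤ p := by exact_mod_cast hp
  have hp0 : (0 : ℝ) < p := by linarith
  have hu := norm_nonneg u
  have h4 : 1 ≤ |r| + 2 * ‖u‖ := by
    have h5 : ‖(r : ℂ) + u + conj u‖ = 1 := by rw [h1, norm_one]
    have h6 := norm_add₃_le (a := (r : ℂ)) (b := u) (c := conj u)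
    rw [h5, RCLike.norm_conj, Complex.norm_real, Real.norm_eq_abs] at h6
    linarith
  have hlt : |r| < ‖u‖ := by
    by_contra hcon
    push Not at hcon
    have h5 : 1 / 3 ≤ |r| := by linarith
    have h6 : ‖u‖ ^ 2 ≤ 3 / p ^ 3 := by
      have h7 : 1 / 3 * ‖u‖ ^ 2 ≤ 1 / p ^ 3 :=
        (mul_le_mul_of_nonneg_right h5 (sq_nonneg _)).trans h2
      have h8 : (3 : ℝ) / p ^ 3 = 3 * (1 / p ^ 3) := by ring
      rw [h8]
      linarith
    have h7 : |r| ≤ 55 * p * ‖u‖ := by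
      refine h3.trans ?_
      have := exp4_le
      have h8 : 0 ≤ (p : ℝ) * ‖u‖ := by positivity
      nlinarith
    have h8 : |r| ^ 2 ≤ (55 * p * ‖u‖) ^ 2 := pow_le_pow_left₀ (abs_nonneg _) h7 2
    have h9 : (1 / 9 : ℝ) ≤ |r| ^ 2 := by nlinarith
    have h10 : (55 * (p : ℝ) * ‖u‖) ^ 2 ≤ 3025 * p ^ 2 * (3 / p ^ 3) := by
      have : (55 * (p : ℝ) * ‖u‖) ^ 2 = 3025 * p ^ 2 * ‖u‖ ^ 2 := by ring
      rw [this]
      exact mul_le_mul_of_nonneg_left h6 (by positivity)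
    have h11 : 3025 * (p : ℝ) ^ 2 * (3 / p ^ 3) = 9075 / p := by
      field_simp
      norm_num
    rw [h11] at h10
    have h12 : (9075 : ℝ) / p ≤ 9075 / 100000 := by
      apply div_le_div_of_nonneg_left (by norm_num) (by norm_num) hpR
    norm_num at h12
    linarith
  have h5 : 1 / 3 ≤ ‖u‖ := by linarith
  refine ⟨h5, ?_⟩
  have h6 : (1 / 3 : ℝ) ^ 2 ≤ ‖u‖ ^ 2 := pow_le_pow_left₀ (by norm_num) h5 2
  have h7 : |r| * (1 / 3) ^ 2 ≤ 1 / p ^ 3 :=
    (mul_le_mul_of_nonneg_left h6 (abs_nonneg _)).trans h2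
  have h8 : (9 : ℝ) / p ^ 3 = 9 * (1 / p ^ 3) := by ring
  rw [h8]
  linarith

theorem pow_bounds {p : ℕ} (hp : 100000 ≤ p) (r : ℝ) (h : |r| ≤ 9 / p ^ 3) :
    |1 - 2 * r| ^ p ≤ 2 ∧ 1 / 2 ≤ |1 - 2 * r| ^ p := by
  have hpR : (100000 : ℝ) ≤ p := by exact_mod_cast hp
  have hp0 : (0 : ℝ) < p := by linarith
  have h0 := abs_le.1 h
  have h18 : (p : ℝ) * (18 / p ^ 3) ≤ 1 / 2 := by
    have h1 : (p : ℝ) * (18 / p ^ 3) = 18 / p ^ 2 := by
      field_simp
    rw [h1]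
    have h2 : (18 : ℝ) / p ^ 2 ≤ 18 / 100000 ^ 2 := by
      apply div_le_div_of_nonneg_left (by norm_num) (by norm_num)
      exact pow_le_pow_left₀ (by norm_num) hpR 2
    refine h2.trans ?_
    norm_num
  have h9 : (9 : ℝ) / p ^ 3 ≤ 1 / 4 := by
    have h1 : (9 : ℝ) / p ^ 3 ≤ 9 / 100000 ^ 3 := by
      apply div_le_div_of_nonneg_left (by norm_num) (by norm_num)
      exact pow_le_pow_left₀ (by norm_num) hpR 3
    refine h1.trans ?_
    norm_num
  have hpos : 0 < 1 - 2 * r := by linarith [h0.2]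
  rw [abs_of_pos hpos]
  have e18 : (18 : ℝ) / p ^ 3 = 2 * (9 / p ^ 3) := by ring
  constructor
  · have h1 : 1 - 2 * r ≤ Real.exp (18 / p ^ 3) := by
      have := Real.add_one_le_exp ((18 : ℝ) / p ^ 3)
      linarith [h0.1]
    have h2 : (1 - 2 * r) ^ p ≤ Real.exp (18 / p ^ 3) ^ p := pow_le_pow_left₀ hpos.le h1 p
    rw [← Real.exp_nat_mul] at h2
    have h3 : Real.exp (p * (18 / p ^ 3)) ≤ Real.exp (1 / 2) := Real.exp_le_exp.2 h18
    have h4 : Real.exp (1 / 2) ≤ 2 := by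
      have h5 := Real.add_one_le_exp (-(1 / 2) : ℝ)
      rw [Real.exp_neg] at h5
      have h6 := Real.exp_pos (1 / 2)
      have h7 : (1 / 2 : ℝ) ≤ (Real.exp (1 / 2))⁻¹ := by linarith
      have h8 := (le_inv_comm₀ (by norm_num) h6).1 h7
      linarith
    linarith
  · have h1 := one_add_mul_le_pow (a := -2 * r) (by linarith [h0.2]) p
    have h2 : (1 : ℝ) + -2 * r = 1 - 2 * r := by ring
    rw [h2] at h1
    have h3 : -(1 / 2) ≤ (p : ℝ) * (-2 * r) := by
      have h4 : (p : ℝ) * (2 * r) ≤ p * (18 / p ^ 3) :=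
        mul_le_mul_of_nonneg_left (by linarith [h0.2]) hp0.le
      linarith
    linarith

theorem exp_le_two_mul {x : ℝ} (h0 : 0 ≤ x) (h1 : x ≤ 1 / 2) : Real.exp x ≤ 1 + 2 * x := by
  have h2 := Real.add_one_le_exp (-x)
  rw [Real.exp_neg] at h2
  have h3 := Real.exp_pos x
  have h4 : (0 : ℝ) < -x + 1 := by linarith
  have h5 := (le_inv_comm₀ h4 h3).1 h2
  refine h5.trans ?_
  rw [inv_le_iff_one_le_mul₀ h4]
  nlinarith

theorem complex_core (B : ℝ) (hB : 0 ≤ B) : ∃ P0 : ℕ, ∀ p : ℕ, P0 ≤ p → Odd p →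
    ∀ (r : ℝ) (u : ℂ), r ≠ 0 → (r : ℂ) + u + conj u = 1 → |r| * ‖u‖ ^ 2 ≤ 1 / p ^ 3 →
    |r| ≤ Real.exp 4 * p * ‖u‖ →
    (1 - 2 * (r : ℂ)) ^ p + (1 - 2 * u) ^ p + (1 - 2 * conj u) ^ p = 0 →
    -(B * Real.log p) ≤ Real.log |r| → ‖(u / conj u) ^ 2 + 1‖ ≤ 1 / Real.sqrt p := by
  have hev : ∀ᶠ p : ℕ in Filter.atTop, 54 * B * Real.log p + 56 ≤ Real.sqrt p := by
    have h1 : (fun x : ℝ => 54 * B * Real.log x + 56) =o[Filter.atTop] (fun x : ℝ => x ^ (1 / 2 : ℝ)) := by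
      refine Asymptotics.IsLittleO.add ?_ ?_
      · exact (isLittleO_log_rpow_atTop (by norm_num)).const_mul_left _
      · exact Asymptotics.isLittleO_const_left.2 (Or.inr (by
          refine Filter.Tendsto.comp Filter.tendsto_abs_atTop_atTop ?_
          exact tendsto_rpow_atTop (by norm_num)))
    have h2 := (h1.def (show (0 : ℝ) < 1 by norm_num))
    have h3 : ∀ᶠ x : ℝ in Filter.atTop, 54 * B * Real.log x + 56 ≤ Real.sqrt x := by
      filter_upwards [h2, Filter.eventually_ge_atTop 0] with x hx hx0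
      rw [one_mul, Real.norm_eq_abs, Real.norm_eq_abs, abs_of_nonneg (Real.rpow_nonneg hx0 _)] at hx
      rw [Real.sqrt_eq_rpow]
      exact (le_abs_self _).trans hx
    exact tendsto_natCast_atTop_atTop.eventually h3
  obtain ⟨P1, hP1⟩ := Filter.eventually_atTop.1 hev
  refine ⟨max P1 100000, fun p hp hodd r u hr h1 h2 h3 h4 h5 => ?_⟩
  have hp1 : P1 ≤ p := (le_max_left _ _).trans hp
  have hp2 : 100000 ≤ p := (le_max_right _ _).trans hp
  have hbig := hP1 p hp1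
  have hpR : (100000 : ℝ) ≤ p := by exact_mod_cast hp2
  have hp0 : (0 : ℝ) < p := by linarith
  obtain ⟨k1, k2⟩ := cx_small hp2 r u h1 h2 h3
  obtain ⟨k3, k4⟩ := pow_bounds hp2 r k2
  have hr0 : 0 < |r| := abs_pos.2 hr
  have hlogp : 0 ≤ Real.log p := Real.log_nonneg (by linarith)
  -- the numbers ζ and η
  obtain ⟨η, hη⟩ : ∃ η : ℝ, η = -2 * u.im := ⟨_, rfl⟩
  have hre : r + 2 * u.re = 1 := by
    have h6 := congrArg Complex.re h1
    simp only [Complex.add_re, Complex.ofReal_re, Complex.conj_re, Complex.one_re] at h6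
    linarith
  have hζ : (1 : ℂ) - 2 * u = r + η * I := by
    apply Complex.ext
    · simp
      linarith
    · simp [hη]
  have hζ' : (1 : ℂ) - 2 * conj u = conj ((r : ℂ) + η * I) := by
    rw [← hζ, map_sub, map_mul, map_one, map_ofNat]
  have hpow : 2 * |((((r : ℂ) + η * I) ^ p)).re| = |1 - 2 * r| ^ p := by
    rw [hζ, hζ', ← map_pow] at h4
    have h6 : (((r : ℂ) + η * I) ^ p) + conj (((r : ℂ) + η * I) ^ p) =
        ((2 * (((r : ℂ) + η * I) ^ p).re : ℝ) : ℂ) := Complex.add_conj _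
    have h7 : ((2 * (((r : ℂ) + η * I) ^ p).re : ℝ) : ℂ) = ((-(1 - 2 * r) ^ p : ℝ) : ℂ) := by
      rw [← h6]
      push_cast
      linear_combination h4
    have h8 := Complex.ofReal_injective h7
    rw [← abs_pow, ← abs_neg ((1 - 2 * r) ^ p), ← h8, abs_mul, abs_two]
  have hnorm : ‖(r : ℂ) + η * I‖ ≤ |r| + |η| := by
    refine (norm_add_le _ _).trans ?_
    rw [norm_mul, Complex.norm_I, mul_one, Complex.norm_real, Complex.norm_real,
      Real.norm_eq_abs, Real.norm_eq_abs]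
  have h9p : (9 : ℝ) / p ^ 3 ≤ 1 / p := by
    rw [div_le_div_iff₀ (by positivity) hp0]
    nlinarith [sq_nonneg ((p : ℝ))]
  have hrp : |r| ≤ 1 / p := k2.trans h9p
  have h1p : (1 : ℝ) / p ≤ 1 / 100000 := by
    apply div_le_div_of_nonneg_left (by norm_num) (by norm_num) hpR
  -- the lower bound for η
  have hηlow : 1 - 4 / p ≤ |η| := by
    by_contra hcon
    push Not at hcon
    have h6 : ‖(r : ℂ) + η * I‖ ≤ 1 - 3 / p := by
      have h7 : (4 : ℝ) / p = 4 * (1 / p) := by ring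
      have h8 : (3 : ℝ) / p = 3 * (1 / p) := by ring
      rw [h7] at hcon
      rw [h8]
      linarith
    have h7 : 1 - 3 / (p : ℝ) ≤ Real.exp (-(3 / p)) := by
      have := Real.add_one_le_exp (-(3 / (p : ℝ)))
      linarith
    have h8 : ‖(r : ℂ) + η * I‖ ^ p ≤ Real.exp (-(3 / p)) ^ p :=
      pow_le_pow_left₀ (norm_nonneg _) (h6.trans h7) p
    rw [← Real.exp_nat_mul] at h8
    have h9 : (p : ℝ) * (-(3 / p)) = -3 := by field_simp
    rw [h9] at h8
    have h10 := Complex.abs_re_le_norm (((r : ℂ) + η * I) ^ p)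
    rw [norm_pow] at h10
    have h11 : Real.exp (-3) < 1 / 4 := by
      rw [Real.exp_neg, inv_lt_comm₀ (Real.exp_pos _) (by norm_num)]
      have h12 := Real.exp_one_gt_d9
      have h13 : Real.exp 3 = Real.exp 1 ^ 3 := by
        rw [← Real.exp_nat_mul]
        norm_num
      rw [h13]
      have h14 : (2 : ℝ) ^ 3 ≤ Real.exp 1 ^ 3 := pow_le_pow_left₀ (by norm_num) (by linarith) 3
      norm_num at h14 ⊢
      linarith
    linarith
  have hηhalf : 1 / 2 ≤ |η| := by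
    have h8 : (4 : ℝ) / p = 4 * (1 / p) := by ring
    rw [h8] at hηlow
    linarith
  have hη0 : η ≠ 0 := by
    intro h0
    rw [h0, abs_zero] at hηhalf
    linarith
  -- the upper bound
  have h2pr : 2 * ((p : ℝ) * |r|) ≤ |η| := by
    have h6 : (p : ℝ) * |r| ≤ p * (9 / p ^ 3) := mul_le_mul_of_nonneg_left k2 hp0.le
    have h7 : (p : ℝ) * (9 / p ^ 3) = 9 / p ^ 2 := by field_simp
    have h8 : (9 : ℝ) / p ^ 2 ≤ 9 / 100000 ^ 2 := by
      apply div_le_div_of_nonneg_left (by norm_num) (by norm_num)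
      exact pow_le_pow_left₀ (by norm_num) hpR 2
    have h9 : (9 : ℝ) / 100000 ^ 2 ≤ 1 / 4 := by norm_num
    linarith
  have hlow := re_pow_lower hodd r η hη0 h2pr
  have hup : (p : ℝ) * |r| * |η| ^ (p - 1) ≤ 2 := by linarith
  obtain ⟨x, hx⟩ : ∃ x : ℝ, x = 2 * B * Real.log p / p := ⟨_, rfl⟩
  have hx0 : 0 ≤ x := by rw [hx]; positivity
  have hsq : Real.sqrt p * Real.sqrt p = p := Real.mul_self_sqrt hp0.le
  have hsq0 : 0 < Real.sqrt p := Real.sqrt_pos.2 hp0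
  have hxle : 27 * x + 56 / p ≤ 1 / Real.sqrt p := by
    rw [hx, le_div_iff₀ hsq0]
    have h6 : (27 * (2 * B * Real.log p / p) + 56 / p) * Real.sqrt p =
        (54 * B * Real.log p + 56) / p * Real.sqrt p := by ring
    rw [h6, div_mul_eq_mul_div, div_le_one hp0]
    calc (54 * B * Real.log p + 56) * Real.sqrt p ≤ Real.sqrt p * Real.sqrt p :=
          mul_le_mul_of_nonneg_right hbig hsq0.le
      _ = p := hsq
  have hx2 : x ≤ 1 / 2 := by
    have h6 : 1 / Real.sqrt p ≤ 1 := by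
      rw [div_le_one hsq0, Real.one_le_sqrt]
      linarith
    have h7 : 0 ≤ 56 / (p : ℝ) := by positivity
    linarith
  have hηup : |η| ≤ 1 + 2 * x := by
    rcases le_or_gt (|η|) 1 with h6 | h6
    · linarith
    have h7 : Real.log ((p : ℝ) * |r| * |η| ^ (p - 1)) ≤ Real.log 2 :=
      Real.log_le_log (by positivity) hup
    rw [Real.log_mul (by positivity) (by positivity), Real.log_mul hp0.ne' hr0.ne',
      Real.log_pow] at h7
    have h8 : Real.log 2 ≤ Real.log p := Real.log_le_log (by norm_num) (by linarith)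
    have h9 : ((p - 1 : ℕ) : ℝ) * Real.log |η| ≤ B * Real.log p := by linarith
    have h10 : (p : ℝ) / 2 ≤ ((p - 1 : ℕ) : ℝ) := by
      rw [Nat.cast_sub (by omega), Nat.cast_one]
      linarith
    have h11 : 0 < Real.log |η| := Real.log_pos h6
    have h12 : (p : ℝ) / 2 * Real.log |η| ≤ B * Real.log p :=
      (mul_le_mul_of_nonneg_right h10 h11.le).trans h9
    have h13 : Real.log |η| ≤ x := by
      rw [hx, le_div_iff₀ hp0]
      linarith
    have h14 : |η| ≤ Real.exp x := (Real.log_le_iff_le_exp (by linarith)).1 h13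
    exact h14.trans (exp_le_two_mul hx0 hx2)
  -- the conclusion
  have hu0 : u ≠ 0 := by
    rintro rfl
    rw [norm_zero] at k1
    linarith
  have hcu : conj u ≠ 0 := (map_ne_zero _).2 hu0
  have e1 : (u / conj u) ^ 2 + 1 = ((((1 - r) ^ 2 - η ^ 2) / 2 : ℝ) : ℂ) / (conj u) ^ 2 := by
    have h6 : u ^ 2 + (conj u) ^ 2 = ((((1 - r) ^ 2 - η ^ 2) / 2 : ℝ) : ℂ) := by
      have h7 : u ^ 2 + (conj u) ^ 2 = ((2 * (u ^ 2).re : ℝ) : ℂ) := by
        rw [← map_pow]
        exact Complex.add_conj _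
      rw [h7]
      congr 1
      rw [pow_two u, Complex.mul_re]
      have h8 : u.re = (1 - r) / 2 := by linarith
      have h9 : u.im = -η / 2 := by rw [hη]; ring
      rw [h8, h9]
      ring
    rw [← h6, div_pow, div_add_one (pow_ne_zero 2 hcu)]
  rw [e1, norm_div, Complex.norm_real, norm_pow, RCLike.norm_conj, Real.norm_eq_abs]
  have hnu : (1 / 3 : ℝ) ^ 2 ≤ ‖u‖ ^ 2 := pow_le_pow_left₀ (by norm_num) k1 2
  have h6 : |((1 - r) ^ 2 - η ^ 2) / 2| ≤ 1 / 2 * (abs (1 - |η|) * (1 + |η|) + 3 * |r|) := by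
    have h7 : ((1 - r) ^ 2 - η ^ 2) / 2 = 1 / 2 * ((1 - |η|) * (1 + |η|) + (r * r - 2 * r)) := by
      have := sq_abs η
      linear_combination (1 / 2 : ℝ) * this
    rw [h7, abs_mul]
    have h8 : |(1 / 2 : ℝ)| = 1 / 2 := abs_of_pos (by norm_num)
    rw [h8]
    refine mul_le_mul_of_nonneg_left ?_ (by norm_num)
    refine (abs_add_le _ _).trans (add_le_add ?_ ?_)
    · rw [abs_mul]
      have : abs (1 + |η|) = 1 + |η| := abs_of_pos (by positivity)
      rw [this]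
    · refine (abs_sub _ _).trans ?_
      rw [abs_mul, abs_mul, abs_two]
      have : |r| * |r| ≤ 1 * |r| := mul_le_mul_of_nonneg_right (by linarith) (abs_nonneg _)
      linarith
  have h7 : abs (1 - |η|) ≤ 2 * x + 4 / p := by
    rw [abs_le]
    have h8 : 0 ≤ 4 / (p : ℝ) := by positivity
    constructor <;> linarith
  have h8 : abs (1 - |η|) * (1 + |η|) ≤ (2 * x + 4 / p) * 3 := by
    refine mul_le_mul h7 (by linarith) (by positivity) ?_
    have h8 : 0 ≤ 4 / (p : ℝ) := by positivity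
    linarith
  have h9 : |r| ≤ 1 / 100000 * (1 / p) := by
    refine k2.trans ?_
    rw [div_mul_div_comm, mul_one, div_le_div_iff₀ (by positivity) (by positivity)]
    nlinarith [mul_pos hp0 hp0, mul_pos (mul_pos hp0 hp0) hp0]
  rw [div_le_iff₀ (by positivity)]
  calc |((1 - r) ^ 2 - η ^ 2) / 2| ≤ 1 / 2 * ((2 * x + 4 / p) * 3 + 3 * |r|) := by linarith
    _ ≤ (27 * x + 56 / p) * (1 / 3) ^ 2 := by
        have h10 : (4 : ℝ) / p = 4 * (1 / p) := by ring
        have h11 : (56 : ℝ) / p = 56 * (1 / p) := by ring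
        have h12 : 0 ≤ 1 / (p : ℝ) := by positivity
        rw [h10, h11]
        linarith
    _ ≤ 1 / Real.sqrt p * (1 / 3) ^ 2 := mul_le_mul_of_nonneg_right hxle (by positivity)
    _ ≤ 1 / Real.sqrt p * ‖u‖ ^ 2 := mul_le_mul_of_nonneg_left hnu (by positivity)

end Run7.h879.SH
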