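import Pool.Agent.N754.LT.Quot

/-!
The greatest common divisor theorem: an integral element which divides `p(w)` and `q(w)`, for
coprime polynomials `p`, `q` and units `w`, is negligible. The proof is the one of the quotient
theorem.
-/

set_option autoImplicit false
set_option linter.unusedSectionVars false

open Finset Filter Module MvPolynomial

namespace Run7.h879.SH

open Pool.Agent.Y742.DI Pool.Agent.N754.LT

variable {k R : Type} [Field k] [CommRing R] [IsDomain R] [Algebra k R] (D : Dc k R) {r : ℕ}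

theorem gcd_neg (w : Fin r → Rˣ) (hw : AlgebraicIndependent k (fun i => (w i : R)))
    (p q : MvPolynomial (Fin r) k) (hq : q ≠ 0) (hpq : IsRelPrime q p) (g u x : R) (hg : g ≠ 0)
    (hu : g * u = aeval (fun i => (w i : R)) q)
    (hx : g * x = aeval (fun i => (w i : R)) p) (hr : 1 ≤ r) :
    D.Neg (fun ω => D.lg g ω) := by
  classical
  set φ : MvPolynomial (Fin r) k →ₐ[k] R := aeval (fun i => (w i : R)) with hφ
  have hinj : Function.Injective φ := hw
  -- sizes of the units
  obtain ⟨C1, hC1, hΛ⟩ : ∃ C1 : ℝ, 0 ≤ C1 ∧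
      D.Neg (fun ω => ∑ i, |D.lg (w i : R) ω| - C1 * D.one ω) := by
    choose C hC0 hC using fun i => D.bdd (w i)
    refine ⟨∑ i, C i, Finset.sum_nonneg fun i _ => hC0 i, ?_⟩
    refine D.neg_mono _ _ ?_ (D.neg_sum Finset.univ _ fun i _ => hC i)
    refine Filter.Eventually.of_forall fun ω => ?_
    rw [Finset.sum_sub_distrib, Finset.sum_mul]
    exact le_refl _
  refine D.arch _ fun ε hε => ?_
  obtain ⟨M, hM, hnum⟩ := num_est r p.totalDegree q.totalDegree hr C1 ε hC1 hε
  -- the space of numerators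
  let W : Submodule k ((Sx r M) → k) :=
    { carrier := {f | ∃ y : R, g * y = φ (toPol k r M f)}
      add_mem' := by
        rintro f g ⟨y, hy⟩ ⟨z, hz⟩
        exact ⟨y + z, by rw [mul_add, hy, hz, map_add, map_add]⟩
      zero_mem' := ⟨0, by rw [mul_zero, map_zero, map_zero]⟩
      smul_mem' := by
        rintro c f ⟨y, hy⟩
        exact ⟨algebraMap k R c * y, by
          rw [map_smul, map_smul, Algebra.smul_def, ← hy]; ring⟩ }
  have hmemW : ∀ f, f ∈ W ↔ ∃ y : R, g * y = φ (toPol k r M f) := fun f => Iff.rfl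
  have hdim := dim_lower p q hq hpq M hM W (by
    intro α β hα hβ
    rw [hmemW]
    have hdeg : (α * p + β * q).totalDegree ≤ M := by
      refine (totalDegree_add _ _).trans (max_le ?_ ?_)
      · refine (totalDegree_mul _ _).trans ?_
        omega
      · refine (totalDegree_mul _ _).trans ?_
        omega
    refine ⟨φ α * x + φ β * u, ?_⟩
    rw [toPol_coef _ hdeg, map_add, map_mul, map_mul, ← hx, ← hu]
    ring)
  have hle : finrank k W ≤ (Sx r M).card := by
    have h1 := Submodule.finrank_le W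
    rwa [Module.finrank_fintype_fun_eq_card, Fintype.card_coe] at h1
  obtain ⟨hNpos, hnum2⟩ := hnum (finrank k W) hle hdim
  set N : ℕ := finrank k W with hN
  -- echelon bases
  let κ : Type := (Sx r M) ≃ Fin (Fintype.card (Sx r M))
  have hech := fun e : κ => ech (k := k) (fun b => (e b : ℕ))
    (fun a b h => e.injective (Fin.ext h)) W
  choose τ f hτ hfli hfspan hftri using hech
  have hfW : ∀ e a, f e a ∈ W := fun e a => by
    rw [← hfspan e]
    exact Submodule.subset_span ⟨a, rfl⟩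
  choose y hy using fun e a => (hmemW _).1 (hfW e a)
  have htp : ∀ (e : κ) (c : Fin N → k), g * ∑ a, algebraMap k R (c a) * y e a =
      φ (toPol k r M (∑ a, c a • f e a)) := by
    intro e c
    rw [map_sum, map_sum, Finset.mul_sum]
    refine Finset.sum_congr rfl fun a _ => ?_
    rw [map_smul, map_smul, Algebra.smul_def, ← hy]
    ring
  have htpinj : ∀ g : (Sx r M) → k, φ (toPol k r M g) = 0 → g = 0 := by
    intro g hg
    have h1 : toPol k r M g = 0 := hinj (by rw [hg, map_zero])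
    rw [← coef_toPol g, h1, map_zero]
  have hyli : ∀ e, LinearIndependent k (y e) := by
    intro e
    rw [Fintype.linearIndependent_iff]
    intro c hc
    have h1 := htp e c
    simp only [Algebra.smul_def] at hc
    rw [hc, mul_zero] at h1
    have h2 := htpinj _ h1.symm
    exact Fintype.linearIndependent_iff.1 (hfli e) c h2
  have hyspan : ∀ e, ∀ z : R, z ∈ Submodule.span k (Set.range (y e)) ↔
      ∃ g0 ∈ W, g * z = φ (toPol k r M g0) := by
    intro e z
    constructor
    · intro hz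
      obtain ⟨c, rfl⟩ := (Submodule.mem_span_range_iff_exists_fun k).1 hz
      refine ⟨∑ a, c a • f e a, W.sum_mem fun a _ => W.smul_mem _ (hfW e a), ?_⟩
      rw [← htp]
      simp only [Algebra.smul_def]
      rfl
    · rintro ⟨g0, hgW, hg0⟩
      rw [← hfspan e] at hgW
      obtain ⟨c, rfl⟩ := (Submodule.mem_span_range_iff_exists_fun k).1 hgW
      rw [← htp] at hg0
      have h1 := mul_left_cancel₀ hg hg0
      rw [h1]
      refine Submodule.sum_mem _ fun a _ => ?_
      rw [← Algebra.smul_def]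
      exact Submodule.smul_mem _ _ (Submodule.subset_span ⟨a, rfl⟩)
  have hspan : ∀ e e', Submodule.span k (Set.range (y e)) = Submodule.span k (Set.range (y e')) := by
    intro e e'
    ext z
    rw [hyspan, hyspan]
  have hy0 : ∀ e a, y e a ≠ 0 := fun e a => (hyli e).ne_zero a
  -- the ordering at a point
  choose s hs using fun ω : D.Ω => exists_order (fun b : Sx r M => D.lg (mon w b.1 : Rˣ) ω)
  have hsmt := D.smt N κ y hyli hspan s
  -- upper bounds
  have hfne : ∀ e a, φ (toPol k r M (f e a)) ≠ 0 := by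
    intro e a h
    exact (hfli e).ne_zero a (htpinj _ h)
  have hub : ∀ e a, ∃ C : ℝ, ∀ᶠ ω in D.ev, ∀ v : ℝ,
      (∀ b, f e a b ≠ 0 → D.lg (mon w b.1 : Rˣ) ω ≤ v) →
      D.lg (φ (toPol k r M (f e a))) ω ≤ C + v := by
    intro e a
    obtain ⟨C, hC⟩ := D.lg_sum_le (f e a) (fun b : Sx r M => ((mon w b.1 : Rˣ) : R))
      (fun b => Units.ne_zero _) (by
        have h1 := hfne e a
        rw [hφ, aeval_toPol] at h1
        exact h1)
    refine ⟨C, ?_⟩
    filter_upwards [hC] with ω h v hv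
    rw [hφ, aeval_toPol]
    exact h v hv
  choose Cf hCf using hub
  set C2 : ℝ := ∑ e : κ, ∑ a, |Cf e a| with hC2
  have hmain : ∀ᶠ ω in D.ev, N * D.lg g ω ≤
      -∑ a, Real.log (D.A (y (s ω) a) ω) + C2 + ∑ b : Sx r M, D.lg (mon w b.1 : Rˣ) ω +
        (((Sx r M).card : ℝ) - N) * (M * ∑ i, |D.lg (w i : R) ω|) := by
    have g1 : ∀ᶠ ω in D.ev, ∀ e a, ∀ v : ℝ,
        (∀ b, f e a b ≠ 0 → D.lg (mon w b.1 : Rˣ) ω ≤ v) →
        D.lg (φ (toPol k r M (f e a))) ω ≤ Cf e a + v :=
      (Filter.eventually_all).2 fun e => (Filter.eventually_all).2 fun a => hCf e a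
    have g2 : ∀ᶠ ω in D.ev, ∀ e a, D.lg (φ (toPol k r M (f e a))) ω =
        D.lg g ω + D.lg (y e a) ω :=
      (Filter.eventually_all).2 fun e => (Filter.eventually_all).2 fun a => by
        rw [← hy]
        exact D.lg_mul _ _ hg (hy0 e a)
    have g3 : ∀ᶠ ω in D.ev, ∀ b : Sx r M, |D.lg (mon w b.1 : Rˣ) ω| ≤
        M * ∑ i, |D.lg (w i : R) ω| := (Filter.eventually_all).2 fun b => lg_mon_abs D w M b
    filter_upwards [g1, g2, g3] with ω k1 k2 k3
    have k4 : ∀ a, D.lg g ω + D.lg (y (s ω) a) ω ≤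
        Cf (s ω) a + D.lg (mon w (τ (s ω) a).1 : Rˣ) ω := by
      intro a
      rw [← k2]
      refine k1 _ _ _ fun b hb => ?_
      refine hs ω _ _ ?_
      by_contra hlt
      exact hb (hftri _ a b (not_le.1 hlt))
    have k5 := Finset.sum_le_sum fun a (_ : a ∈ (Finset.univ : Finset (Fin N))) => k4 a
    rw [Finset.sum_add_distrib, Finset.sum_const, Finset.card_univ, Fintype.card_fin,
      nsmul_eq_mul, Finset.sum_add_distrib] at k5
    have k6 : ∑ a, Cf (s ω) a ≤ C2 := by
      rw [hC2]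
      refine (Finset.sum_le_sum fun a _ => le_abs_self (Cf (s ω) a)).trans ?_
      exact Finset.single_le_sum (f := fun e : κ => ∑ a, |Cf e a|)
        (fun e _ => Finset.sum_nonneg fun a _ => abs_nonneg _) (Finset.mem_univ (s ω))
    have k7 : ∑ a, D.lg (mon w (τ (s ω) a).1 : Rˣ) ω ≤ ∑ b : Sx r M, D.lg (mon w b.1 : Rˣ) ω +
        (((Sx r M).card : ℝ) - N) * (M * ∑ i, |D.lg (w i : R) ω|) := by
      set I : Finset (Sx r M) := Finset.univ.image (τ (s ω)) with hI
      have e1 : ∑ a, D.lg (mon w (τ (s ω) a).1 : Rˣ) ω = ∑ b ∈ I, D.lg (mon w b.1 : Rˣ) ω := by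
        rw [hI, Finset.sum_image fun a _ b _ h => hτ (s ω) h]
      have e2 : ∑ b : Sx r M, D.lg (mon w b.1 : Rˣ) ω = ∑ b ∈ I, D.lg (mon w b.1 : Rˣ) ω +
          ∑ b ∈ Iᶜ, D.lg (mon w b.1 : Rˣ) ω := (Finset.sum_add_sum_compl I _).symm
      have e3 : -((Iᶜ.card : ℝ) * (M * ∑ i, |D.lg (w i : R) ω|)) ≤
          ∑ b ∈ Iᶜ, D.lg (mon w b.1 : Rˣ) ω := by
        rw [← nsmul_eq_mul, ← smul_neg, ← Finset.sum_const]
        exact Finset.sum_le_sum fun b _ => (abs_le.1 (k3 b)).1
      have e4 : (Iᶜ.card : ℝ) = ((Sx r M).card : ℝ) - N := by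
        have e5 : I.card = N := by
          rw [hI, Finset.card_image_of_injective _ (hτ (s ω)), Finset.card_univ, Fintype.card_fin]
        have e6 := Finset.card_compl_add_card I
        rw [e5, Fintype.card_coe] at e6
        rw [← e6]
        push_cast
        ring
      rw [e4] at e3
      rw [e1, e2]
      linarith
    have k8 : ∑ a, Real.log (D.A (y (s ω) a) ω) = ∑ a, D.lg (y (s ω) a) ω := rfl
    rw [k8]
    linarith
  -- assembling
  set K : ℝ := (((Sx r M).card : ℝ) - N) * M with hK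
  have hK0 : 0 ≤ K := by
    have h1 : (N : ℝ) ≤ (Sx r M).card := by exact_mod_cast hle
    have h2 : (0 : ℝ) ≤ M := Nat.cast_nonneg _
    exact mul_nonneg (by linarith) h2
  have hNR : (0 : ℝ) < N := by exact_mod_cast hNpos
  have h1 : D.Neg (fun ω => ((-∑ a, Real.log (D.A (y (s ω) a) ω) + C2) +
      ∑ b : Sx r M, D.lg (mon w b.1 : Rˣ) ω) +
      K * (∑ i, |D.lg (w i : R) ω| - C1 * D.one ω)) :=
    D.neg_add _ _ (D.neg_add _ _ (D.neg_add _ _ hsmt (D.neg_const C2))
      (D.neg_sum _ _ fun b _ => D.unit_neg' _)) (D.neg_smul _ K hK0 hΛ)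
  have h2 := D.neg_smul _ (1 / N) (by positivity) h1
  refine D.neg_mono _ _ ?_ h2
  filter_upwards [hmain, D.one_nonneg] with ω k1 k2
  have k3 : K * C1 * D.one ω ≤ ε * N * D.one ω := mul_le_mul_of_nonneg_right hnum2 k2
  rw [one_div, ← div_eq_inv_mul, le_div_iff₀ hNR]
  have k4 : (((Sx r M).card : ℝ) - N) * (M * ∑ i, |D.lg (w i : R) ω|) =
      K * ∑ i, |D.lg (w i : R) ω| := by rw [hK]; ring
  rw [k4] at k1
  nlinarith

end Run7.h879.SH
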