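import Mathlib
import Pool.Agent.N754.LT.Str
import Pool.Agent.Run7.h879.SH.Alg3

/-!
Rings of integral elements with units, constants and a group action: the abstract form.
-/

set_option autoImplicit false

open MvPolynomial

namespace Run7.h879.SH

/-- the abstract situation -/
structure Sys (k R G : Type) [Field k] [CommRing R] [IsDomain R] [Algebra k R] [Group G] where
  W : Subgroup Rˣ
  ρ : G → R →+* R
  ρk : G → k →+* k
  ρ_alg : ∀ σ c, ρ σ (algebraMap k R c) = algebraMap k R (ρk σ c)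
  ρ_mul : ∀ σ τ x, ρ (σ * τ) x = ρ σ (ρ τ x)
  ρ_one : ∀ x, ρ 1 x = x
  ρ_W : ∀ σ (u : Rˣ), u ∈ W → Units.map (ρ σ : R →* R) u ∈ W
  ind : ∀ (m : ℕ) (g : Fin m → Rˣ), (∀ i, g i ∈ W) →
    (∀ i j, i ≠ j → ∀ c : k, (g i : R) ≠ algebraMap k R c * g j) →
    ∀ c : Fin m → k, ∑ i, algebraMap k R (c i) * g i = 0 → c = 0
  tf : ∀ u : Rˣ, u ∈ W → ∀ n : ℕ, 0 < n → (∃ c : k, ((u ^ n : Rˣ) : R) = algebraMap k R c) →
    ∃ c : k, (u : R) = algebraMap k R c
  dv : ∀ u : Rˣ, u ∈ W → ∀ n : ℕ, 0 < n → ∃ (c : k) (v : Rˣ), v ∈ W ∧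
    (u : R) = algebraMap k R c * (v : R) ^ n
  g : R
  g_fix : ∀ σ, ρ σ g = g
  gcd : ∀ (r : ℕ) (w : Fin r → Rˣ), 1 ≤ r → (∀ i, w i ∈ W) →
    AlgebraicIndependent k (fun i => (w i : R)) → ∀ P Q : MvPolynomial (Fin r) k, Q ≠ 0 →
    IsRelPrime Q P → ∀ u v : R, g * u = aeval (fun i => (w i : R)) Q →
    g * v = aeval (fun i => (w i : R)) P → False

namespace Sys

variable {k R G : Type} [Field k] [CommRing R] [IsDomain R] [Algebra k R] [Group G]
  (S : Sys k R G)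

/-- the constants in the group of units -/
def Cs : Subgroup S.W where
  carrier := {u | ∃ c : k, ((u : Rˣ) : R) = algebraMap k R c}
  mul_mem' := by
    rintro a b ⟨c, hc⟩ ⟨d, hd⟩
    exact ⟨c * d, by rw [Subgroup.coe_mul, Units.val_mul, hc, hd, map_mul]⟩
  one_mem' := ⟨1, by rw [Subgroup.coe_one, Units.val_one, map_one]⟩
  inv_mem' := by
    rintro a ⟨c, hc⟩
    refine ⟨c⁻¹, ?_⟩
    have hc0 : c ≠ 0 := by
      rintro rfl
      rw [map_zero] at hc
      exact (a : Rˣ).ne_zero hc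
    have h1 : (algebraMap k R c) * algebraMap k R c⁻¹ = 1 := by
      rw [← map_mul, mul_inv_cancel₀ hc0, map_one]
    rw [Subgroup.coe_inv]
    calc (((a : Rˣ)⁻¹ : Rˣ) : R) = (((a : Rˣ)⁻¹ : Rˣ) : R) * ((algebraMap k R c) *
        algebraMap k R c⁻¹) := by rw [h1, mul_one]
      _ = algebraMap k R c⁻¹ := by rw [← hc, ← mul_assoc, Units.inv_mul, one_mul]

/-- units modulo constants -/
def V : Type := Additive (S.W ⧸ S.Cs)

noncomputable instance : AddCommGroup S.V := inferInstanceAs (AddCommGroup (Additive (S.W ⧸ S.Cs)))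

/-- the projection -/
def π (u : S.W) : S.V := Additive.ofMul (QuotientGroup.mk u : S.W ⧸ S.Cs)

theorem π_mul (u v : S.W) : S.π (u * v) = S.π u + S.π v := rfl

theorem π_inv (u : S.W) : S.π u⁻¹ = -S.π u := rfl

theorem π_one : S.π 1 = 0 := rfl

theorem π_pow (u : S.W) (n : ℕ) : S.π (u ^ n) = (n : ℤ) • S.π u := by
  rw [natCast_zsmul]
  rfl

theorem π_zpow (u : S.W) (n : ℤ) : S.π (u ^ n) = n • S.π u := rfl

theorem π_prod {r : ℕ} (u : Fin r → S.W) : S.π (∏ i, u i) = ∑ i, S.π (u i) := by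
  have h1 : ∀ v, S.π v = (MonoidHom.mk' (fun v => Multiplicative.ofAdd (S.π v))
      (fun a b => by rw [S.π_mul]; rfl) v : Multiplicative S.V) := fun _ => rfl
  rw [h1, map_prod]
  rfl

theorem π_zero (u : S.W) : S.π u = 0 ↔ ∃ c : k, ((u : Rˣ) : R) = algebraMap k R c := by
  have h1 : S.π u = 0 ↔ (QuotientGroup.mk u : S.W ⧸ S.Cs) = 1 := Iff.rfl
  rw [h1, QuotientGroup.eq_one_iff]
  exact Iff.rfl

theorem π_surj (v : S.V) : ∃ u, S.π u = v := by
  obtain ⟨u, hu⟩ := QuotientGroup.mk_surjective (Additive.toMul v : S.W ⧸ S.Cs)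
  exact ⟨u, congrArg Additive.ofMul hu⟩

theorem torsion (v : S.V) (n : ℤ) (hn : n ≠ 0) (h : n • v = 0) : v = 0 := by
  obtain ⟨u, rfl⟩ := S.π_surj v
  rw [π_zero]
  refine S.tf _ u.2 n.natAbs (Int.natAbs_pos.2 hn) ?_
  have h1 : S.π (u ^ n.natAbs) = 0 := by
    rw [S.π_pow]
    rcases Int.natAbs_eq n with h2 | h2
    · rw [← h2, h]
    · have h3 : ((n.natAbs : ℕ) : ℤ) = -n := by omega
      rw [h3, neg_smul, h, neg_zero]
  rw [π_zero] at h1
  obtain ⟨c, hc⟩ := h1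
  exact ⟨c, by rw [← hc, Subgroup.coe_pow]⟩

theorem divis (v : S.V) (n : ℕ) (hn : 0 < n) : ∃ w : S.V, v = (n : ℤ) • w := by
  obtain ⟨u, rfl⟩ := S.π_surj v
  obtain ⟨c, w, hw, h⟩ := S.dv u u.2 n hn
  refine ⟨S.π ⟨w, hw⟩, ?_⟩
  rw [← S.π_pow]
  rw [← sub_eq_zero, sub_eq_add_neg, ← S.π_inv, ← S.π_mul, π_zero]
  refine ⟨c, ?_⟩
  rw [Subgroup.coe_mul, Units.val_mul, h, Subgroup.coe_inv, Subgroup.coe_pow, mul_assoc,
    ← Units.val_pow_eq_pow_val, Units.mul_inv, mul_one]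

/-- equality modulo constants -/
theorem const_of (u v : S.W) (h : S.π u = S.π v) : ∃ c : k, c ≠ 0 ∧
    ((u : Rˣ) : R) = algebraMap k R c * ((v : Rˣ) : R) := by
  have h1 : S.π (u * v⁻¹) = 0 := by rw [S.π_mul, S.π_inv, h, add_neg_cancel]
  rw [π_zero] at h1
  obtain ⟨c, hc⟩ := h1
  refine ⟨c, ?_, ?_⟩
  · rintro rfl
    rw [map_zero] at hc
    exact Units.ne_zero _ hc
  · rw [← hc, Subgroup.coe_mul, Units.val_mul, Subgroup.coe_inv, mul_assoc, Units.inv_mul, mul_one]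

theorem of_const (u v : S.W) (c : k) (h : ((u : Rˣ) : R) = algebraMap k R c * ((v : Rˣ) : R)) :
    S.π u = S.π v := by
  rw [← sub_eq_zero, sub_eq_add_neg, ← S.π_inv, ← S.π_mul, π_zero]
  refine ⟨c, ?_⟩
  rw [Subgroup.coe_mul, Units.val_mul, h, Subgroup.coe_inv, mul_assoc, Units.mul_inv, mul_one]

/-- independent units are algebraically independent -/
theorem algInd {r : ℕ} (w : Fin r → S.W)
    (h : ∀ b : Fin r → ℤ, ∑ j, b j • S.π (w j) = 0 → b = 0) :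
    AlgebraicIndependent k (fun j => ((w j : Rˣ) : R)) := by
  refine Pool.Agent.N754.LT.algInd_of_units S.W S.ind (fun j => (w j : Rˣ)) (fun j => (w j).2) ?_
  rintro b ⟨c, hc⟩
  apply h
  have h1 : S.π (∏ j, w j ^ b j) = 0 := by
    rw [π_zero]
    refine ⟨c, ?_⟩
    rw [← hc]
    push_cast
    rfl
  rw [S.π_prod] at h1
  exact h1

/-- the action on the units -/
def act (σ : G) (u : S.W) : S.W := ⟨Units.map (S.ρ σ : R →* R) u, S.ρ_W σ u u.2⟩

theorem act_val (σ : G) (u : S.W) : ((S.act σ u : Rˣ) : R) = S.ρ σ ((u : Rˣ) : R) := rfl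

theorem act_mul (σ : G) (u v : S.W) : S.act σ (u * v) = S.act σ u * S.act σ v := by
  apply Subtype.ext
  apply Units.ext
  rw [act_val, Subgroup.coe_mul, Subgroup.coe_mul, Units.val_mul, Units.val_mul, map_mul]
  rfl

theorem act_zpow (σ : G) (u : S.W) (n : ℤ) : S.act σ (u ^ n) = S.act σ u ^ n := by
  have h1 : ∀ v, S.act σ v = (MonoidHom.mk' (S.act σ) (S.act_mul σ)) v := fun _ => rfl
  rw [h1, h1, map_zpow]

theorem act_act (σ τ : G) (u : S.W) : S.act (σ * τ) u = S.act σ (S.act τ u) := by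
  apply Subtype.ext
  apply Units.ext
  rw [act_val, act_val, act_val, S.ρ_mul]

theorem act_one (u : S.W) : S.act 1 u = u := by
  apply Subtype.ext
  apply Units.ext
  rw [act_val, S.ρ_one]

/-- the action preserves constants -/
theorem act_zero (σ : G) (u : S.W) (h : S.π u = 0) : S.π (S.act σ u) = 0 := by
  rw [π_zero] at h ⊢
  obtain ⟨c, hc⟩ := h
  exact ⟨S.ρk σ c, by rw [act_val, hc, S.ρ_alg]⟩

theorem act_zero_iff (σ : G) (u : S.W) : S.π (S.act σ u) = 0 ↔ S.π u = 0 := by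
  refine ⟨fun h => ?_, S.act_zero σ u⟩
  have h1 := S.act_zero σ⁻¹ _ h
  rwa [← S.act_act, inv_mul_cancel, S.act_one] at h1

end Sys

end Run7.h879.SH
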