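import Mathlib
import Pool.Agent.Run7.h879.SH.Sys

/-!
Two sums `1 + x + y`, `1 + x' + y'` with a common divisor.
-/

set_option autoImplicit false

open MvPolynomial

namespace Run7.h879.SH

namespace Sys

variable {k R G : Type} [Field k] [CharZero k] [CommRing R] [IsDomain R] [Algebra k R] [Group G]
  (S : Sys k R G)

theorem four_false (x y x' y' : S.W)
    (hind : ∀ i j l n : ℤ, i • S.π x + j • S.π y + l • S.π x' + n • S.π y' = 0 →
      i = 0 ∧ j = 0 ∧ l = 0 ∧ n = 0) (u v : R)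
    (h1 : 1 + ((x : Rˣ) : R) + ((y : Rˣ) : R) = S.g * u)
    (h2 : 1 + ((x' : Rˣ) : R) + ((y' : Rˣ) : R) = S.g * v) : False := by
  obtain ⟨w, hw⟩ : ∃ w : Fin 4 → S.W, w = ![x', x, y, y'] := ⟨_, rfl⟩
  have hai := S.algInd w (by
    intro b hb
    rw [Fin.sum_univ_four, hw] at hb
    have h3 := hind (b 1) (b 2) (b 0) (b 3) (by
      rw [← hb]
      simp only [Matrix.cons_val_zero, Matrix.cons_val_one, Matrix.cons_val]
      abel)
    funext i
    fin_cases i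
    · exact h3.2.2.1
    · exact h3.1
    · exact h3.2.1
    · exact h3.2.2.2)
  have e1 : (X 1 : MvPolynomial (Fin 4) k) = X (Fin.succ 0) := rfl
  have e2 : (X 2 : MvPolynomial (Fin 4) k) = X (Fin.succ 1) := rfl
  have e3 : (X 3 : MvPolynomial (Fin 4) k) = X (Fin.succ 2) := rfl
  have hrel : IsRelPrime (1 + X 1 + X 2 : MvPolynomial (Fin 4) k) (1 + X 0 + X 3) := by
    refine rel_of_unit _ _ (1 + X 0 + X 1) ?_ ?_ 1 ?_
    · rw [e1, e2]
      simp only [map_add, map_one, finSuccEquiv_X_succ]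
    · intro h
      have := congrArg (eval (fun _ => (0 : k))) h
      simp at this
    · rw [e3]
      simp only [map_add, map_one, finSuccEquiv_X_succ, finSuccEquiv_X_zero]
      rw [Polynomial.coeff_add, Polynomial.coeff_add, Polynomial.coeff_X_one,
        Polynomial.coeff_C_of_ne_zero one_ne_zero, Polynomial.coeff_one, if_neg one_ne_zero]
      simp
  refine S.gcd 4 (fun i => (w i : Rˣ)) (by norm_num) (fun i => (w i).2) hai (1 + X 0 + X 3)
    (1 + X 1 + X 2) ?_ hrel u v ?_ ?_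
  · intro h
    have := congrArg (eval (fun _ => (0 : k))) h
    simp at this
  · rw [← h1, hw]
    simp
  · rw [← h2, hw]
    simp

theorem three_false (x y x' y' : S.W)
    (hind : ∀ i j l : ℤ, i • S.π x + j • S.π y + l • S.π x' = 0 → i = 0 ∧ j = 0 ∧ l = 0) (u v : R)
    (h1 : 1 + ((x : Rˣ) : R) + ((y : Rˣ) : R) = S.g * u)
    (h2 : 1 + ((x' : Rˣ) : R) + ((y' : Rˣ) : R) = S.g * v) : False := by
  by_cases hdep : ∃ i j l n : ℤ, n ≠ 0 ∧ i • S.π x + j • S.π y + l • S.π x' + n • S.π y' = 0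
  swap
  · push Not at hdep
    refine S.four_false x y x' y' ?_ u v h1 h2
    intro i j l n h
    have hn : n = 0 := by
      by_contra hn
      exact hdep i j l n hn h
    rw [hn, zero_smul, add_zero] at h
    obtain ⟨h3, h4, h5⟩ := hind i j l h
    exact ⟨h3, h4, h5, hn⟩
  obtain ⟨i, j, l, n, hn, hrel⟩ := hdep
  obtain ⟨N, hN⟩ : ∃ N : ℕ, N = n.natAbs := ⟨_, rfl⟩
  have hN0 : 0 < N := by rw [hN]; exact Int.natAbs_pos.2 hn
  obtain ⟨ε, hε⟩ : ∃ ε : ℤ, n = ε * N := by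
    rcases Int.natAbs_eq n with h | h
    · exact ⟨1, by rw [hN, one_mul]; exact h⟩
    · exact ⟨-1, by rw [hN, neg_one_mul]; exact h⟩
  obtain ⟨vx, hvx⟩ := S.divis (S.π x) N hN0
  obtain ⟨vy, hvy⟩ := S.divis (S.π y) N hN0
  obtain ⟨vz, hvz⟩ := S.divis (S.π x') N hN0
  obtain ⟨X', hX⟩ := S.π_surj vx
  obtain ⟨Y', hY⟩ := S.π_surj vy
  obtain ⟨Z', hZ⟩ := S.π_surj vz
  rw [← hX] at hvx
  rw [← hY] at hvy
  rw [← hZ] at hvz
  have hε2 : ε * ε = 1 := by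
    have h3 : |n| = |ε| * N := by rw [hε, abs_mul, Nat.abs_cast]
    have h4 : |n| = N := by rw [hN, Int.abs_eq_natAbs]
    rw [h4] at h3
    have h5 : (N : ℤ) ≠ 0 := by exact_mod_cast hN0.ne'
    have h6 : |ε| = 1 := by
      have : (|ε| - 1) * (N : ℤ) = 0 := by linarith
      rcases mul_eq_zero.1 this with h7 | h7
      · linarith
      · exact absurd h7 h5
    rcases (abs_eq (zero_le_one)).1 h6 with h7 | h7 <;> rw [h7] <;> norm_num
  have hy' : S.π y' = (-(ε * i)) • S.π X' + (-(ε * j)) • S.π Y' + (-(ε * l)) • S.π Z' := by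
    have h3 : (N : ℤ) • (S.π y' - ((-(ε * i)) • S.π X' + (-(ε * j)) • S.π Y' +
        (-(ε * l)) • S.π Z')) = 0 := by
      have h4 : (N : ℤ) = ε * n := by rw [hε, ← mul_assoc, hε2, one_mul]
      have h5 : ε • (i • S.π x + j • S.π y + l • S.π x' + n • S.π y') = 0 := by rw [hrel, smul_zero]
      rw [hvx, hvy, hvz] at h5
      rw [← h5]
      have h6 : (N : ℤ) • S.π y' = ε • n • S.π y' := by rw [smul_smul, ← h4]
      rw [smul_sub, h6]
      module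
    have h4 := S.torsion _ _ (by exact_mod_cast hN0.ne') h3
    exact sub_eq_zero.1 h4
  obtain ⟨a, ha⟩ : ∃ a : ℤ, a = -(ε * i) := ⟨_, rfl⟩
  obtain ⟨b, hb⟩ : ∃ b : ℤ, b = -(ε * j) := ⟨_, rfl⟩
  obtain ⟨e, he⟩ : ∃ e : ℤ, e = -(ε * l) := ⟨_, rfl⟩
  rw [← ha, ← hb, ← he] at hy'
  obtain ⟨M, hM⟩ : ∃ M : ℕ, M = a.natAbs + b.natAbs + e.natAbs := ⟨_, rfl⟩
  obtain ⟨A, hA⟩ : ∃ A : ℕ, (A : ℤ) = M + a := ⟨(M + a).toNat, by omega⟩
  obtain ⟨B, hB⟩ : ∃ B : ℕ, (B : ℤ) = M + b := ⟨(M + b).toNat, by omega⟩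
  obtain ⟨E, hE⟩ : ∃ E : ℕ, (E : ℤ) = M + e := ⟨(M + e).toNat, by omega⟩
  obtain ⟨c1, hc1, k1⟩ := S.const_of x (X' ^ N) (by rw [S.π_pow]; exact hvx)
  obtain ⟨c2, hc2, k2⟩ := S.const_of y (Y' ^ N) (by rw [S.π_pow]; exact hvy)
  obtain ⟨c3, hc3, k3⟩ := S.const_of (Z' ^ M * X' ^ M * Y' ^ M * x') (Z' ^ (M + N) * X' ^ M * Y' ^ M)
    (by
      simp only [S.π_mul, S.π_pow, hvz]
      push_cast
      module)
  obtain ⟨c4, hc4, k4⟩ := S.const_of (Z' ^ M * X' ^ M * Y' ^ M * y') (Z' ^ E * X' ^ A * Y' ^ B)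
    (by
      simp only [S.π_mul, S.π_pow, hy', hA, hB, hE]
      module)
  obtain ⟨w, hw⟩ : ∃ w : Fin 3 → S.W, w = ![Z', X', Y'] := ⟨_, rfl⟩
  have hai := S.algInd w (by
    intro b hb
    rw [Fin.sum_univ_three, hw] at hb
    simp only [Matrix.cons_val_zero, Matrix.cons_val_one, Matrix.cons_val] at hb
    have h3 := hind (b 1) (b 2) (b 0) (by
      have h4 : (N : ℤ) • (b 0 • S.π Z' + b 1 • S.π X' + b 2 • S.π Y') = 0 := by
        rw [hb, smul_zero]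
      rw [hvx, hvy, hvz, ← h4]
      module)
    funext i
    fin_cases i
    · exact h3.2.2
    · exact h3.1
    · exact h3.2.1)
  have e1 : (X 1 : MvPolynomial (Fin 3) k) = X (Fin.succ 0) := rfl
  have e2 : (X 2 : MvPolynomial (Fin 3) k) = X (Fin.succ 1) := rfl
  obtain ⟨P, hP⟩ : ∃ P : MvPolynomial (Fin 3) k, P = 1 + C c1 * X 1 ^ N + C c2 * X 2 ^ N :=
    ⟨_, rfl⟩
  obtain ⟨P0, hP0⟩ : ∃ P0 : MvPolynomial (Fin 2) k, P0 = 1 + C c1 * X 0 ^ N + C c2 * X 1 ^ N :=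
    ⟨_, rfl⟩
  obtain ⟨Q, hQ⟩ : ∃ Q : MvPolynomial (Fin 3) k, Q = X 0 ^ M * X 1 ^ M * X 2 ^ M +
    C c3 * (X 0 ^ (M + N) * X 1 ^ M * X 2 ^ M) + C c4 * (X 0 ^ E * X 1 ^ A * X 2 ^ B) :=
    ⟨_, rfl⟩
  have hPP : finSuccEquiv k 2 P = Polynomial.C P0 := by
    rw [hP, hP0, e1, e2]
    simp only [map_add, map_one, map_mul, map_pow, finSuccEquiv_X_succ, fse_C]
  have hP0e : eval (fun _ => (0 : k)) P0 ≠ 0 := by
    rw [hP0]
    simp [zero_pow hN0.ne']
  have hP00 : P0 ≠ 0 := by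
    rintro h
    rw [h, map_zero] at hP0e
    exact hP0e rfl
  have hP0' : P ≠ 0 := by
    intro h
    rw [h, map_zero] at hPP
    exact hP00 (Polynomial.C_eq_zero.1 hPP.symm)
  have hQQ : finSuccEquiv k 2 Q = Polynomial.C (C 1 * X 0 ^ M * X 1 ^ M) * Polynomial.X ^ M +
      Polynomial.C (C c3 * X 0 ^ M * X 1 ^ M) * Polynomial.X ^ (M + N) +
      Polynomial.C (C c4 * X 0 ^ A * X 1 ^ B) * Polynomial.X ^ E := by
    rw [hQ, e1, e2]
    simp only [map_add, map_one, map_mul, map_pow, finSuccEquiv_X_succ, finSuccEquiv_X_zero, fse_C]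
    ring
  have hrelp : IsRelPrime P Q := by
    by_cases heN : e = N
    · refine rel_of_coeff P Q P0 hPP hP00 M ?_
      have h3 : (finSuccEquiv k 2 Q).coeff M = C 1 * X 0 ^ M * X 1 ^ M := by
        rw [hQQ]
        simp only [Polynomial.coeff_add, Polynomial.coeff_C_mul, Polynomial.coeff_X_pow]
        rw [if_pos trivial, if_neg (by omega), if_neg (by omega)]
        ring
      rw [h3]
      exact rel_mono P0 hP0e M M 1 one_ne_zero
    · refine rel_of_coeff P Q P0 hPP hP00 (M + N) ?_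
      have h3 : (finSuccEquiv k 2 Q).coeff (M + N) = C c3 * X 0 ^ M * X 1 ^ M := by
        rw [hQQ]
        simp only [Polynomial.coeff_add, Polynomial.coeff_C_mul, Polynomial.coeff_X_pow]
        rw [if_pos trivial, if_neg (by omega), if_neg (by omega)]
        ring
      rw [h3]
      exact rel_mono P0 hP0e M M c3 hc3
  refine S.gcd 3 (fun i => (w i : Rˣ)) (by norm_num) (fun i => (w i).2) hai Q P hP0' hrelp u
    (((Z' : Rˣ) : R) ^ M * ((X' : Rˣ) : R) ^ M * ((Y' : Rˣ) : R) ^ M * v) ?_ ?_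
  · rw [← h1, hP, hw, k1, k2]
    simp
  · have k3' := k3
    have k4' := k4
    simp only [Subgroup.coe_mul, Subgroup.coe_pow, Units.val_mul, Units.val_pow_eq_pow_val] at k3' k4'
    have h3 : S.g * (((Z' : Rˣ) : R) ^ M * ((X' : Rˣ) : R) ^ M * ((Y' : Rˣ) : R) ^ M * v) =
        ((Z' : Rˣ) : R) ^ M * ((X' : Rˣ) : R) ^ M * ((Y' : Rˣ) : R) ^ M +
        ((Z' : Rˣ) : R) ^ M * ((X' : Rˣ) : R) ^ M * ((Y' : Rˣ) : R) ^ M * ((x' : Rˣ) : R) +
        ((Z' : Rˣ) : R) ^ M * ((X' : Rˣ) : R) ^ M * ((Y' : Rˣ) : R) ^ M * ((y' : Rˣ) : R) := by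
      linear_combination (-((Z' : Rˣ) : R) ^ M * ((X' : Rˣ) : R) ^ M * ((Y' : Rˣ) : R) ^ M) * h2
    rw [h3, k3', k4', hQ, hw]
    simp

end Sys

end Run7.h879.SH
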