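import Mathlib
import Pool.Agent.Run7.h879.SH.Perm

/-!
Two sums `1 + x + y`, `1 + x' + y'` with a common divisor: the units are the same.
-/

set_option autoImplicit false

open MvPolynomial

namespace Run7.h879.SH

namespace Sys

variable {k R G : Type} [Field k] [CharZero k] [CommRing R] [IsDomain R] [Algebra k R] [Group G]
  (S : Sys k R G)

theorem mulc (u v : S.W) (α β : k) (g1 g2 : S.W)
    (hu : ((u : Rˣ) : R) = algebraMap k R α * ((g1 : Rˣ) : R))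
    (hv : ((v : Rˣ) : R) = algebraMap k R β * ((g2 : Rˣ) : R)) :
    (((u * v : S.W) : Rˣ) : R) = algebraMap k R (α * β) * (((g1 * g2 : S.W) : Rˣ) : R) := by
  rw [Subgroup.coe_mul, Units.val_mul, hu, hv, map_mul, Subgroup.coe_mul, Units.val_mul]
  ring

theorem eqc (u v : S.W) (α : k) (g1 : S.W)
    (hu : ((u : Rˣ) : R) = algebraMap k R α * ((g1 : Rˣ) : R))
    (hv : ((v : Rˣ) : R) = algebraMap k R α * ((g1 : Rˣ) : R)) : u = v := by
  apply Subtype.ext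
  apply Units.ext
  rw [hu, hv]

/-- the six possibilities -/
def Six (x y x' y' : S.W) : Prop :=
  (x' = x ∧ y' = y) ∨ (x' = y ∧ y' = x) ∨ (x' * y = x ∧ y' * y = 1) ∨ (x' * y = 1 ∧ y' * y = x) ∨
    (x' * x = y ∧ y' * x = 1) ∨ (x' * x = 1 ∧ y' * x = y)

theorem two_case (x y x' y' : S.W)
    (hind : ∀ i j : ℤ, i • S.π x + j • S.π y = 0 → i = 0 ∧ j = 0)
    (hind' : ∀ i j : ℤ, i • S.π x' + j • S.π y' = 0 → i = 0 ∧ j = 0)
    (hx' : ∃ i j l : ℤ, l ≠ 0 ∧ i • S.π x + j • S.π y + l • S.π x' = 0)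
    (hy' : ∃ i j l : ℤ, l ≠ 0 ∧ i • S.π x + j • S.π y + l • S.π y' = 0) (u v : R)
    (h1 : 1 + ((x : Rˣ) : R) + ((y : Rˣ) : R) = S.g * u)
    (h2 : 1 + ((x' : Rˣ) : R) + ((y' : Rˣ) : R) = S.g * v) : S.Six x y x' y' := by
  obtain ⟨i1, j1, l1, hl1, r1⟩ := hx'
  obtain ⟨i2, j2, l2, hl2, r2⟩ := hy'
  obtain ⟨n, hn⟩ : ∃ n : ℤ, n = l1 * l2 := ⟨_, rfl⟩
  have hn0 : n ≠ 0 := by rw [hn]; exact mul_ne_zero hl1 hl2
  obtain ⟨N, hN⟩ : ∃ N : ℕ, N = n.natAbs := ⟨_, rfl⟩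
  have hN0 : 0 < N := by rw [hN]; exact Int.natAbs_pos.2 hn0
  have hNZ : (N : ℤ) ≠ 0 := by exact_mod_cast hN0.ne'
  obtain ⟨ε, hε⟩ : ∃ ε : ℤ, (N : ℤ) = ε * n := by
    rcases Int.natAbs_eq n with h | h
    · exact ⟨1, by rw [hN, one_mul]; exact h.symm⟩
    · exact ⟨-1, by rw [hN, neg_one_mul]; omega⟩
  obtain ⟨vx, hvx⟩ := S.divis (S.π x) N hN0
  obtain ⟨vy, hvy⟩ := S.divis (S.π y) N hN0
  obtain ⟨X', hX⟩ := S.π_surj vx
  obtain ⟨Y', hY⟩ := S.π_surj vy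
  rw [← hX] at hvx
  rw [← hY] at hvy
  obtain ⟨a, ha⟩ : ∃ a : ℤ, a = -(ε * l2 * i1) := ⟨_, rfl⟩
  obtain ⟨b, hb⟩ : ∃ b : ℤ, b = -(ε * l2 * j1) := ⟨_, rfl⟩
  obtain ⟨c, hc⟩ : ∃ c : ℤ, c = -(ε * l1 * i2) := ⟨_, rfl⟩
  obtain ⟨d, hd⟩ : ∃ d : ℤ, d = -(ε * l1 * j2) := ⟨_, rfl⟩
  have hxx : S.π x' = a • S.π X' + b • S.π Y' := by
    have h3 : l1 • (S.π x' - (a • S.π X' + b • S.π Y')) = 0 := by
      have h5 : i1 • S.π x + j1 • S.π y + l1 • S.π x' = 0 := r1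
      rw [hvx, hvy] at h5
      rw [← h5, ha, hb]
      have h6 : (N : ℤ) = ε * l2 * l1 := by rw [hε, hn]; ring
      rw [h6]
      module
    exact sub_eq_zero.1 (S.torsion _ _ hl1 h3)
  have hyy : S.π y' = c • S.π X' + d • S.π Y' := by
    have h3 : l2 • (S.π y' - (c • S.π X' + d • S.π Y')) = 0 := by
      have h5 : i2 • S.π x + j2 • S.π y + l2 • S.π y' = 0 := r2
      rw [hvx, hvy] at h5
      rw [← h5, hc, hd]
      have h6 : (N : ℤ) = ε * l1 * l2 := by rw [hε, hn]; ring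
      rw [h6]
      module
    exact sub_eq_zero.1 (S.torsion _ _ hl2 h3)
  have hdet : a * d - b * c ≠ 0 := by
    intro h0
    have e1 := hind' d (-b) (by
      rw [hxx, hyy]
      have e2 : d • (a • S.π X' + b • S.π Y') + (-b) • (c • S.π X' + d • S.π Y') =
          (a * d - b * c) • S.π X' := by module
      rw [e2, h0, zero_smul])
    have e2 := hind' c (-a) (by
      rw [hxx, hyy]
      have e2 : c • (a • S.π X' + b • S.π Y') + (-a) • (c • S.π X' + d • S.π Y') =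
          (-(a * d - b * c)) • S.π Y' := by module
      rw [e2, h0, neg_zero, zero_smul])
    have e3 : a = 0 := by omega
    have e4 : b = 0 := by omega
    have e5 := hind' 1 0 (by
      rw [hxx, e3, e4]
      simp)
    omega
  obtain ⟨M, hM⟩ : ∃ M : ℕ, M = a.natAbs + b.natAbs + c.natAbs + d.natAbs := ⟨_, rfl⟩
  obtain ⟨e1, he1⟩ : ∃ A : ℕ, (A : ℤ) = M + a := ⟨(M + a).toNat, by omega⟩
  obtain ⟨f1, hf1⟩ : ∃ B : ℕ, (B : ℤ) = M + b := ⟨(M + b).toNat, by omega⟩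
  obtain ⟨e2, he2⟩ : ∃ A : ℕ, (A : ℤ) = M + c := ⟨(M + c).toNat, by omega⟩
  obtain ⟨f2, hf2⟩ : ∃ B : ℕ, (B : ℤ) = M + d := ⟨(M + d).toNat, by omega⟩
  obtain ⟨c1, hc1, k1⟩ := S.const_of x (X' ^ N) (by rw [S.π_pow]; exact hvx)
  obtain ⟨c2, hc2, k2⟩ := S.const_of y (Y' ^ N) (by rw [S.π_pow]; exact hvy)
  obtain ⟨c3, hc3, k3⟩ := S.const_of x' (X' ^ a * Y' ^ b)
    (by rw [S.π_mul, S.π_zpow, S.π_zpow]; exact hxx)
  obtain ⟨c4, hc4, k4⟩ := S.const_of y' (X' ^ c * Y' ^ d)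
    (by rw [S.π_mul, S.π_zpow, S.π_zpow]; exact hyy)
  have hgr : ∀ (A B : ℕ) (a b : ℤ), (A : ℤ) = M + a → (B : ℤ) = M + b →
      X' ^ M * Y' ^ M * (X' ^ a * Y' ^ b) = X' ^ A * Y' ^ B := by
    intro A B a b hA hB
    rw [← zpow_natCast X' A, ← zpow_natCast Y' B, hA, hB, zpow_add, zpow_add, zpow_natCast,
      zpow_natCast]
    exact mul_mul_mul_comm _ _ _ _
  have k3' : ((X' : Rˣ) : R) ^ M * ((Y' : Rˣ) : R) ^ M * ((x' : Rˣ) : R) =
      algebraMap k R c3 * (((X' : Rˣ) : R) ^ e1 * ((Y' : Rˣ) : R) ^ f1) := by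
    have h3 := congrArg (fun z : S.W => ((z : Rˣ) : R)) (hgr e1 f1 a b he1 hf1)
    have h4 : (((X' ^ M * Y' ^ M * (X' ^ a * Y' ^ b) : S.W) : Rˣ) : R) =
        ((X' : Rˣ) : R) ^ M * ((Y' : Rˣ) : R) ^ M * (((X' ^ a * Y' ^ b : S.W) : Rˣ) : R) := by
      simp only [Subgroup.coe_mul, Subgroup.coe_pow, Units.val_mul, Units.val_pow_eq_pow_val]
    have h5 : (((X' ^ e1 * Y' ^ f1 : S.W) : Rˣ) : R) =
        ((X' : Rˣ) : R) ^ e1 * ((Y' : Rˣ) : R) ^ f1 := by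
      simp only [Subgroup.coe_mul, Subgroup.coe_pow, Units.val_mul, Units.val_pow_eq_pow_val]
    rw [← h5, ← h3, h4, k3]
    ring
  have k4' : ((X' : Rˣ) : R) ^ M * ((Y' : Rˣ) : R) ^ M * ((y' : Rˣ) : R) =
      algebraMap k R c4 * (((X' : Rˣ) : R) ^ e2 * ((Y' : Rˣ) : R) ^ f2) := by
    have h3 := congrArg (fun z : S.W => ((z : Rˣ) : R)) (hgr e2 f2 c d he2 hf2)
    have h4 : (((X' ^ M * Y' ^ M * (X' ^ c * Y' ^ d) : S.W) : Rˣ) : R) =
        ((X' : Rˣ) : R) ^ M * ((Y' : Rˣ) : R) ^ M * (((X' ^ c * Y' ^ d : S.W) : Rˣ) : R) := by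
      simp only [Subgroup.coe_mul, Subgroup.coe_pow, Units.val_mul, Units.val_pow_eq_pow_val]
    have h5 : (((X' ^ e2 * Y' ^ f2 : S.W) : Rˣ) : R) =
        ((X' : Rˣ) : R) ^ e2 * ((Y' : Rˣ) : R) ^ f2 := by
      simp only [Subgroup.coe_mul, Subgroup.coe_pow, Units.val_mul, Units.val_pow_eq_pow_val]
    rw [← h5, ← h3, h4, k4]
    ring
  obtain ⟨w, hw⟩ : ∃ w : Fin 2 → S.W, w = ![X', Y'] := ⟨_, rfl⟩
  have hai := S.algInd w (by
    intro b hb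
    rw [Fin.sum_univ_two, hw] at hb
    simp only [Matrix.cons_val_zero, Matrix.cons_val_one] at hb
    have h3 := hind (b 0) (b 1) (by
      have h4 : (N : ℤ) • (b 0 • S.π X' + b 1 • S.π Y') = 0 := by
        rw [hb, smul_zero]
      rw [hvx, hvy, ← h4]
      module)
    funext i
    fin_cases i
    · exact h3.1
    · exact h3.2)
  have hnot : ¬ IsRelPrime (1 + C c1 * X 0 ^ N + C c2 * X 1 ^ N : MvPolynomial (Fin 2) k)
      (X 0 ^ M * X 1 ^ M + C c3 * (X 0 ^ e1 * X 1 ^ f1) + C c4 * (X 0 ^ e2 * X 1 ^ f2)) := by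
    intro hrelp
    refine S.gcd 2 (fun i => (w i : Rˣ)) (by norm_num) (fun i => (w i).2) hai _ _ ?_ hrelp u
      (((X' : Rˣ) : R) ^ M * ((Y' : Rˣ) : R) ^ M * v) ?_ ?_
    · intro h
      have := congrArg (eval (fun _ => (0 : k))) h
      simp [zero_pow hN0.ne'] at this
    · rw [← h1, hw, k1, k2]
      simp
    · have h3 : S.g * (((X' : Rˣ) : R) ^ M * ((Y' : Rˣ) : R) ^ M * v) =
          ((X' : Rˣ) : R) ^ M * ((Y' : Rˣ) : R) ^ M +
          ((X' : Rˣ) : R) ^ M * ((Y' : Rˣ) : R) ^ M * ((x' : Rˣ) : R) +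
          ((X' : Rˣ) : R) ^ M * ((Y' : Rˣ) : R) ^ M * ((y' : Rˣ) : R) := by
        linear_combination (-((X' : Rˣ) : R) ^ M * ((Y' : Rˣ) : R) ^ M) * h2
      rw [h3, k3', k4', hw]
      simp
  have hmain := tri N hN0 c1 c2 c3 c4 hc1 hc2 hc3 hc4 M e1 e2 M f1 f2 a b c d (by omega) (by omega)
    (by omega) (by omega) hdet hnot
  rcases hmain with ⟨g1, g2, g3, g4, g5, g6⟩ | ⟨g1, g2, g3, g4, g5, g6⟩ |
    ⟨g1, g2, g3, g4, g5, g6⟩ | ⟨g1, g2, g3, g4, g5, g6⟩ | ⟨g1, g2, g3, g4, g5, g6⟩ |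
    ⟨g1, g2, g3, g4, g5, g6⟩ <;> rw [g1, g2] at k3 <;> rw [g3, g4] at k4 <;>
    simp only [zpow_neg, zpow_natCast, zpow_zero, mul_one, one_mul] at k3 k4
  · refine Or.inl ⟨?_, ?_⟩
    · rw [g5] at k3
      exact S.eqc _ _ _ _ k3 k1
    · rw [g6] at k4
      exact S.eqc _ _ _ _ k4 k2
  · refine Or.inr (Or.inl ⟨?_, ?_⟩)
    · rw [g5] at k3
      exact S.eqc _ _ _ _ k3 k2
    · rw [g6] at k4
      exact S.eqc _ _ _ _ k4 k1
  · refine Or.inr (Or.inr (Or.inl ⟨?_, ?_⟩))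
    · have h3 := S.mulc _ _ _ _ _ _ k3 k2
      rw [g5, inv_mul_cancel_right] at h3
      exact S.eqc _ _ _ _ h3 k1
    · have h3 := S.mulc _ _ _ _ _ _ k4 k2
      rw [g6, inv_mul_cancel] at h3
      exact S.eqc _ _ 1 1 h3 (by simp)
  · refine Or.inr (Or.inr (Or.inr (Or.inl ⟨?_, ?_⟩)))
    · have h3 := S.mulc _ _ _ _ _ _ k3 k2
      rw [g5, inv_mul_cancel] at h3
      exact S.eqc _ _ 1 1 h3 (by simp)
    · have h3 := S.mulc _ _ _ _ _ _ k4 k2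
      rw [g6, inv_mul_cancel_right] at h3
      exact S.eqc _ _ _ _ h3 k1
  · refine Or.inr (Or.inr (Or.inr (Or.inr (Or.inl ⟨?_, ?_⟩))))
    · have h3 := S.mulc _ _ _ _ _ _ k3 k1
      rw [g5, mul_comm ((X' ^ N)⁻¹), mul_assoc, inv_mul_cancel, mul_one] at h3
      exact S.eqc _ _ _ _ h3 k2
    · have h3 := S.mulc _ _ _ _ _ _ k4 k1
      rw [g6, inv_mul_cancel] at h3
      exact S.eqc _ _ 1 1 h3 (by simp)
  · refine Or.inr (Or.inr (Or.inr (Or.inr (Or.inr ⟨?_, ?_⟩))))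
    · have h3 := S.mulc _ _ _ _ _ _ k3 k1
      rw [g5, inv_mul_cancel] at h3
      exact S.eqc _ _ 1 1 h3 (by simp)
    · have h3 := S.mulc _ _ _ _ _ _ k4 k1
      rw [g6, mul_comm ((X' ^ N)⁻¹), mul_assoc, inv_mul_cancel, mul_one] at h3
      exact S.eqc _ _ _ _ h3 k2

theorem six (x y x' y' : S.W)
    (hind : ∀ i j : ℤ, i • S.π x + j • S.π y = 0 → i = 0 ∧ j = 0)
    (hind' : ∀ i j : ℤ, i • S.π x' + j • S.π y' = 0 → i = 0 ∧ j = 0) (u v : R)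
    (h1 : 1 + ((x : Rˣ) : R) + ((y : Rˣ) : R) = S.g * u)
    (h2 : 1 + ((x' : Rˣ) : R) + ((y' : Rˣ) : R) = S.g * v) : S.Six x y x' y' := by
  by_cases hx' : ∃ i j l : ℤ, l ≠ 0 ∧ i • S.π x + j • S.π y + l • S.π x' = 0
  · by_cases hy' : ∃ i j l : ℤ, l ≠ 0 ∧ i • S.π x + j • S.π y + l • S.π y' = 0
    · exact S.two_case x y x' y' hind hind' hx' hy' u v h1 h2
    · exfalso
      push Not at hy'
      refine S.three_false x y y' x' ?_ u v h1 (by rw [← h2]; ring)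
      intro i j l h
      have hl : l = 0 := by
        by_contra hl
        exact hy' i j l hl h
      rw [hl, zero_smul, add_zero] at h
      exact ⟨(hind i j h).1, (hind i j h).2, hl⟩
  · exfalso
    push Not at hx'
    refine S.three_false x y x' y' ?_ u v h1 h2
    intro i j l h
    have hl : l = 0 := by
      by_contra hl
      exact hx' i j l hl h
    rw [hl, zero_smul, add_zero] at h
    exact ⟨(hind i j h).1, (hind i j h).2, hl⟩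

/-- the Galois conjugates of the units in the case of rank two -/
theorem six_act (x y : S.W)
    (hind : ∀ i j : ℤ, i • S.π x + j • S.π y = 0 → i = 0 ∧ j = 0) (u : R)
    (h1 : 1 + ((x : Rˣ) : R) + ((y : Rˣ) : R) = S.g * u) (σ : G) :
    S.Six x y (S.act σ x) (S.act σ y) := by
  refine S.six x y _ _ hind ?_ u (S.ρ σ u) h1 ?_
  · intro i j h
    have h2 : S.π (S.act σ (x ^ i * y ^ j)) = 0 := by
      rw [S.act_mul, S.act_zpow, S.act_zpow, S.π_mul, S.π_zpow, S.π_zpow]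
      exact h
    rw [S.act_zero_iff, S.π_mul, S.π_zpow, S.π_zpow] at h2
    exact hind i j h2
  · have h2 := congrArg (S.ρ σ) h1
    rw [map_add, map_add, map_one, map_mul, S.g_fix] at h2
    exact h2

end Sys

end Run7.h879.SH
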