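import Mathlib
import Pool.Agent.Run7.h879.SH.Perm2

/-!
The case of rank one.
-/

set_option autoImplicit false
set_option linter.unusedSectionVars false

open MvPolynomial

namespace Run7.h879.SH

namespace Sys

variable {k R G : Type} [Field k] [CharZero k] [CommRing R] [IsDomain R] [Algebra k R] [Group G]
  (S : Sys k R G)

/-- polynomials in different variables -/
theorem disj_false (t s x y x' y' : S.W) (m n : ℤ) (hmn : m ≠ 0 ∨ n ≠ 0)
    (hind : ∀ i j : ℤ, i • S.π t + j • S.π s = 0 → i = 0 ∧ j = 0)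
    (hx : S.π x = m • S.π t) (hy : S.π y = n • S.π t)
    (hx' : S.π x' = m • S.π s) (hy' : S.π y' = n • S.π s) (u v : R)
    (h1 : 1 + ((x : Rˣ) : R) + ((y : Rˣ) : R) = S.g * u)
    (h2 : 1 + ((x' : Rˣ) : R) + ((y' : Rˣ) : R) = S.g * v) (hu : S.g * u ≠ 0) : False := by
  obtain ⟨M, hM⟩ : ∃ M : ℕ, M = m.natAbs + n.natAbs := ⟨_, rfl⟩
  obtain ⟨A, hA⟩ : ∃ A : ℕ, (A : ℤ) = M + m := ⟨(M + m).toNat, by omega⟩
  obtain ⟨B, hB⟩ : ∃ B : ℕ, (B : ℤ) = M + n := ⟨(M + n).toNat, by omega⟩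
  obtain ⟨c1, hc1, k1⟩ := S.const_of (t ^ M * x) (t ^ A)
    (by simp only [S.π_mul, S.π_pow, hA, hx]; module)
  obtain ⟨c2, hc2, k2⟩ := S.const_of (t ^ M * y) (t ^ B)
    (by simp only [S.π_mul, S.π_pow, hB, hy]; module)
  obtain ⟨c3, hc3, k3⟩ := S.const_of (s ^ M * x') (s ^ A)
    (by simp only [S.π_mul, S.π_pow, hA, hx']; module)
  obtain ⟨c4, hc4, k4⟩ := S.const_of (s ^ M * y') (s ^ B)
    (by simp only [S.π_mul, S.π_pow, hB, hy']; module)
  simp only [Subgroup.coe_mul, Subgroup.coe_pow, Units.val_mul, Units.val_pow_eq_pow_val]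
    at k1 k2 k3 k4
  obtain ⟨w, hw⟩ : ∃ w : Fin 2 → S.W, w = ![s, t] := ⟨_, rfl⟩
  have hai := S.algInd w (by
    intro b hb
    rw [Fin.sum_univ_two, hw] at hb
    simp only [Matrix.cons_val_zero, Matrix.cons_val_one] at hb
    have h3 := hind (b 1) (b 0) (by rw [← hb]; abel)
    funext i
    fin_cases i
    · exact h3.2
    · exact h3.1)
  have e1 : (X 1 : MvPolynomial (Fin 2) k) = X (Fin.succ 0) := rfl
  obtain ⟨P, hP⟩ : ∃ P : MvPolynomial (Fin 2) k, P = X 1 ^ M + C c1 * X 1 ^ A + C c2 * X 1 ^ B :=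
    ⟨_, rfl⟩
  obtain ⟨P0, hP0⟩ : ∃ P0 : MvPolynomial (Fin 1) k, P0 = X 0 ^ M + C c1 * X 0 ^ A + C c2 * X 0 ^ B :=
    ⟨_, rfl⟩
  obtain ⟨Q, hQ⟩ : ∃ Q : MvPolynomial (Fin 2) k, Q = X 0 ^ M + C c3 * X 0 ^ A + C c4 * X 0 ^ B :=
    ⟨_, rfl⟩
  have hPP : finSuccEquiv k 1 P = Polynomial.C P0 := by
    rw [hP, hP0, e1]
    simp only [map_add, map_mul, map_pow, finSuccEquiv_X_succ, fse_C]
  have haP : S.g * (((t : Rˣ) : R) ^ M * u) = aeval (fun i => (((w i : S.W) : Rˣ) : R)) P := by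
    have h3 : S.g * (((t : Rˣ) : R) ^ M * u) = ((t : Rˣ) : R) ^ M +
        ((t : Rˣ) : R) ^ M * ((x : Rˣ) : R) + ((t : Rˣ) : R) ^ M * ((y : Rˣ) : R) := by
      linear_combination (-((t : Rˣ) : R) ^ M) * h1
    rw [h3, k1, k2, hP, hw]
    simp
  have haQ : S.g * (((s : Rˣ) : R) ^ M * v) = aeval (fun i => (((w i : S.W) : Rˣ) : R)) Q := by
    have h3 : S.g * (((s : Rˣ) : R) ^ M * v) = ((s : Rˣ) : R) ^ M +
        ((s : Rˣ) : R) ^ M * ((x' : Rˣ) : R) + ((s : Rˣ) : R) ^ M * ((y' : Rˣ) : R) := by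
      linear_combination (-((s : Rˣ) : R) ^ M) * h2
    rw [h3, k3, k4, hQ, hw]
    simp
  have hPne : P ≠ 0 := by
    intro h
    rw [h, map_zero] at haP
    apply hu
    have h3 : ((t : Rˣ) : R) ^ M * (S.g * u) = 0 := by rw [← haP]; ring
    exact (mul_eq_zero.1 h3).resolve_left (pow_ne_zero _ (Units.ne_zero _))
  have hP00 : P0 ≠ 0 := by
    intro h
    apply hPne
    apply (finSuccEquiv k 1).injective
    rw [hPP, h, map_zero, map_zero]
  have hQQ : finSuccEquiv k 1 Q = Polynomial.C (C 1) * Polynomial.X ^ M +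
      Polynomial.C (C c3) * Polynomial.X ^ A + Polynomial.C (C c4) * Polynomial.X ^ B := by
    rw [hQ]
    simp only [map_add, map_mul, map_pow, finSuccEquiv_X_zero, fse_C, map_one, one_mul]
  have hCu : ∀ c : k, c ≠ 0 → IsUnit (C c : MvPolynomial (Fin 1) k) := fun c hc =>
    (isUnit_iff_ne_zero.2 hc).map C
  have hrelp : IsRelPrime P Q := by
    by_cases hm : m = 0
    · have hn : n ≠ 0 := by
        rcases hmn with h | h
        · exact absurd hm h
        · exact h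
      refine rel_of_unit P Q P0 hPP hP00 B ?_
      have h3 : (finSuccEquiv k 1 Q).coeff B = C c4 := by
        rw [hQQ]
        simp only [Polynomial.coeff_add, Polynomial.coeff_C_mul, Polynomial.coeff_X_pow]
        rw [if_pos trivial, if_neg (by omega), if_neg (by omega)]
        ring
      rw [h3]
      exact hCu _ hc4
    · by_cases hmn' : m = n
      · refine rel_of_unit P Q P0 hPP hP00 M ?_
        have h3 : (finSuccEquiv k 1 Q).coeff M = C 1 := by
          rw [hQQ]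
          simp only [Polynomial.coeff_add, Polynomial.coeff_C_mul, Polynomial.coeff_X_pow]
          rw [if_pos trivial, if_neg (by omega), if_neg (by omega)]
          ring
        rw [h3]
        exact hCu _ one_ne_zero
      · refine rel_of_unit P Q P0 hPP hP00 A ?_
        have h3 : (finSuccEquiv k 1 Q).coeff A = C c3 := by
          rw [hQQ]
          simp only [Polynomial.coeff_add, Polynomial.coeff_C_mul, Polynomial.coeff_X_pow]
          rw [if_pos trivial, if_neg (by omega), if_neg (by omega)]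
          ring
        rw [h3]
        exact hCu _ hc3
  exact S.gcd 2 (fun i => (w i : Rˣ)) (by norm_num) (fun i => (w i).2) hai Q P hPne hrelp _ _
    haP haQ

theorem π_act_of (σ : G) (u : S.W) (t : S.W) (m : ℤ) (h : S.π u = m • S.π t) :
    S.π (S.act σ u) = m • S.π (S.act σ t) := by
  have h1 : S.π (u * (t ^ m)⁻¹) = 0 := by
    rw [S.π_mul, S.π_inv, S.π_zpow, h, add_neg_cancel]
  have h2 := S.act_zero σ _ h1
  rw [S.act_mul, S.π_mul] at h2
  have h3 : S.act σ (t ^ m)⁻¹ = (S.act σ t ^ m)⁻¹ := by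
    have h4 : S.act σ (t ^ m)⁻¹ = S.act σ (t ^ (-m)) := by rw [zpow_neg]
    rw [h4, S.act_zpow, zpow_neg]
  rw [h3, S.π_inv, S.π_zpow] at h2
  exact eq_of_sub_eq_zero (by rw [sub_eq_add_neg]; exact h2)

/-- dependent conjugates are equal up to inversion -/
theorem sign_of_dep [Finite G] (t : S.W) (ht : S.π t ≠ 0) (σ : G) (i j : ℤ) (hij : ¬ (i = 0 ∧ j = 0))
    (h : i • S.π t + j • S.π (S.act σ t) = 0) :
    S.π (S.act σ t) = S.π t ∨ S.π (S.act σ t) = -S.π t := by
  have ht' : S.π (S.act σ t) ≠ 0 := fun h0 => ht ((S.act_zero_iff σ t).1 h0)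
  have hj : j ≠ 0 := by
    intro h0
    rw [h0, zero_smul, add_zero] at h
    have hi : i ≠ 0 := fun hi => hij ⟨hi, h0⟩
    exact ht (S.torsion _ _ hi h)
  have hrel : j • S.π (S.act σ t) = (-i) • S.π t := by
    rw [neg_smul]
    exact eq_neg_of_add_eq_zero_right h
  have key : ∀ l : ℕ, j ^ l • S.π (S.act (σ ^ l) t) = (-i) ^ l • S.π t := by
    intro l
    induction l with
    | zero => simp [S.act_one]
    | succ l ih =>
      have h1 : S.π (S.act (σ ^ l) t ^ (j ^ l)) = (-i) ^ l • S.π t := by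
        rw [S.π_zpow]
        exact ih
      have h2 := S.π_act_of σ _ t _ h1
      rw [S.act_zpow, S.π_zpow, ← S.act_act, ← pow_succ'] at h2
      rw [pow_succ j, mul_comm (j ^ l) j, mul_smul, h2, smul_comm, hrel, smul_smul, pow_succ]
  obtain ⟨n, hn, hσ⟩ : ∃ n : ℕ, 0 < n ∧ σ ^ n = 1 := ⟨orderOf σ, orderOf_pos σ, pow_orderOf_eq_one σ⟩
  have h1 := key n
  rw [hσ, S.act_one] at h1
  have h2 : (j ^ n - (-i) ^ n) • S.π t = 0 := by rw [sub_smul, h1, sub_self]
  have h3 : j ^ n = (-i) ^ n := by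
    by_contra hne
    exact ht (S.torsion _ _ (sub_ne_zero.2 hne) h2)
  have h4 : j.natAbs = (-i).natAbs := by
    have h5 := congrArg Int.natAbs h3
    rw [Int.natAbs_pow, Int.natAbs_pow] at h5
    exact Nat.pow_left_injective hn.ne' h5
  rcases Int.natAbs_eq_natAbs_iff.1 h4 with h5 | h5
  · left
    rw [← h5] at hrel
    have h6 : j • (S.π (S.act σ t) - S.π t) = 0 := by rw [smul_sub, hrel, sub_self]
    exact sub_eq_zero.1 (S.torsion _ _ hj h6)
  · right
    have h7 : -i = -j := by omega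
    rw [h7] at hrel
    have h6 : j • (S.π (S.act σ t) + S.π t) = 0 := by
      rw [smul_add, hrel, neg_smul, neg_add_cancel]
    exact eq_neg_of_add_eq_zero_left (S.torsion _ _ hj h6)

theorem one_act [Finite G] (x y t : S.W) (ht : S.π t ≠ 0) (m n : ℤ) (hmn : m ≠ 0 ∨ n ≠ 0)
    (hx : S.π x = m • S.π t) (hy : S.π y = n • S.π t) (u : R)
    (h1 : 1 + ((x : Rˣ) : R) + ((y : Rˣ) : R) = S.g * u) (hu : S.g * u ≠ 0) (σ : G) :
    S.π (S.act σ t) = S.π t ∨ S.π (S.act σ t) = -S.π t := by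
  by_cases hdep : ∃ i j : ℤ, ¬ (i = 0 ∧ j = 0) ∧ i • S.π t + j • S.π (S.act σ t) = 0
  · obtain ⟨i, j, hij, h⟩ := hdep
    exact S.sign_of_dep t ht σ i j hij h
  · exfalso
    push Not at hdep
    refine S.disj_false t (S.act σ t) x y (S.act σ x) (S.act σ y) m n hmn ?_ hx hy
      (S.π_act_of σ x t m hx) (S.π_act_of σ y t n hy) u (S.ρ σ u) h1 ?_ hu
    · intro i j h
      by_contra hij
      exact hdep i j (by tauto) h
    · have h2 := congrArg (S.ρ σ) h1
      rw [map_add, map_add, map_one, map_mul, S.g_fix] at h2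
      exact h2

end Sys

end Run7.h879.SH
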