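import Mathlib
import Pool.Agent.N754.LT.Ari
import Pool.Agent.Run7.h879.SH.Gcd
import Pool.Agent.Run7.h879.SH.One

/-!
The arithmetic instance.
-/

set_option autoImplicit false
set_option linter.unusedSectionVars false

open MvPolynomial Filter

namespace Run7.h879.SH

open NumberField IsDedekindDomain
open Pool.Agent.Y742.SF Pool.Agent.Y742.AR Pool.Agent.N754.LT
open Pool.Agent.TH286.GT.GrowD (sg sg_coe sg_inj)

variable {M : Type} [Field M] [NumberField M] [IsGalois ℚ M]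

/-- place data without finite places -/
theorem exists_PD0 (hi : ∃ z : M, z ^ 2 = -1) : ∃ D : PD M, D.s = 0 := by
  obtain ⟨D', -⟩ := exists_PD hi ∅ Set.finite_empty
  exact ⟨{ ψ := D'.ψ, cj := D'.cj, hcj := D'.hcj, iK := D'.iK, hi := D'.hi, s := 0
           P := fun v => v.elim0, hP := fun a => a.elim0, π := fun _ => 1
           hπ := fun _ v => v.elim0, h := 1, hh := one_pos, U := fun v => v.elim0
           hU := fun v => v.elim0 }, rfl⟩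

variable {D : PD M} (hs : D.s = 0)

include hs in
theorem tint_iff (x : M) : D.TInt x ↔ ∃ y : 𝓞 M, (y : M) = x := by
  constructor
  · intro h
    exact mem_int x fun v => h v fun w => absurd w.2 (by omega)
  · rintro ⟨y, rfl⟩
    exact D.TInt_int y

variable {𝒰 : Ultrafilter ℕ}

/-- the action on germs -/
noncomputable def gact (𝒰 : Ultrafilter ℕ) (σ : M ≃ₐ[ℚ] M) : GK M 𝒰 →+* GK M 𝒰 where
  toFun := Germ.map σ
  map_one' := congrArg (fun f : ℕ → M => (f : GK M 𝒰)) (funext fun _ => map_one σ)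
  map_zero' := congrArg (fun f : ℕ → M => (f : GK M 𝒰)) (funext fun _ => map_zero σ)
  map_mul' x y := by
    induction x using Germ.inductionOn with
    | _ f =>
      induction y using Germ.inductionOn with
      | _ g => exact congrArg (fun f : ℕ → M => (f : GK M 𝒰)) (funext fun t => map_mul σ _ _)
  map_add' x y := by
    induction x using Germ.inductionOn with
    | _ f =>
      induction y using Germ.inductionOn with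
      | _ g => exact congrArg (fun f : ℕ → M => (f : GK M 𝒰)) (funext fun t => map_add σ _ _)

theorem gact_gm (σ : M ≃ₐ[ℚ] M) (f : ℕ → M) : gact 𝒰 σ (gm 𝒰 f) = gm 𝒰 fun t => σ (f t) := rfl

variable {N : ℕ → ℝ} {hN : ∀ t, 1 ≤ N t}

include hs in
theorem gact_mem (σ : M ≃ₐ[ℚ] M) : ∀ x ∈ R0 D 𝒰 N hN, gact 𝒰 σ x ∈ R0 D 𝒰 N hN := by
  rintro _ ⟨f, rfl, ⟨c, hc, h1⟩, ⟨C, hC, h2⟩⟩
  refine ⟨fun t => σ (f t), gact_gm σ f, ⟨sg σ c, ?_, ?_⟩, C, hC, ?_⟩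
  · intro h
    exact hc (sg_inj σ (by rw [h, map_zero]))
  · filter_upwards [h1] with t ht
    rw [tint_iff hs] at ht ⊢
    obtain ⟨y, hy⟩ := ht
    exact ⟨sg σ y, by rw [sg_coe, sg_coe, hy, map_mul]⟩
  · filter_upwards [h2] with t ht v
    rcases v with τ | w
    · have h3 := ht (Sum.inl (τ * σ))
      exact h3
    · exact absurd w.2 (by omega)

/-- elements of the ring from sequences -/
noncomputable def mk' (f : ℕ → M) (h1 : TI D 𝒰 f) (h2 : Bd D N 𝒰 f) : RA D 𝒰 N hN :=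
  (⟨gm 𝒰 f, ⟨f, rfl, h1, h2⟩⟩ : R0 D 𝒰 N hN)

theorem vl_mk' (f : ℕ → M) (h1 : TI D 𝒰 f) (h2 : Bd D N 𝒰 f) :
    vl D 𝒰 N hN (mk' f h1 h2) = gm 𝒰 f := rfl

theorem exists_seq (x : RA D 𝒰 N hN) : ∃ f : ℕ → M, vl D 𝒰 N hN x = gm 𝒰 f ∧ TI D 𝒰 f ∧
    Bd D N 𝒰 f := vl_mem x

/-- the action on the ring -/
noncomputable def ract (σ : M ≃ₐ[ℚ] M) : RA D 𝒰 N hN →+* RA D 𝒰 N hN :=
  ((gact 𝒰 σ).restrict (R0 D 𝒰 N hN) (R0 D 𝒰 N hN) (gact_mem hs σ) :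
    R0 D 𝒰 N hN →+* R0 D 𝒰 N hN)

theorem vl_ract (σ : M ≃ₐ[ℚ] M) (x : RA D 𝒰 N hN) :
    vl D 𝒰 N hN (ract hs σ x) = gact 𝒰 σ (vl D 𝒰 N hN x) := rfl

/-- germs of units -/
def Hon (𝒰 : Ultrafilter ℕ) (x : GK M 𝒰) : Prop :=
  ∃ f : ℕ → (𝓞 M)ˣ, x = gm 𝒰 fun t => ((f t : 𝓞 M) : M)

theorem Hon.mul {x y : GK M 𝒰} (hx : Hon 𝒰 x) (hy : Hon 𝒰 y) : Hon 𝒰 (x * y) := by
  obtain ⟨f, rfl⟩ := hx
  obtain ⟨g, rfl⟩ := hy
  refine ⟨fun t => f t * g t, ?_⟩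
  rw [← map_mul]
  congr 1

theorem Hon.one : Hon 𝒰 (1 : GK M 𝒰) := by
  refine ⟨fun _ => 1, ?_⟩
  rw [← map_one (gm 𝒰)]
  congr 1

theorem Hon.inv {x : GK M 𝒰} (hx : Hon 𝒰 x) : Hon 𝒰 x⁻¹ := by
  obtain ⟨f, rfl⟩ := hx
  refine ⟨fun t => (f t)⁻¹, inv_eq_of_mul_eq_one_right ?_⟩
  rw [← map_mul, ← map_one (gm 𝒰)]
  congr 1
  funext t
  have h1 : ((f t : 𝓞 M) : M) * (((f t)⁻¹ : (𝓞 M)ˣ) : 𝓞 M) = ((f t * (f t)⁻¹ : (𝓞 M)ˣ) : 𝓞 M) := by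
    rw [Units.val_mul]
    exact (map_mul (algebraMap (𝓞 M) M) _ _).symm
  rw [Pi.mul_apply, h1, mul_inv_cancel, Units.val_one]
  exact map_one (algebraMap (𝓞 M) M)

theorem Hon.act {x : GK M 𝒰} (hx : Hon 𝒰 x) (σ : M ≃ₐ[ℚ] M) : Hon 𝒰 (gact 𝒰 σ x) := by
  obtain ⟨f, rfl⟩ := hx
  exact ⟨fun t => Units.map (sg σ : 𝓞 M →* 𝓞 M) (f t), rfl⟩

theorem Hon.ti {x : GK M 𝒰} (hx : Hon 𝒰 x) : TI D 𝒰 (rep x) := by
  obtain ⟨f, hf⟩ := hx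
  refine ⟨1, one_ne_zero, ?_⟩
  filter_upwards [rep_eq x _ hf] with t ht
  rw [ht]
  exact D.TInt_mul _ _ (D.TInt_int 1) (D.TInt_int _)

theorem vl_inv (u : (RA D 𝒰 N hN)ˣ) : vl D 𝒰 N hN ((u⁻¹ : (RA D 𝒰 N hN)ˣ) : RA D 𝒰 N hN) =
    (vl D 𝒰 N hN (u : RA D 𝒰 N hN))⁻¹ := by
  refine eq_inv_of_mul_eq_one_left ?_
  rw [← vl_mul, Units.inv_mul, vl_one]

/-- the subgroup of honest units -/
def WH (D : PD M) (𝒰 : Ultrafilter ℕ) (N : ℕ → ℝ) (hN : ∀ t, 1 ≤ N t) :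
    Subgroup (RA D 𝒰 N hN)ˣ where
  carrier := {u | Hon 𝒰 (vl D 𝒰 N hN (u : RA D 𝒰 N hN))}
  mul_mem' := by
    intro a b ha hb
    exact ha.mul hb
  one_mem' := Hon.one
  inv_mem' := by
    intro a ha
    show Hon 𝒰 _
    rw [vl_inv]
    exact ha.inv

theorem bd_of_pow {f : ℕ → M} {n : ℕ} (hn : 0 < n) (h : Bd D N 𝒰 (fun t => f t ^ n))
    (hN : ∀ t, 1 ≤ N t) : Bd D N 𝒰 f := by
  obtain ⟨C, hC, h1⟩ := h
  refine ⟨C, hC, ?_⟩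
  filter_upwards [h1] with t ht v
  have h2 := ht v
  have h3 : D.av v (f t ^ n) = D.av v (f t) ^ n := by
    have h4 : ∀ (x : M) (k : ℕ), D.av v (x ^ k) = D.av v x ^ k := by
      intro x k
      induction k with
      | zero => rw [pow_zero, pow_zero, D.av_one]
      | succ k ih => rw [pow_succ, pow_succ, D.av_mul, ih]
    exact h4 _ _
  rw [h3] at h2
  rcases le_or_gt (D.av v (f t)) 1 with h4 | h4
  · refine h4.trans ?_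
    rw [← Real.exp_zero]
    refine Real.exp_le_exp.2 (mul_nonneg hC (by linarith [hN t]))
  · exact (le_self_pow₀ h4.le hn.ne').trans h2

theorem ti_int (f : ℕ → 𝓞 M) : TI D 𝒰 (fun t => (f t : M)) :=
  ⟨1, one_ne_zero, Filter.Eventually.of_forall fun _ => D.TInt_mul _ _ (D.TInt_int 1) (D.TInt_int _)⟩

theorem gm_unit (f : ℕ → (𝓞 M)ˣ) : (gm 𝒰 (fun t => ((f t : 𝓞 M) : M))) *
    (gm 𝒰 (fun t => ((((f t)⁻¹ : (𝓞 M)ˣ) : 𝓞 M) : M))) = 1 := by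
  rw [← map_mul, ← map_one (gm 𝒰)]
  congr 1
  funext t
  have h1 : ((f t : 𝓞 M) : M) * (((f t)⁻¹ : (𝓞 M)ˣ) : 𝓞 M) =
      ((f t * (f t)⁻¹ : (𝓞 M)ˣ) : 𝓞 M) := by
    rw [Units.val_mul]
    exact (map_mul (algebraMap (𝓞 M) M) _ _).symm
  rw [Pi.mul_apply, h1, mul_inv_cancel, Units.val_one]
  exact map_one (algebraMap (𝓞 M) M)

/-- a unit from an honest sequence with bounds -/
noncomputable def mkU (f : ℕ → (𝓞 M)ˣ) (h1 : Bd D N 𝒰 (fun t => ((f t : 𝓞 M) : M)))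
    (h2 : Bd D N 𝒰 (fun t => (((f t)⁻¹ : (𝓞 M)ˣ) : 𝓞 M) : ℕ → M)) : WH D 𝒰 N hN :=
  ⟨{ val := mk' (fun t => ((f t : 𝓞 M) : M)) (ti_int _) h1
     inv := mk' (fun t => (((f t)⁻¹ : (𝓞 M)ˣ) : 𝓞 M)) (ti_int _) h2
     val_inv := vl_inj (gm_unit f)
     inv_val := vl_inj ((mul_comm _ _).trans (gm_unit f)) }, f, rfl⟩

theorem vl_mkU (f : ℕ → (𝓞 M)ˣ) (h1 : Bd D N 𝒰 (fun t => ((f t : 𝓞 M) : M)))
    (h2 : Bd D N 𝒰 (fun t => (((f t)⁻¹ : (𝓞 M)ˣ) : 𝓞 M) : ℕ → M)) :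
    vl D 𝒰 N hN (((mkU f h1 h2 : WH D 𝒰 N hN) : (RA D 𝒰 N hN)ˣ) : RA D 𝒰 N hN) =
      gm 𝒰 fun t => ((f t : 𝓞 M) : M) := rfl

end Run7.h879.SH
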