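import Mathlib
import Pool.Agent.Run7.h879.SH.Inst

/-!
The arithmetic instance: the axioms.
-/

set_option autoImplicit false
set_option linter.unusedSectionVars false

open MvPolynomial Filter

namespace Run7.h879.SH

open NumberField IsDedekindDomain
open Pool.Agent.Y742.SF Pool.Agent.Y742.AR Pool.Agent.N754.LT
open Pool.Agent.TH286.GT.GrowD (sg sg_coe sg_inj)

variable {M : Type} [Field M] [NumberField M] [IsGalois ℚ M] {D : PD M} (hs : D.s = 0)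
  {𝒰 : Ultrafilter ℕ} {N : ℕ → ℝ} {hN : ∀ t, 1 ≤ N t}

theorem indH (m : ℕ) (g : Fin m → (RA D 𝒰 N hN)ˣ) (hg : ∀ i, g i ∈ WH D 𝒰 N hN)
    (hne : ∀ i j, i ≠ j → ∀ c : M, (g i : RA D 𝒰 N hN) ≠ algebraMap M (RA D 𝒰 N hN) c * g j)
    (c : Fin m → M) (hc : ∑ i, algebraMap M (RA D 𝒰 N hN) (c i) * (g i : RA D 𝒰 N hN) = 0) :
    c = 0 := by
  refine unit_ind (𝒰 := 𝒰) D m (fun i => vl D 𝒰 N hN (g i : RA D 𝒰 N hN))
    (fun i h => (g i).ne_zero (vl_inj h)) (fun i => Hon.ti (hg i))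
    (fun i => Hon.ti (Hon.inv (hg i))) (fun i j hij c h => ?_) c ?_
  · apply hne i j hij c
    apply vl_inj
    rw [vl_mul, vl_const]
    exact (div_eq_iff (fun h => (g j).ne_zero (vl_inj h))).1 h
  · have h1 := congrArg (vl D 𝒰 N hN) hc
    rw [vl_sum, vl_zero] at h1
    rw [← h1]
    exact Finset.sum_congr rfl fun i _ => by rw [vl_mul, vl_const]

theorem tfH (u : (RA D 𝒰 N hN)ˣ) (hu : u ∈ WH D 𝒰 N hN) (n : ℕ) (hn : 0 < n)
    (h : ∃ c : M, ((u ^ n : (RA D 𝒰 N hN)ˣ) : RA D 𝒰 N hN) = algebraMap M (RA D 𝒰 N hN) c) :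
    ∃ c : M, (u : RA D 𝒰 N hN) = algebraMap M (RA D 𝒰 N hN) c := by
  obtain ⟨c, hc⟩ := h
  have hu' : u⁻¹ ∈ WH D 𝒰 N hN := (WH D 𝒰 N hN).inv_mem hu
  obtain ⟨d, hd⟩ := tfA D 𝒰 (Units.map (incA D 𝒰 N hN : RA D 𝒰 N hN →* BA M 𝒰) u)
    ⟨Hon.ti (D := D) hu, by
      rw [← map_inv]
      exact Hon.ti (D := D) hu'⟩ n hn ⟨c, by
      rw [← map_pow]
      exact congrArg (incA D 𝒰 N hN) hc⟩
  exact ⟨d, vl_inj hd⟩

/-- finiteness of units modulo powers -/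
theorem finite_pow (n : ℕ) (hn : 0 < n) :
    Finite ((𝓞 M)ˣ ⧸ (powMonoidHom n : (𝓞 M)ˣ →* (𝓞 M)ˣ).range) := by
  have h1 : Group.FG (𝓞 M)ˣ := by
    rw [GroupFG.iff_add_fg, ← Module.Finite.iff_addGroup_fg]
    infer_instance
  have h2 : Group.FG ((𝓞 M)ˣ ⧸ (powMonoidHom n : (𝓞 M)ˣ →* (𝓞 M)ˣ).range) :=
    QuotientGroup.fg _
  refine CommGroup.finite_of_fg_isMulTorsion _ ?_
  intro x
  obtain ⟨u, rfl⟩ := QuotientGroup.mk_surjective x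
  rw [isOfFinOrder_iff_pow_eq_one]
  refine ⟨n, hn, ?_⟩
  rw [← QuotientGroup.mk_pow, QuotientGroup.eq_one_iff]
  exact ⟨u, rfl⟩

theorem dvH (u : (RA D 𝒰 N hN)ˣ) (hu : u ∈ WH D 𝒰 N hN) (n : ℕ) (hn : 0 < n) :
    ∃ (c : M) (v : (RA D 𝒰 N hN)ˣ), v ∈ WH D 𝒰 N hN ∧
      (u : RA D 𝒰 N hN) = algebraMap M (RA D 𝒰 N hN) c * (v : RA D 𝒰 N hN) ^ n := by
  classical
  have hfin := finite_pow (M := M) n hn
  obtain ⟨f, hf⟩ := hu
  obtain ⟨q, hq⟩ := eventually_const (𝒰 := 𝒰) (fun t => (QuotientGroup.mk (f t) :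
    (𝓞 M)ˣ ⧸ (powMonoidHom n : (𝓞 M)ˣ →* (𝓞 M)ˣ).range))
  obtain ⟨r, hr⟩ := QuotientGroup.mk_surjective q
  have hex : ∀ t, ∃ h : (𝓞 M)ˣ, (QuotientGroup.mk (f t) :
    (𝓞 M)ˣ ⧸ (powMonoidHom n : (𝓞 M)ˣ →* (𝓞 M)ˣ).range) = q → f t = r * h ^ n := by
    intro t
    by_cases hqt : (QuotientGroup.mk (f t) :
      (𝓞 M)ˣ ⧸ (powMonoidHom n : (𝓞 M)ˣ →* (𝓞 M)ˣ).range) = q
    · rw [← hr, eq_comm, QuotientGroup.eq] at hqt
      obtain ⟨h, hh⟩ := hqt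
      refine ⟨h, fun _ => ?_⟩
      have h1 : h ^ n = r⁻¹ * f t := hh
      rw [h1, mul_inv_cancel_left]
    · exact ⟨1, fun h => absurd h hqt⟩
  choose h hh using hex
  have hev : ∀ᶠ t in (𝒰 : Filter ℕ), f t = r * h t ^ n := by
    filter_upwards [hq] with t ht
    exact hh t ht
  have hcoe : ∀ (a b : (𝓞 M)ˣ), (((a * b : (𝓞 M)ˣ) : 𝓞 M) : M) = ((a : 𝓞 M) : M) * ((b : 𝓞 M) : M) :=
    fun a b => by rw [Units.val_mul]; exact map_mul (algebraMap (𝓞 M) M) _ _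
  have hcoep : ∀ (a : (𝓞 M)ˣ) (m : ℕ), (((a ^ m : (𝓞 M)ˣ) : 𝓞 M) : M) = ((a : 𝓞 M) : M) ^ m :=
    fun a m => by rw [Units.val_pow_eq_pow_val]; exact map_pow (algebraMap (𝓞 M) M) _ _
  have b1 : Bd D N 𝒰 (fun t => ((f t : 𝓞 M) : M)) := by
    obtain ⟨f', hf', -, hb⟩ := exists_seq (u : RA D 𝒰 N hN)
    rw [hf, gm_eq] at hf'
    refine hb.congr ?_
    filter_upwards [hf'] with t ht
    exact ht.symm
  have b2 : Bd D N 𝒰 (fun t => ((((f t)⁻¹ : (𝓞 M)ˣ) : 𝓞 M) : M)) := by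
    obtain ⟨f', hf', -, hb⟩ := exists_seq ((u⁻¹ : (RA D 𝒰 N hN)ˣ) : RA D 𝒰 N hN)
    rw [vl_inv, hf] at hf'
    have h1 : (gm 𝒰 fun t => ((f t : 𝓞 M) : M))⁻¹ =
        gm 𝒰 (fun t => ((((f t)⁻¹ : (𝓞 M)ˣ) : 𝓞 M) : M)) :=
      inv_eq_of_mul_eq_one_right (gm_unit f)
    rw [h1, gm_eq] at hf'
    refine hb.congr ?_
    filter_upwards [hf'] with t ht
    exact ht.symm
  have c1 : Bd D N 𝒰 (fun t => ((h t : 𝓞 M) : M)) := by
    refine bd_of_pow hn ?_ hN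
    refine ((Bd.const (D := D) (𝒰 := 𝒰) hN (((r⁻¹ : (𝓞 M)ˣ) : 𝓞 M) : M)).mul b1).congr ?_
    filter_upwards [hev] with t ht
    rw [← hcoe, ht, inv_mul_cancel_left, hcoep]
  have c2 : Bd D N 𝒰 (fun t => ((((h t)⁻¹ : (𝓞 M)ˣ) : 𝓞 M) : M)) := by
    refine bd_of_pow hn ?_ hN
    refine ((Bd.const (D := D) (𝒰 := 𝒰) hN ((r : 𝓞 M) : M)).mul b2).congr ?_
    filter_upwards [hev] with t ht
    rw [← hcoe, ht, mul_inv, mul_inv_cancel_left, ← inv_pow, hcoep]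
  refine ⟨((r : 𝓞 M) : M), (mkU h c1 c2 : WH D 𝒰 N hN), (mkU h c1 c2 : WH D 𝒰 N hN).2, vl_inj ?_⟩
  have h2 : vl D 𝒰 N hN ((((mkU h c1 c2 : WH D 𝒰 N hN) : (RA D 𝒰 N hN)ˣ) : RA D 𝒰 N hN) ^ n) =
      gm 𝒰 (fun t => ((h t : 𝓞 M) : M)) ^ n := map_pow (incA D 𝒰 N hN) _ n
  rw [vl_mul, vl_const, h2, hf, cg_eq, ← map_pow, ← map_mul, gm_eq]
  filter_upwards [hev] with t ht
  rw [ht, hcoe, hcoep]
  rfl

section prime

variable (pt : ℕ → ℕ) (hp0 : ∀ t, 1 ≤ pt t)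

/-- the scale -/
noncomputable def Np (t : ℕ) : ℝ := 1 + Real.log (pt t)

include hp0 in
theorem one_le_Np (t : ℕ) : 1 ≤ Np pt t := by
  unfold Np
  have := Real.log_nonneg (show (1 : ℝ) ≤ pt t by exact_mod_cast hp0 t)
  linarith

include hp0 hs in
theorem bd_p : Bd D (Np pt) 𝒰 (fun t => ((pt t : ℕ) : M)) := by
  refine ⟨1, zero_le_one, Filter.Eventually.of_forall fun t v => ?_⟩
  rcases v with σ | w
  · show ‖D.ψ (σ ((pt t : ℕ) : M))‖ ≤ _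
    rw [map_natCast, map_natCast]
    have h1 : (0 : ℝ) < pt t := by exact_mod_cast hp0 t
    rw [Complex.norm_natCast, one_mul, Np, Real.exp_add, Real.exp_log h1]
    have h2 : (1 : ℝ) ≤ Real.exp 1 := Real.one_le_exp zero_le_one
    nlinarith
  · exact absurd w.2 (by omega)

/-- the germ of the primes -/
noncomputable def gp : RA D 𝒰 (Np pt) (one_le_Np pt hp0) :=
  mk' (fun t => ((pt t : ℕ) : M)) ((ti_int fun t => ((pt t : ℕ) : 𝓞 M)).congr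
    (Filter.Eventually.of_forall fun _ => map_natCast (algebraMap (𝓞 M) M) _)) (bd_p hs pt hp0)

theorem vl_gp : vl D 𝒰 (Np pt) (one_le_Np pt hp0) (gp hs pt hp0) =
    gm 𝒰 (fun t => ((pt t : ℕ) : M)) := rfl

theorem Np_tendsto (hpt : Tendsto pt (𝒰 : Filter ℕ) atTop) :
    Tendsto (Np pt) (𝒰 : Filter ℕ) atTop :=
  tendsto_atTop_add_const_left _ _ (Real.tendsto_log_atTop.comp
    (tendsto_natCast_atTop_atTop.comp hpt))

theorem gcdH (hpt : Tendsto pt (𝒰 : Filter ℕ) atTop) (r : ℕ)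
    (w : Fin r → (RA D 𝒰 (Np pt) (one_le_Np pt hp0))ˣ) (hr : 1 ≤ r)
    (hw : AlgebraicIndependent M (fun i => (w i : RA D 𝒰 (Np pt) (one_le_Np pt hp0))))
    (P Q : MvPolynomial (Fin r) M) (hQ : Q ≠ 0) (hQP : IsRelPrime Q P)
    (u v : RA D 𝒰 (Np pt) (one_le_Np pt hp0))
    (hu : gp hs pt hp0 * u = aeval (fun i => (w i : RA D 𝒰 (Np pt) (one_le_Np pt hp0))) Q)
    (hv : gp hs pt hp0 * v = aeval (fun i => (w i : RA D 𝒰 (Np pt) (one_le_Np pt hp0))) P) :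
    False := by
  have hg : (gp hs pt hp0 : RA D 𝒰 (Np pt) (one_le_Np pt hp0)) ≠ 0 := by
    intro h
    have h1 := congrArg (vl D 𝒰 (Np pt) (one_le_Np pt hp0)) h
    rw [vl_gp, vl_zero, ← map_zero (gm 𝒰), gm_eq] at h1
    obtain ⟨t, ht⟩ := h1.exists
    have h2 := hp0 t
    rw [Pi.zero_apply, Nat.cast_eq_zero] at ht
    omega
  have h1 := gcd_neg (DcA (D := D) (𝒰 := 𝒰) (hN := one_le_Np pt hp0) (Np_tendsto pt hpt)) w hw P Q
    hQ hQP (gp hs pt hp0) u v hg hu hv hr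
  have h2 : ∀ᶠ t in (𝒰 : Filter ℕ), ∑ v, Real.log (D.av v (rep (vl D 𝒰 (Np pt) (one_le_Np pt hp0)
      (gp hs pt hp0)) t)) ≤ 1 / 2 * Np pt t := h1 (1 / 2) (by norm_num)
  have h3 : ∀ᶠ t in (𝒰 : Filter ℕ), rep (vl D 𝒰 (Np pt) (one_le_Np pt hp0)
      (gp hs pt hp0)) t = ((pt t : ℕ) : M) := by
    rw [vl_gp]
    exact rep_gm _
  obtain ⟨t, k1, k2, k3⟩ := (h2.and (h3.and (hpt.eventually_ge_atTop 3))).exists
  rw [k2] at k1
  have hav : ∀ v, D.av v ((pt t : ℕ) : M) = pt t := by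
    intro v
    rcases v with σ | w
    · show ‖D.ψ (σ ((pt t : ℕ) : M))‖ = _
      rw [map_natCast, map_natCast, Complex.norm_natCast]
    · exact absurd w.2 (by omega)
  simp only [hav] at k1
  have hpos : 1 < Real.log (pt t) := by
    rw [Real.lt_log_iff_exp_lt (by exact_mod_cast hp0 t)]
    have h4 : (3 : ℝ) ≤ pt t := by exact_mod_cast k3
    have := Real.exp_one_lt_d9
    linarith
  have h5 : Real.log (pt t) ≤ ∑ _v : (M ≃ₐ[ℚ] M) ⊕ Fin D.s, Real.log (pt t) :=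
    Finset.single_le_sum (f := fun _ : (M ≃ₐ[ℚ] M) ⊕ Fin D.s => Real.log (pt t))
      (fun _ _ => by linarith) (Finset.mem_univ (Sum.inl 1))
  unfold Np at k1
  linarith

/-- the arithmetic instance -/
noncomputable def sys (hpt : Tendsto pt (𝒰 : Filter ℕ) atTop) :
    Sys M (RA D 𝒰 (Np pt) (one_le_Np pt hp0)) (M ≃ₐ[ℚ] M) where
  W := WH D 𝒰 (Np pt) (one_le_Np pt hp0)
  ρ := ract hs
  ρk σ := (σ : M →+* M)
  ρ_alg σ c := vl_inj (by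
    rw [vl_ract, vl_const, vl_const]
    exact gact_gm σ _)
  ρ_mul σ τ x := vl_inj (by
    obtain ⟨f, hf, -⟩ := exists_seq x
    rw [vl_ract, vl_ract, vl_ract, hf, gact_gm, gact_gm, gact_gm]
    rfl)
  ρ_one x := vl_inj (by
    obtain ⟨f, hf, -⟩ := exists_seq x
    rw [vl_ract, hf, gact_gm]
    rfl)
  ρ_W σ u hu := Hon.act hu σ
  ind := indH
  tf := tfH
  dv := dvH
  g := gp hs pt hp0
  g_fix σ := vl_inj (by
    rw [vl_ract, vl_gp, gact_gm]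
    congr 1
    funext t
    exact map_natCast σ _)
  gcd r w hr _ hai P Q hQ hQP u v hu hv := gcdH hs pt hp0 hpt r w hr hai P Q hQ hQP u v hu hv

end prime

end Run7.h879.SH
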