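import Mathlib
import Pool.Agent.Run7.h879.SH.One

/-!
The rank of two units, and the conjugates in the case of rank one.
-/

set_option autoImplicit false

open MvPolynomial

namespace Run7.h879.SH

namespace Sys

variable {k R G : Type} [Field k] [CharZero k] [CommRing R] [IsDomain R] [Algebra k R] [Group G]
  (S : Sys k R G)

theorem divisZ (v : S.V) (n : ℤ) (hn : n ≠ 0) : ∃ w : S.V, v = n • w := by
  obtain ⟨w, hw⟩ := S.divis v n.natAbs (Int.natAbs_pos.2 hn)
  rcases Int.natAbs_eq n with h | h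
  · exact ⟨w, by rw [h]; exact hw⟩
  · refine ⟨-w, ?_⟩
    rw [smul_neg, ← neg_smul, hw]
    congr 1
    omega

/-- the three possibilities for the rank -/
theorem tri_rank (x y : S.W) : (∀ i j : ℤ, i • S.π x + j • S.π y = 0 → i = 0 ∧ j = 0) ∨
    (S.π x = 0 ∧ S.π y = 0) ∨
    ∃ (t : S.W) (m n : ℤ), (m ≠ 0 ∨ n ≠ 0) ∧ S.π t ≠ 0 ∧ S.π x = m • S.π t ∧
      S.π y = n • S.π t := by
  by_cases h : ∀ i j : ℤ, i • S.π x + j • S.π y = 0 → i = 0 ∧ j = 0
  · exact Or.inl h
  right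
  by_cases h0 : S.π x = 0 ∧ S.π y = 0
  · exact Or.inl h0
  right
  push Not at h
  obtain ⟨i, j, hij, hne⟩ := h
  by_cases hi : i = 0
  · have hj : j ≠ 0 := hne hi
    have hy : S.π y = 0 := by
      rw [hi, zero_smul, zero_add] at hij
      exact S.torsion _ _ hj hij
    have hx : S.π x ≠ 0 := fun hx => h0 ⟨hx, hy⟩
    exact ⟨x, 1, 0, Or.inl one_ne_zero, hx, by rw [one_smul], by rw [hy, zero_smul]⟩
  · obtain ⟨w, hw⟩ := S.divisZ (S.π y) i hi
    have hx : S.π x = (-j) • w := by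
      have h1 : i • (S.π x + j • w) = 0 := by
        rw [smul_add, smul_comm i j w, ← hw]
        exact hij
      have h2 := S.torsion _ _ hi h1
      rw [neg_smul]
      exact eq_neg_of_add_eq_zero_left h2
    obtain ⟨t, ht⟩ := S.π_surj w
    refine ⟨t, -j, i, Or.inr hi, ?_, by rw [ht]; exact hx, by rw [ht]; exact hw⟩
    intro h2
    rw [ht] at h2
    rw [h2, smul_zero] at hw hx
    exact h0 ⟨hx, hw⟩

/-- the conjugates -/
theorem two_fix (Z Z' t : S.W) (q : ℤ) (hq : q ≠ 0) (ht : S.π t ≠ 0) (hZ : S.π Z = q • S.π t)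
    (hZ' : S.π Z' = (-q) • S.π t) (c : k) (hc : c ≠ 0)
    (h : 1 + ((Z : Rˣ) : R) + ((Z' : Rˣ) : R) = S.g * algebraMap k R c) (σ : G)
    (hσ : S.π (S.act σ t) = S.π t ∨ S.π (S.act σ t) = -S.π t) :
    S.ρk σ c = c ∧ ((S.act σ Z = Z ∧ S.act σ Z' = Z') ∨ (S.act σ Z = Z' ∧ S.act σ Z' = Z)) := by
  have hqt : ∀ n : ℤ, n ≠ 0 → n • S.π t ≠ 0 := fun n hn h => ht (S.torsion _ _ hn h)
  have h1 : 1 + ((S.act σ Z : Rˣ) : R) + ((S.act σ Z' : Rˣ) : R) =
      S.g * algebraMap k R (S.ρk σ c) := by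
    have h2 := congrArg (S.ρ σ) h
    rw [map_add, map_add, map_one, map_mul, S.g_fix, S.ρ_alg] at h2
    exact h2
  have key : ∀ A B : S.W, S.π A = q • S.π t ∨ S.π A = (-q) • S.π t → S.π B = - S.π A →
      1 + ((A : Rˣ) : R) + ((B : Rˣ) : R) = S.g * algebraMap k R c →
      S.π (S.act σ Z) = S.π A → S.π (S.act σ Z') = S.π B →
      S.ρk σ c = c ∧ S.act σ Z = A ∧ S.act σ Z' = B := by
    intro A B hA hB hAB eA eB
    obtain ⟨a, ha0, ha⟩ := S.const_of _ _ eA
    obtain ⟨b, hb0, hb⟩ := S.const_of _ _ eB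
    have hA0 : S.π A ≠ 0 := by
      rcases hA with h | h <;> rw [h]
      · exact hqt q hq
      · exact hqt (-q) (neg_ne_zero.2 hq)
    have hAB' : S.π A ≠ S.π B := by
      rw [hB]
      intro h3
      have h4 : (2 : ℤ) • S.π A = 0 := by
        rw [two_smul]
        nth_rw 2 [h3]
        exact add_neg_cancel _
      exact hA0 (S.torsion _ _ two_ne_zero h4)
    have hB0 : S.π B ≠ 0 := by
      rw [hB]
      exact neg_ne_zero.2 hA0
    have hpi : ∀ i j : Fin 3, i ≠ j →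
        S.π ((![1, A, B] : Fin 3 → S.W) i) ≠ S.π ((![1, A, B] : Fin 3 → S.W) j) := by
      intro i j hij
      fin_cases i <;> fin_cases j
      · exact absurd rfl hij
      · exact fun h => hA0 h.symm
      · exact fun h => hB0 h.symm
      · exact hA0
      · exact absurd rfl hij
      · exact hAB'
      · exact hB0
      · exact fun h => hAB' h.symm
      · exact absurd rfl hij
    have h3 := S.ind 3 (fun i => ((![1, A, B] : Fin 3 → S.W) i : Rˣ)) (fun i => Subtype.property _)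
      (fun i j hij d hd => hpi i j hij (S.of_const _ _ d hd))
      ![c - S.ρk σ c, c * a - S.ρk σ c, c * b - S.ρk σ c] (by
        rw [Fin.sum_univ_three]
        show algebraMap k R (c - S.ρk σ c) * 1 + algebraMap k R (c * a - S.ρk σ c) *
          ((A : Rˣ) : R) + algebraMap k R (c * b - S.ρk σ c) * ((B : Rˣ) : R) = 0
        rw [ha, hb] at h1
        simp only [map_sub, map_mul]
        linear_combination algebraMap k R c * h1 - algebraMap k R (S.ρk σ c) * hAB)
    have e0 : c - S.ρk σ c = 0 := congrFun h3 0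
    have e1 : c * a - S.ρk σ c = 0 := congrFun h3 1
    have e2 : c * b - S.ρk σ c = 0 := congrFun h3 2
    have f0 : S.ρk σ c = c := (sub_eq_zero.1 e0).symm
    rw [f0] at e1 e2
    have f1 : a = 1 := mul_left_cancel₀ hc (by rw [mul_one]; exact sub_eq_zero.1 e1)
    have f2 : b = 1 := mul_left_cancel₀ hc (by rw [mul_one]; exact sub_eq_zero.1 e2)
    rw [f1, map_one, one_mul] at ha
    rw [f2, map_one, one_mul] at hb
    exact ⟨f0, Subtype.ext (Units.ext ha), Subtype.ext (Units.ext hb)⟩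
  have hneg : S.π Z' = -S.π Z := by rw [hZ, hZ', neg_smul]
  rcases hσ with hσ | hσ
  · obtain ⟨k1, k2, k3⟩ := key Z Z' (Or.inl hZ) hneg h
      (by rw [S.π_act_of σ Z t q hZ, hσ, hZ]) (by rw [S.π_act_of σ Z' t (-q) hZ', hσ, hZ'])
    exact ⟨k1, Or.inl ⟨k2, k3⟩⟩
  · obtain ⟨k1, k2, k3⟩ := key Z' Z (Or.inr hZ') (by rw [hneg, neg_neg])
      (by rw [← h]; ring)
      (by rw [S.π_act_of σ Z t q hZ, hσ, hZ', smul_neg, neg_smul])
      (by rw [S.π_act_of σ Z' t (-q) hZ', hσ, hZ, smul_neg, neg_smul, neg_neg])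
    exact ⟨k1, Or.inr ⟨k2, k3⟩⟩

end Sys

end Run7.h879.SH
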