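import Mathlib
import Pool.Agent.Run7.h879.SH.Inst2
import Pool.Agent.Run7.h879.SH.Rk

/-!
Logarithms of germs of units.
-/

set_option autoImplicit false
set_option linter.unusedSectionVars false

open MvPolynomial Filter

namespace Run7.h879.SH

open NumberField IsDedekindDomain
open Pool.Agent.Y742.SF Pool.Agent.Y742.AR Pool.Agent.N754.LT
open Pool.Agent.TH286.GT.GrowD (sg sg_coe sg_inj)

variable {M : Type} [Field M] [NumberField M] [IsGalois ℚ M] {D : PD M} {𝒰 : Ultrafilter ℕ}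

/-- the product formula for integers -/
theorem sum_log_nonneg (hs : D.s = 0) (y : 𝓞 M) (hy : y ≠ 0) :
    0 ≤ ∑ σ : M ≃ₐ[ℚ] M, Real.log ‖D.ψ (σ (y : M))‖ := by
  have h1 := D.sum_av_nonneg (y : M) (RingOfIntegers.coe_ne_zero_iff.2 hy) (D.TInt_int y)
  rw [Fintype.sum_sum_type] at h1
  have h2 : ∑ w : Fin D.s, Real.log (D.av (Sum.inr w) (y : M)) = 0 := by
    refine Finset.sum_eq_zero fun w _ => ?_
    exact absurd w.2 (by omega)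
  rw [h2, add_zero] at h1
  exact h1

/-- the product formula for units -/
theorem sum_log_unit (hs : D.s = 0) (u : (𝓞 M)ˣ) :
    ∑ σ : M ≃ₐ[ℚ] M, Real.log ‖D.ψ (σ ((u : 𝓞 M) : M))‖ = 0 := by
  have h1 := sum_log_nonneg hs (u : 𝓞 M) u.ne_zero
  have h2 := sum_log_nonneg hs ((u⁻¹ : (𝓞 M)ˣ) : 𝓞 M) (u⁻¹).ne_zero
  have h3 : (((u⁻¹ : (𝓞 M)ˣ) : 𝓞 M) : M) = ((u : 𝓞 M) : M)⁻¹ := by
    refine eq_inv_of_mul_eq_one_left ?_
    have h1 : (((u⁻¹ : (𝓞 M)ˣ) : 𝓞 M) : M) * ((u : 𝓞 M) : M) =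
        ((u⁻¹ * u : (𝓞 M)ˣ) : 𝓞 M) := by
      rw [Units.val_mul]
      exact (map_mul (algebraMap (𝓞 M) M) _ _).symm
    rw [h1, inv_mul_cancel, Units.val_one]
    exact map_one (algebraMap (𝓞 M) M)
  rw [h3] at h2
  simp only [map_inv₀, norm_inv, Real.log_inv, Finset.sum_neg_distrib] at h2
  linarith

section seq

variable {N : ℕ → ℝ} {hN : ∀ t, 1 ≤ N t}

/-- the sequence of units of a germ -/
noncomputable def sq (u : WH D 𝒰 N hN) : ℕ → (𝓞 M)ˣ := u.2.choose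

theorem sq_spec (u : WH D 𝒰 N hN) :
    vl D 𝒰 N hN (u.1 : RA D 𝒰 N hN) = gm 𝒰 fun t => ((sq u t : 𝓞 M) : M) := u.2.choose_spec

theorem sq_eq (u : WH D 𝒰 N hN) (f : ℕ → M) (h : vl D 𝒰 N hN (u.1 : RA D 𝒰 N hN) = gm 𝒰 f) :
    ∀ᶠ t in (𝒰 : Filter ℕ), ((sq u t : 𝓞 M) : M) = f t := by
  rw [sq_spec, gm_eq] at h
  exact h

theorem sq_ne (u : WH D 𝒰 N hN) (t : ℕ) : ((sq u t : 𝓞 M) : M) ≠ 0 :=
  RingOfIntegers.coe_ne_zero_iff.2 (Units.ne_zero _)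

theorem sq_one : ∀ᶠ t in (𝒰 : Filter ℕ), ((sq (1 : WH D 𝒰 N hN) t : 𝓞 M) : M) = 1 := by
  refine sq_eq _ (fun _ => 1) ?_
  rfl

theorem sq_mul (u v : WH D 𝒰 N hN) : ∀ᶠ t in (𝒰 : Filter ℕ), ((sq (u * v) t : 𝓞 M) : M) =
    ((sq u t : 𝓞 M) : M) * ((sq v t : 𝓞 M) : M) := by
  refine sq_eq _ _ ?_
  have h1 : vl D 𝒰 N hN (((u * v).1 : (RA D 𝒰 N hN)ˣ) : RA D 𝒰 N hN) =
    vl D 𝒰 N hN (u.1 : RA D 𝒰 N hN) * vl D 𝒰 N hN (v.1 : RA D 𝒰 N hN) := rfl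
  rw [h1, sq_spec, sq_spec, ← map_mul]
  rfl

theorem sq_inv (u : WH D 𝒰 N hN) : ∀ᶠ t in (𝒰 : Filter ℕ), ((sq u⁻¹ t : 𝓞 M) : M) =
    (((sq u t : 𝓞 M) : M))⁻¹ := by
  filter_upwards [sq_mul u u⁻¹, sq_one (D := D) (𝒰 := 𝒰) (N := N) (hN := hN)] with t h1 h2
  rw [mul_inv_cancel] at h1
  rw [h2] at h1
  exact (inv_eq_of_mul_eq_one_right h1.symm).symm

theorem sq_pow (u : WH D 𝒰 N hN) (n : ℕ) : ∀ᶠ t in (𝒰 : Filter ℕ),
    ((sq (u ^ n) t : 𝓞 M) : M) = ((sq u t : 𝓞 M) : M) ^ n := by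
  induction n with
  | zero => simpa only [pow_zero] using sq_one
  | succ n ih =>
    filter_upwards [ih, sq_mul (u ^ n) u] with t h1 h2
    rw [pow_succ, h2, h1, pow_succ]

theorem sq_zpow (u : WH D 𝒰 N hN) (n : ℤ) : ∀ᶠ t in (𝒰 : Filter ℕ),
    ((sq (u ^ n) t : 𝓞 M) : M) = ((sq u t : 𝓞 M) : M) ^ n := by
  rcases n with n | n
  · simpa only [Int.ofNat_eq_natCast, zpow_natCast] using sq_pow u n
  · filter_upwards [sq_pow u (n + 1), sq_inv (u ^ (n + 1))] with t h1 h2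
    rw [zpow_negSucc, zpow_negSucc, h2, h1]

theorem ψ_pos (D : PD M) {x : M} (hx : x ≠ 0) : 0 < ‖D.ψ x‖ := by
  rw [norm_pos_iff]
  exact (map_ne_zero _).2 hx

end seq

section sys

variable (hs : D.s = 0) {pt : ℕ → ℕ} {hp0 : ∀ t, 1 ≤ pt t}
  (hpt : Tendsto pt (𝒰 : Filter ℕ) atTop)

/-- the sequence of units of a germ -/
noncomputable def sqS (u : (sys hs pt hp0 hpt).W) : ℕ → (𝓞 M)ˣ :=
  sq (D := D) (𝒰 := 𝒰) (N := Np pt) (hN := one_le_Np pt hp0) u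

theorem sqS_spec (u : (sys hs pt hp0 hpt).W) :
    vl D 𝒰 (Np pt) (one_le_Np pt hp0) (u.1 : RA D 𝒰 (Np pt) (one_le_Np pt hp0)) =
      gm 𝒰 fun t => ((sqS hs hpt u t : 𝓞 M) : M) :=
  sq_spec (D := D) (𝒰 := 𝒰) (N := Np pt) (hN := one_le_Np pt hp0) u

theorem sqS_eq (u : (sys hs pt hp0 hpt).W) (f : ℕ → M)
    (h : vl D 𝒰 (Np pt) (one_le_Np pt hp0) (u.1 : RA D 𝒰 (Np pt) (one_le_Np pt hp0)) = gm 𝒰 f) :
    ∀ᶠ t in (𝒰 : Filter ℕ), ((sqS hs hpt u t : 𝓞 M) : M) = f t :=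
  sq_eq (D := D) (𝒰 := 𝒰) (N := Np pt) (hN := one_le_Np pt hp0) u f h

theorem sqS_ne (u : (sys hs pt hp0 hpt).W) (t : ℕ) : ((sqS hs hpt u t : 𝓞 M) : M) ≠ 0 :=
  RingOfIntegers.coe_ne_zero_iff.2 (Units.ne_zero _)

theorem sqS_mul (u v : (sys hs pt hp0 hpt).W) : ∀ᶠ t in (𝒰 : Filter ℕ),
    ((sqS hs hpt (u * v) t : 𝓞 M) : M) =
    ((sqS hs hpt u t : 𝓞 M) : M) * ((sqS hs hpt v t : 𝓞 M) : M) :=
  sq_mul (D := D) (𝒰 := 𝒰) (N := Np pt) (hN := one_le_Np pt hp0) u v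

theorem sqS_inv (u : (sys hs pt hp0 hpt).W) : ∀ᶠ t in (𝒰 : Filter ℕ),
    ((sqS hs hpt u⁻¹ t : 𝓞 M) : M) = (((sqS hs hpt u t : 𝓞 M) : M))⁻¹ :=
  sq_inv (D := D) (𝒰 := 𝒰) (N := Np pt) (hN := one_le_Np pt hp0) u

theorem sqS_one : ∀ᶠ t in (𝒰 : Filter ℕ),
    ((sqS hs hpt (1 : (sys hs pt hp0 hpt).W) t : 𝓞 M) : M) = 1 :=
  sq_one (D := D) (𝒰 := 𝒰) (N := Np pt) (hN := one_le_Np pt hp0)

theorem sqS_zpow (u : (sys hs pt hp0 hpt).W) (n : ℤ) : ∀ᶠ t in (𝒰 : Filter ℕ),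
    ((sqS hs hpt (u ^ n) t : 𝓞 M) : M) = ((sqS hs hpt u t : 𝓞 M) : M) ^ n :=
  sq_zpow (D := D) (𝒰 := 𝒰) (N := Np pt) (hN := one_le_Np pt hp0) u n

/-- the logarithm of a germ -/
noncomputable def lg (u : (sys hs pt hp0 hpt).W) (t : ℕ) : ℝ :=
  Real.log ‖D.ψ ((sqS hs hpt u t : 𝓞 M) : M)‖

theorem sq_const (u v : (sys hs pt hp0 hpt).W)
    (h : (sys hs pt hp0 hpt).π u = (sys hs pt hp0 hpt).π v) :
    ∃ c : M, c ≠ 0 ∧ ∀ᶠ t in (𝒰 : Filter ℕ), ((sqS hs hpt u t : 𝓞 M) : M) = c * ((sqS hs hpt v t : 𝓞 M) : M) := by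
  obtain ⟨c, hc, h1⟩ := (sys hs pt hp0 hpt).const_of u v h
  refine ⟨c, hc, sqS_eq hs hpt _ _ ?_⟩
  have h2 := congrArg (vl D 𝒰 (Np pt) (one_le_Np pt hp0)) h1
  rw [vl_mul, vl_const] at h2
  refine h2.trans ?_
  rw [cg_eq]
  have h3 := sqS_spec hs hpt v
  rw [h3, ← map_mul]
  rfl

theorem sq_act (σ : M ≃ₐ[ℚ] M) (u : (sys hs pt hp0 hpt).W) : ∀ᶠ t in (𝒰 : Filter ℕ),
    ((sqS hs hpt ((sys hs pt hp0 hpt).act σ u) t : 𝓞 M) : M) = σ ((sqS hs hpt u t : 𝓞 M) : M) := by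
  refine sqS_eq hs hpt _ _ ?_
  have h1 : vl D 𝒰 (Np pt) (one_le_Np pt hp0) (((sys hs pt hp0 hpt).act σ u).1 :
      RA D 𝒰 (Np pt) (one_le_Np pt hp0)) =
    gact 𝒰 σ (vl D 𝒰 (Np pt) (one_le_Np pt hp0) (u.1 : RA D 𝒰 (Np pt) (one_le_Np pt hp0))) := rfl
  rw [h1, sqS_spec hs hpt u]
  rfl

theorem lg_of_π (u v : (sys hs pt hp0 hpt).W) (m : ℤ)
    (h : (sys hs pt hp0 hpt).π u = m • (sys hs pt hp0 hpt).π v) :
    ∃ C : ℝ, ∀ᶠ t in (𝒰 : Filter ℕ), |lg hs hpt u t - m * lg hs hpt v t| ≤ C := by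
  rw [← Sys.π_zpow] at h
  obtain ⟨c, hc, h1⟩ := sq_const hs hpt _ _ h
  refine ⟨|Real.log ‖D.ψ c‖|, ?_⟩
  filter_upwards [h1, sqS_zpow hs hpt v m] with t h2 h3
  have h4 : lg hs hpt u t = Real.log ‖D.ψ c‖ + m * lg hs hpt v t := by
    unfold lg
    rw [h2, h3, map_mul, norm_mul, Real.log_mul (ψ_pos D hc).ne'
      (ψ_pos D (zpow_ne_zero _ (sqS_ne hs hpt v t))).ne', map_zpow₀, norm_zpow, Real.log_zpow]
  rw [h4, add_sub_cancel_right]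

theorem lg_act (σ : M ≃ₐ[ℚ] M) (u : (sys hs pt hp0 hpt).W) : ∀ᶠ t in (𝒰 : Filter ℕ),
    lg hs hpt ((sys hs pt hp0 hpt).act σ u) t = Real.log ‖D.ψ (σ ((sqS hs hpt u t : 𝓞 M) : M))‖ := by
  filter_upwards [sq_act hs hpt σ u] with t h1
  unfold lg
  rw [h1]

theorem lg_sum (u : (sys hs pt hp0 hpt).W) : ∀ᶠ t in (𝒰 : Filter ℕ),
    ∑ σ, lg hs hpt ((sys hs pt hp0 hpt).act σ u) t = 0 := by
  have h1 : ∀ᶠ t in (𝒰 : Filter ℕ), ∀ σ, lg hs hpt ((sys hs pt hp0 hpt).act σ u) t =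
      Real.log ‖D.ψ (σ ((sqS hs hpt u t : 𝓞 M) : M))‖ := by
    rw [Filter.eventually_all]
    exact fun σ => lg_act hs hpt σ u
  filter_upwards [h1] with t h2
  rw [Finset.sum_congr rfl fun σ _ => h2 σ]
  exact sum_log_unit hs (sqS hs hpt u t)

theorem zero_of_bdd (u : (sys hs pt hp0 hpt).W) (B : ℝ)
    (h : ∀ᶠ t in (𝒰 : Filter ℕ), ∀ σ, |lg hs hpt ((sys hs pt hp0 hpt).act σ u) t| ≤ B) :
    (sys hs pt hp0 hpt).π u = 0 := by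
  rw [Sys.π_zero]
  have h0 := sqS_spec hs hpt u
  obtain ⟨c, hc⟩ := const_of_bdd (D := D) (𝒰 := 𝒰) (vl D 𝒰 (Np pt) (one_le_Np pt hp0)
    (u.1 : RA D 𝒰 (Np pt) (one_le_Np pt hp0))) (Hon.ti u.2) (Real.exp B) (by
      have h1 : ∀ᶠ t in (𝒰 : Filter ℕ), ∀ σ, lg hs hpt ((sys hs pt hp0 hpt).act σ u) t =
          Real.log ‖D.ψ (σ ((sqS hs hpt u t : 𝓞 M) : M))‖ := by
        rw [Filter.eventually_all]
        exact fun σ => lg_act hs hpt σ u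
      filter_upwards [h, h1, rep_eq _ _ h0] with t h2 h3 h4 v
      rw [h4]
      rcases v with σ | w
      · have h5 := h2 σ
        rw [h3 σ] at h5
        have h6 : 0 < ‖D.ψ (σ ((sqS hs hpt u t : 𝓞 M) : M))‖ :=
          ψ_pos D ((map_ne_zero _).2 (sqS_ne hs hpt u t))
        exact (Real.log_le_iff_le_exp h6).1 ((le_abs_self _).trans h5)
      · exact absurd w.2 (by omega))
  refine ⟨c, vl_inj ?_⟩
  rw [vl_const]
  exact hc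

/-- a unit whose conjugates are proportional to it or its inverse grows -/
theorem exists_grow (u : (sys hs pt hp0 hpt).W) (hu : (sys hs pt hp0 hpt).π u ≠ 0)
    (hσ : ∀ σ, (sys hs pt hp0 hpt).π ((sys hs pt hp0 hpt).act σ u) = (sys hs pt hp0 hpt).π u ∨
      (sys hs pt hp0 hpt).π ((sys hs pt hp0 hpt).act σ u) = -(sys hs pt hp0 hpt).π u) :
    ∃ v : (sys hs pt hp0 hpt).W, ((sys hs pt hp0 hpt).π v = (sys hs pt hp0 hpt).π u ∨
      (sys hs pt hp0 hpt).π v = - (sys hs pt hp0 hpt).π u) ∧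
      Tendsto (lg hs hpt v) (𝒰 : Filter ℕ) atTop := by
  by_cases h1 : ∃ C, ∀ᶠ t in (𝒰 : Filter ℕ), lg hs hpt u t ≤ C
  · by_cases h2 : ∃ C, ∀ᶠ t in (𝒰 : Filter ℕ), lg hs hpt u⁻¹ t ≤ C
    · exfalso
      obtain ⟨C1, hC1⟩ := h1
      obtain ⟨C2, hC2⟩ := h2
      have h3 : ∀ᶠ t in (𝒰 : Filter ℕ), lg hs hpt u⁻¹ t = - lg hs hpt u t := by
        filter_upwards [sqS_inv hs hpt u] with t ht
        unfold lg
        rw [ht, map_inv₀, norm_inv, Real.log_inv]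
      have h4 : ∀ σ, ∃ C : ℝ, ∀ᶠ t in (𝒰 : Filter ℕ), |lg hs hpt ((sys hs pt hp0 hpt).act σ u) t| ≤ C := by
        intro σ
        obtain ⟨m, hm, hm'⟩ : ∃ m : ℤ, (sys hs pt hp0 hpt).π ((sys hs pt hp0 hpt).act σ u) =
            m • (sys hs pt hp0 hpt).π u ∧ |(m : ℝ)| = 1 := by
          rcases hσ σ with h | h
          · exact ⟨1, by rw [h, one_smul], by simp⟩
          · exact ⟨-1, by rw [h, neg_smul, one_smul], by simp⟩
        obtain ⟨C, hC⟩ := lg_of_π hs hpt _ _ m hm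
        refine ⟨C + (|C1| + |C2|), ?_⟩
        filter_upwards [hC, hC1, hC2, h3] with t k1 k2 k3 k4
        have k5 : |lg hs hpt u t| ≤ |C1| + |C2| := by
          rw [abs_le]
          constructor
          · have := le_abs_self C2
            have := abs_nonneg C1
            linarith
          · have := le_abs_self C1
            have := abs_nonneg C2
            linarith
        have k6 : |(m : ℝ) * lg hs hpt u t| ≤ |C1| + |C2| := by rw [abs_mul, hm', one_mul]; exact k5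
        calc |lg hs hpt ((sys hs pt hp0 hpt).act σ u) t| =
            |(lg hs hpt ((sys hs pt hp0 hpt).act σ u) t - m * lg hs hpt u t) + m * lg hs hpt u t| := by ring_nf
          _ ≤ _ := (abs_add_le _ _).trans (add_le_add k1 k6)
      choose C hC using h4
      refine hu (zero_of_bdd hs hpt u (∑ σ, |C σ|) ?_)
      rw [Filter.eventually_all]
      intro σ
      filter_upwards [hC σ] with t ht
      refine (ht.trans (le_abs_self _)).trans ?_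
      exact Finset.single_le_sum (f := fun σ => |C σ|) (fun _ _ => abs_nonneg _)
        (Finset.mem_univ σ)
    · exact ⟨u⁻¹, Or.inr rfl, tendsto_of_unbdd _ h2⟩
  · exact ⟨u, Or.inl rfl, tendsto_of_unbdd _ h1⟩

end sys

end Run7.h879.SH
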