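import Mathlib
import Pool.Agent.Run7.h879.SH.Lg
import Pool.Agent.Y742.SF.SubS

/-!
Approximation of a constant by units.
-/

set_option autoImplicit false
set_option linter.unusedSectionVars false

open Filter

namespace Run7.h879.SH

open NumberField IsDedekindDomain
open Pool.Agent.Y742.SF Pool.Agent.Y742.AR Pool.Agent.N754.LT

variable {M : Type} [Field M] [NumberField M] [IsGalois ℚ M] {D : PD M} {𝒰 : Ultrafilter ℕ}

/-- units do not approximate `-1` -/
theorem approx_false (hs : D.s = 0) (N : ℕ → ℝ) (hN : Tendsto N (𝒰 : Filter ℕ) atTop)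
    (hN0 : ∀ t, 0 ≤ N t) (y : ℕ → (𝓞 M)ˣ) (c : ℝ) (hc : 0 ≤ c)
    (hsz : ∀ᶠ t in (𝒰 : Filter ℕ), ∀ σ : M ≃ₐ[ℚ] M,
      ‖D.ψ (σ ((y t : 𝓞 M) : M))‖ ≤ Real.exp (c * N t))
    (hnc : ∀ d : M, ¬ ∀ᶠ t in (𝒰 : Filter ℕ), ((y t : 𝓞 M) : M) = d) (δ : ℝ) (hδ : 0 < δ)
    (h : ∀ᶠ t in (𝒰 : Filter ℕ), ‖D.ψ (1 + ((y t : 𝓞 M) : M))‖ ≤ Real.exp (-(δ * N t))) :
    False := by
  classical
  have hy0 : ∀ t, ((y t : 𝓞 M) : M) ≠ 0 := fun t =>
    RingOfIntegers.coe_ne_zero_iff.2 (Units.ne_zero _)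
  obtain ⟨Φ, hΦ⟩ : ∃ Φ : Fin 3 → Fin 2 → M, Φ = ![![1, 0], ![0, 1], ![1, 1]] := ⟨_, rfl⟩
  obtain ⟨J, hJ⟩ : ∃ J : (M ≃ₐ[ℚ] M) ⊕ Fin D.s → Fin 2 → Fin 3,
      J = fun v => if v = Sum.inl 1 then ![0, 2] else ![0, 1] := ⟨_, rfl⟩
  have h1 := subS D (𝒰 : Filter ℕ) (n := 2) (q := 3) (by norm_num) Φ (by
      intro i
      rw [hΦ]
      fin_cases i
      · intro h0
        exact one_ne_zero (congrFun h0 0)
      · intro h0
        exact one_ne_zero (congrFun h0 1)
      · intro h0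
        exact one_ne_zero (congrFun h0 1)) J (by
      intro v
      rw [hJ, hΦ]
      by_cases hv : v = Sum.inl 1
      · simp only [hv, if_true]
        rw [Matrix.det_fin_two]
        simp
      · simp only [hv, if_false]
        rw [Matrix.det_fin_two]
        simp) N hN (fun t => ![1, ((y t : 𝓞 M) : M)]) (by
      refine Filter.Eventually.of_forall fun t j => ?_
      fin_cases j
      · exact D.TInt_int 1
      · exact D.TInt_int _) c (by
      filter_upwards [hsz] with t ht j v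
      rcases v with σ | w
      · fin_cases j
        · show ‖D.ψ (σ 1)‖ ≤ _
          rw [map_one, map_one, norm_one]
          exact Real.one_le_exp (mul_nonneg hc (hN0 t))
        · exact ht σ
      · exact absurd w.2 (by omega)) (by
      intro d hd
      by_contra hcon
      rw [← Ultrafilter.eventually_not] at hcon
      have h2 : ∀ᶠ t in (𝒰 : Filter ℕ), d 0 + d 1 * ((y t : 𝓞 M) : M) = 0 := by
        filter_upwards [hcon] with t ht
        rw [not_not, Fin.sum_univ_two] at ht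
        simpa using ht
      have hd1 : d 1 ≠ 0 := by
        intro h0
        obtain ⟨t, ht⟩ := h2.exists
        rw [h0, zero_mul, add_zero] at ht
        apply hd
        funext j
        fin_cases j
        · exact ht
        · exact h0
      apply hnc (-(d 0) / d 1)
      filter_upwards [h2] with t ht
      rw [eq_div_iff hd1]
      linear_combination ht) (δ / 2) (by linarith)
  have h2 : ∀ᶠ t in (𝒰 : Filter ℕ), ∑ v, ∑ a, Real.log (D.av v (∑ j, Φ (J v a) j *
      (![1, ((y t : 𝓞 M) : M)] : Fin 2 → M) j)) =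
      Real.log ‖D.ψ (1 + ((y t : 𝓞 M) : M))‖ - Real.log ‖D.ψ ((y t : 𝓞 M) : M)‖ := by
    refine Filter.Eventually.of_forall fun t => ?_
    have h3 : ∀ v, ∑ a, Real.log (D.av v (∑ j, Φ (J v a) j *
      (![1, ((y t : 𝓞 M) : M)] : Fin 2 → M) j)) = Real.log (D.av v ((y t : 𝓞 M) : M)) +
        if v = Sum.inl 1 then Real.log (D.av (Sum.inl 1) (1 + ((y t : 𝓞 M) : M))) -
          Real.log (D.av (Sum.inl 1) ((y t : 𝓞 M) : M)) else 0 := by
      intro v
      rw [hJ, hΦ]
      by_cases hv : v = Sum.inl 1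
      · simp [hv, Fin.sum_univ_two, D.av_one]
      · simp [hv, Fin.sum_univ_two, D.av_one]
    rw [Finset.sum_congr rfl fun v _ => h3 v, Finset.sum_add_distrib, Finset.sum_ite_eq']
    have h4 : ∑ v, Real.log (D.av v ((y t : 𝓞 M) : M)) = 0 := by
      rw [Fintype.sum_sum_type]
      have h5 : ∑ w : Fin D.s, Real.log (D.av (Sum.inr w) ((y t : 𝓞 M) : M)) = 0 :=
        Finset.sum_eq_zero fun w _ => absurd w.2 (by omega)
      rw [h5, add_zero]
      exact sum_log_unit hs (y t)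
    rw [h4, zero_add, if_pos (Finset.mem_univ _)]
    rfl
  have h1y : ∀ᶠ t in (𝒰 : Filter ℕ), (1 : M) + ((y t : 𝓞 M) : M) ≠ 0 := by
    by_contra hcon
    rw [← Ultrafilter.eventually_not] at hcon
    apply hnc (-1)
    filter_upwards [hcon] with t ht
    rw [not_not] at ht
    linear_combination ht
  have hNbig := hN.eventually_ge_atTop (2 / δ + 1)
  obtain ⟨t, k1, k2, k3, k4, k5⟩ := (h1.and (h2.and (h1y.and (h.and hNbig)))).exists
  rw [k2] at k1
  have hpos := ψ_pos D k3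
  have k6 : Real.log ‖D.ψ (1 + ((y t : 𝓞 M) : M))‖ ≤ -(δ * N t) :=
    (Real.log_le_iff_le_exp hpos).2 k4
  have hδN : 2 < δ * N t := by
    have h6 : δ * (2 / δ + 1) ≤ δ * N t := mul_le_mul_of_nonneg_left k5 hδ.le
    have h7 : δ * (2 / δ + 1) = 2 + δ := by field_simp
    linarith
  have k7 : 1 / 2 ≤ ‖D.ψ ((y t : 𝓞 M) : M)‖ := by
    have h6 : Real.exp (-(δ * N t)) ≤ 1 / 2 := by
      rw [Real.exp_neg, inv_le_comm₀ (Real.exp_pos _) (by norm_num)]
      have := Real.add_one_le_exp (δ * N t)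
      norm_num
      linarith
    have h7 := norm_sub_norm_le (1 : ℂ) (-(D.ψ ((y t : 𝓞 M) : M)))
    rw [norm_neg, sub_neg_eq_add, norm_one] at h7
    rw [map_add, map_one] at k4
    linarith
  have k8 : -1 ≤ Real.log ‖D.ψ ((y t : 𝓞 M) : M)‖ := by
    have h6 : Real.log (1 / 2) ≤ Real.log ‖D.ψ ((y t : 𝓞 M) : M)‖ :=
      Real.log_le_log (by norm_num) k7
    have h7 : -1 ≤ Real.log (1 / 2) := by
      rw [one_div, Real.log_inv]
      have := Real.log_le_sub_one_of_pos (show (0 : ℝ) < 2 by norm_num)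
      linarith
    linarith
  linarith

end Run7.h879.SH
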