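import Mathlib

/-!
The real analysis for the case of rank one.
-/

set_option autoImplicit false

namespace Run7.h879.SH

theorem exists_ord (e : Fin 3 → ℤ) : ∃ i j k : Fin 3, i ≠ j ∧ j ≠ k ∧ i ≠ k ∧
    e k ≤ e j ∧ e j ≤ e i := by
  rcases le_total (e 0) (e 1) with h01 | h01 <;> rcases le_total (e 1) (e 2) with h12 | h12 <;>
    rcases le_total (e 0) (e 2) with h02 | h02
  · exact ⟨2, 1, 0, by decide, by decide, by decide, h01, h12⟩
  · exact ⟨2, 1, 0, by decide, by decide, by decide, h01, h12⟩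
  · exact ⟨1, 2, 0, by decide, by decide, by decide, h02, h12⟩
  · exact ⟨1, 0, 2, by decide, by decide, by decide, h02, h01⟩
  · exact ⟨2, 0, 1, by decide, by decide, by decide, h01, h02⟩
  · exact ⟨0, 2, 1, by decide, by decide, by decide, h12, h02⟩
  · exact ⟨0, 1, 2, by decide, by decide, by decide, h12, h01⟩
  · exact ⟨0, 1, 2, by decide, by decide, by decide, h12, h01⟩

theorem core_gap {G : Type} [Fintype G] [Nonempty G] (χ : G → ℤ) (hχ : ∀ σ, χ σ = 1 ∨ χ σ = -1)
    (hsum : ∑ σ, χ σ = 0) (e : Fin 3 → ℤ) (i j k : Fin 3) (hij : i ≠ j) (hjk : j ≠ k)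
    (h1 : e k ≤ e j) (h2 : e j ≤ e i) (L P C : ℝ) (hL : 0 ≤ L)
    (r : G → Fin 3 → ℝ) (hr : ∀ σ l, |r σ l - χ σ * e l * L| ≤ C) (T : G → ℝ)
    (hT : ∀ σ, ∃ l, T σ ≤ C + r σ l) (hTs : Fintype.card G * P ≤ ∑ σ, T σ)
    (hall : ∀ l, e l ≤ e i ∧ e k ≤ e l)
    (hgap : ∀ σ l l' m, l ≠ l' → r σ m ≤ P + C + max (r σ l) (r σ l')) :
    |(e i - e j) * L - P| ≤ 7 * C ∧ |(e j - e k) * L - P| ≤ 7 * C := by
  classical
  have hcard : (0 : ℝ) < Fintype.card G := by exact_mod_cast Fintype.card_pos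
  have hC : 0 ≤ C := (abs_nonneg _).trans (hr (Classical.arbitrary G) 0)
  have h1R : (e k : ℝ) ≤ e j := by exact_mod_cast h1
  have h2R : (e j : ℝ) ≤ e i := by exact_mod_cast h2
  have u1 : ((e i : ℝ) - e j) * L ≤ P + 3 * C := by
    obtain ⟨σ, hσ⟩ : ∃ σ, χ σ = 1 := by
      by_contra hcon
      push Not at hcon
      have h3 : ∑ σ, χ σ = ∑ _σ : G, (-1 : ℤ) :=
        Finset.sum_congr rfl fun σ _ => (hχ σ).resolve_left (hcon σ)
      rw [h3, Finset.sum_const, Finset.card_univ, nsmul_eq_mul] at hsum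
      have h4 : (Fintype.card G : ℤ) ≠ 0 := by exact_mod_cast Fintype.card_pos.ne'
      exact h4 (by linarith)
    have h3 := hgap σ j k i hjk
    have a1 := abs_le.1 (hr σ i)
    have a2 := abs_le.1 (hr σ j)
    have a3 := abs_le.1 (hr σ k)
    rw [hσ, Int.cast_one, one_mul] at a1 a2 a3
    have h4 : max (r σ j) (r σ k) ≤ e j * L + C := by
      refine max_le (by linarith) ?_
      have : (e k : ℝ) * L ≤ e j * L := mul_le_mul_of_nonneg_right h1R hL
      linarith
    have h5 : ((e i : ℝ) - e j) * L = e i * L - e j * L := by ring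
    rw [h5]
    linarith
  have u2 : ((e j : ℝ) - e k) * L ≤ P + 3 * C := by
    obtain ⟨σ, hσ⟩ : ∃ σ, χ σ = -1 := by
      by_contra hcon
      push Not at hcon
      have h3 : ∑ σ, χ σ = ∑ _σ : G, (1 : ℤ) :=
        Finset.sum_congr rfl fun σ _ => (hχ σ).resolve_right (hcon σ)
      rw [h3, Finset.sum_const, Finset.card_univ, nsmul_eq_mul] at hsum
      have h4 : (Fintype.card G : ℤ) ≠ 0 := by exact_mod_cast Fintype.card_pos.ne'
      exact h4 (by linarith)
    have h3 := hgap σ j i k (Ne.symm hij)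
    have a1 := abs_le.1 (hr σ i)
    have a2 := abs_le.1 (hr σ j)
    have a3 := abs_le.1 (hr σ k)
    rw [hσ, Int.cast_neg, Int.cast_one] at a1 a2 a3
    have h4 : max (r σ j) (r σ i) ≤ -1 * e j * L + C := by
      refine max_le (by linarith) ?_
      have : (e j : ℝ) * L ≤ e i * L := mul_le_mul_of_nonneg_right h2R hL
      linarith
    have h5 : ((e j : ℝ) - e k) * L = e j * L - e k * L := by ring
    rw [h5]
    linarith
  have u3 : 2 * P - 4 * C ≤ ((e i : ℝ) - e k) * L := by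
    have h3 : ∀ σ, T σ ≤ 2 * C + (χ σ * ((e i + e k) / 2 * L) + (e i - e k) / 2 * L) := by
      intro σ
      obtain ⟨l, hl⟩ := hT σ
      have a1 := abs_le.1 (hr σ l)
      have b1 : (e l : ℝ) * L ≤ e i * L :=
        mul_le_mul_of_nonneg_right (by exact_mod_cast (hall l).1) hL
      have b2 : (e k : ℝ) * L ≤ e l * L :=
        mul_le_mul_of_nonneg_right (by exact_mod_cast (hall l).2) hL
      rcases hχ σ with h | h <;> rw [h] at a1 ⊢
      · rw [Int.cast_one, one_mul] at a1 ⊢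
        linarith
      · rw [Int.cast_neg, Int.cast_one] at a1 ⊢
        linarith
    have h4 : ∑ σ, T σ ≤ ∑ σ, (2 * C + (χ σ * ((e i + e k) / 2 * L) + (e i - e k) / 2 * L)) :=
      Finset.sum_le_sum fun σ _ => h3 σ
    have h6 : ∑ σ, (χ σ : ℝ) * (((e i : ℝ) + e k) / 2 * L) = 0 := by
      rw [← Finset.sum_mul, ← Int.cast_sum, hsum, Int.cast_zero, zero_mul]
    rw [Finset.sum_add_distrib, Finset.sum_add_distrib, h6, zero_add, Finset.sum_const,
      Finset.sum_const, Finset.card_univ, nsmul_eq_mul, nsmul_eq_mul, ← mul_add] at h4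
    have h5 := le_of_mul_le_mul_left (hTs.trans h4) hcard
    linarith
  have e1 : ((e i : ℝ) - e k) * L = (e i - e j) * L + (e j - e k) * L := by ring
  rw [abs_le, abs_le]
  refine ⟨⟨by linarith, by linarith⟩, ⟨by linarith, by linarith⟩⟩

end Run7.h879.SH
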