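import Pool.Agent.Run7.h879.Sp4

/-!
Solutions of Fermat's equation with `a + b + c = 0`.
-/

set_option autoImplicit false

namespace Run7.h879.Sp

open NumberField IsDedekindDomain Height Pool.Agent.W7.FH Pool.Agent.N449.SP

variable {K : Type} [Field K] [NumberField K]

theorem units_abs : ∃ p0 : ℕ, ∀ p : ℕ, p0 ≤ p → ∀ α β : (𝓞 K)ˣ,
    (algebraMap (𝓞 K) K (α : 𝓞 K)) ^ p + (algebraMap (𝓞 K) K (β : 𝓞 K)) ^ p + 1 = 0 →
    ∀ w : InfinitePlace K, w (algebraMap (𝓞 K) K (α : 𝓞 K)) = 1 ∧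
      w (algebraMap (𝓞 K) K (β : 𝓞 K)) = 1 := by
  classical
  obtain ⟨R, hR⟩ := ue_numberField K (Gam K) gam_fg 3
  obtain ⟨p0, hp0⟩ := abs_one (K := K) (R ∪ R.image fun x => x⁻¹)
  refine ⟨p0, fun p hp α β h => ?_⟩
  obtain ⟨A, hA⟩ : ∃ A : K, A = (algebraMap (𝓞 K) K (α : 𝓞 K)) ^ p := ⟨_, rfl⟩
  obtain ⟨B, hB⟩ : ∃ B : K, B = (algebraMap (𝓞 K) K (β : 𝓞 K)) ^ p := ⟨_, rfl⟩
  rw [← hA, ← hB] at h
  have hmem : ∀ u : (𝓞 K)ˣ, (algebraMap (𝓞 K) K (u : 𝓞 K)) ∈ Pm (Gam K) := fun u =>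
    ⟨Units.map (algebraMap (𝓞 K) K : 𝓞 K →* K) u, ⟨u, rfl⟩, Or.inl rfl⟩
  have hAm : A ∈ Pm (Gam K) := by
    have := hmem (α ^ p)
    rwa [Units.val_pow_eq_pow_val, map_pow, ← hA] at this
  have hBm : B ∈ Pm (Gam K) := by
    have := hmem (β ^ p)
    rwa [Units.val_pow_eq_pow_val, map_pow, ← hB] at this
  have h1m : (1 : K) ∈ Pm (Gam K) := by
    have := hmem 1
    rwa [Units.val_one, map_one] at this
  have hne : ∀ u : (𝓞 K)ˣ, algebraMap (𝓞 K) K (u : 𝓞 K) ≠ 0 := fun u =>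
    RingOfIntegers.coe_ne_zero_iff.2 (Units.ne_zero u)
  have hA0 : A ≠ 0 := by rw [hA]; exact pow_ne_zero _ (hne α)
  have hB0 : B ≠ 0 := by rw [hB]; exact pow_ne_zero _ (hne β)
  have h3 := hR ![A, B, 1] (by
      intro i
      fin_cases i
      · exact hAm
      · exact hBm
      · exact h1m) (by
      rw [Fin.sum_univ_three]
      exact h) (by
      intro J hJ hsum
      by_contra hJu
      -- the sum over the complement vanishes as well
      have e0 : ∑ i ∈ J, (![A, B, 1] : Fin 3 → K) i + ∑ i ∈ Jᶜ, (![A, B, 1] : Fin 3 → K) i = 0 := by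
        rw [Finset.sum_add_sum_compl, Fin.sum_univ_three]
        exact h
      rw [hsum, zero_add] at e0
      have hall : ∀ i, (![A, B, 1] : Fin 3 → K) i ≠ 0 := by
        intro i
        fin_cases i
        · exact hA0
        · exact hB0
        · exact one_ne_zero
      have hcard : J.card + Jᶜ.card = 3 := by
        rw [Finset.card_add_card_compl, Fintype.card_fin]
      have hJ1 : 1 ≤ J.card := hJ.card_pos
      have hJ2 : 1 ≤ Jᶜ.card := by
        rw [Nat.succ_le_iff, Finset.card_pos, Finset.nonempty_iff_ne_empty]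
        intro h0
        apply hJu
        rwa [Finset.compl_eq_empty_iff] at h0
      rcases (by omega : J.card = 1 ∨ Jᶜ.card = 1) with h1 | h1
      · obtain ⟨i, hi⟩ := Finset.card_eq_one.1 h1
        rw [hi, Finset.sum_singleton] at hsum
        exact hall i hsum
      · obtain ⟨i, hi⟩ := Finset.card_eq_one.1 h1
        rw [hi, Finset.sum_singleton] at e0
        exact hall i e0)
  have hAR : A ∈ R := by
    have := h3 0 2
    simpa using this
  have hBR : B ∈ R := by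
    have := h3 1 2
    simpa using this
  have key : ∀ (u : (𝓞 K)ˣ) (X : K), X = (algebraMap (𝓞 K) K (u : 𝓞 K)) ^ p → X ∈ R →
      ∀ w : InfinitePlace K, w (algebraMap (𝓞 K) K (u : 𝓞 K)) = 1 := by
    intro u X hX hXR w
    have e1 := hp0 p hp u (by rw [← hX]; exact Finset.mem_union_left _ hXR) w
    have hinv : algebraMap (𝓞 K) K ((u⁻¹ : (𝓞 K)ˣ) : 𝓞 K) = (algebraMap (𝓞 K) K (u : 𝓞 K))⁻¹ := by
      apply eq_inv_of_mul_eq_one_left
      rw [← map_mul, Units.inv_mul, map_one]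
    have e2 := hp0 p hp u⁻¹ (by
      rw [hinv, inv_pow, ← hX]
      exact Finset.mem_union_right _ (Finset.mem_image_of_mem _ hXR)) w
    rw [hinv, map_inv₀] at e2
    have hpos : 0 < w (algebraMap (𝓞 K) K (u : 𝓞 K)) := InfinitePlace.pos_iff.2 (hne u)
    apply le_antisymm e1
    rwa [inv_le_one₀ hpos] at e2
  exact fun w => ⟨key α A hA hAR w, key β B hB hBR w⟩

/-- solutions with vanishing sum -/
theorem omega_of_sum : ∃ p0 : ℕ, ∀ p : ℕ, p0 ≤ p → ∀ D : Dat K p, D.a + D.b + D.c = 0 →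
    D.a ^ 2 + D.a * D.b + D.b ^ 2 = 0 := by
  obtain ⟨p0, hp0⟩ := units_abs (K := K)
  refine ⟨p0, fun p hp D hs => ?_⟩
  have hU2 : D.U 2 = -D.b := by
    show D.c + D.a = _
    linear_combination hs
  have hα : algebraMap (𝓞 K) K (D.un 1 : 𝓞 K) = D.a / D.b := by
    rw [D.un_eq, hU2]
    have h1 : D.U 1 = -D.a := by
      show D.b + D.c = _
      linear_combination hs
    rw [h1, neg_div_neg_eq]
  have hβ : algebraMap (𝓞 K) K (D.un 0 : 𝓞 K) = D.c / D.b := by
    rw [D.un_eq, hU2]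
    have h1 : D.U 0 = -D.c := by
      show D.a + D.b = _
      linear_combination hs
    rw [h1, neg_div_neg_eq]
  have hb := D.hb
  have h1 := hp0 p hp (D.un 1) (D.un 0) (by
    rw [hα, hβ, div_pow, div_pow]
    have hbp : D.b ^ p ≠ 0 := pow_ne_zero _ hb
    field_simp
    linear_combination D.h)
  obtain ⟨w⟩ : Nonempty (InfinitePlace K) := inferInstance
  obtain ⟨a1, b1⟩ := h1 w
  rw [hα, ← InfinitePlace.norm_embedding_eq] at a1
  rw [hβ, ← InfinitePlace.norm_embedding_eq] at b1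
  have h4 : w.embedding (D.a / D.b) + w.embedding (D.c / D.b) + 1 = 0 := by
    rw [← map_add, ← map_one w.embedding, ← map_add, ← map_zero w.embedding]
    congr 1
    field_simp
    linear_combination hs
  obtain ⟨z, hz⟩ : ∃ z, z = w.embedding (D.a / D.b) := ⟨_, rfl⟩
  obtain ⟨y, hy⟩ : ∃ y, y = w.embedding (D.c / D.b) := ⟨_, rfl⟩
  rw [← hz] at a1 h4
  rw [← hy] at b1 h4
  have c1 : z * (starRingEnd ℂ) z = 1 := by
    rw [Complex.mul_conj, Complex.normSq_eq_norm_sq, a1]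
    norm_num
  have c2 : y * (starRingEnd ℂ) y = 1 := by
    rw [Complex.mul_conj, Complex.normSq_eq_norm_sq, b1]
    norm_num
  have c3 : y = -1 - z := by linear_combination h4
  rw [c3, map_sub, map_neg, map_one] at c2
  have c4 : z + (starRingEnd ℂ) z = -1 := by linear_combination c2 - c1
  have c5 : z ^ 2 + z + 1 = 0 := by linear_combination z * c4 - c1
  have c6 : (D.a / D.b) ^ 2 + D.a / D.b + 1 = 0 := by
    apply w.embedding.injective
    rw [map_add, map_add, map_pow, map_one, map_zero, ← hz]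
    exact c5
  field_simp at c6
  linear_combination c6

end Run7.h879.Sp
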