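import Mathlib
import Pool.Agent.Run7.h879.SH.Inst2
import Pool.Agent.Run7.h879.SH.Om
import Pool.Agent.Run7.h879.Sp6

/-!
Sequences of small solutions and their germs.
-/

set_option autoImplicit false
set_option linter.unusedSectionVars false

open MvPolynomial Filter

namespace Run7.h879.SH

open NumberField IsDedekindDomain
open Pool.Agent.Y742.SF Pool.Agent.Y742.AR Pool.Agent.N754.LT
open Pool.Agent.TH286.GT.GrowD (sg sg_coe sg_inj)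
open Run7.h879.Sp Pool.Agent.W7.FH

/-- a sequence of small solutions -/
structure Sq (K : Type) [Field K] [NumberField K] where
  pt : ℕ → ℕ
  hp : ∀ t, (pt t).Prime
  hge : ∀ t, t ≤ pt t
  h5 : ∀ t, 5 ≤ pt t
  hd : ∀ t, ¬ ((pt t : ℤ) ∣ discr K)
  E : ∀ t, Dat K (pt t)
  A : ℝ
  hA : 0 ≤ A
  hh : ∀ t, (E t).ht ≤ A * Real.log (pt t)
  hs : ∀ t, (E t).a + (E t).b + (E t).c ≠ 0

variable {K : Type} [Field K] [NumberField K]

/-- `p` divides the sum -/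
theorem exists_om {p : ℕ} (hp : p.Prime) (hd : ¬ (p : ℤ) ∣ discr K) (D : Dat K p) (j : Fin 3) :
    ∃ ω : 𝓞 K, (ω : K) * ((p : K) * D.U j) = D.a + D.b + D.c := by
  have hca : D.c + D.a ≠ 0 := D.hU0 2
  have h1 := sum_le_of_units hp hd D.h hca (fun v => D.hU v 2)
  have hp0 : (p : K) ≠ 0 := by exact_mod_cast hp.ne_zero
  have hne : (p : K) * D.U j ≠ 0 := mul_ne_zero hp0 (D.U_ne j)
  have h2 : IsIntegral ℤ ((D.a + D.b + D.c) / ((p : K) * D.U j)) := by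
    apply isIntegral_of_le
    intro v
    have e1 : v (D.U j) = mx v D.a D.b D.c := D.hU v j
    rw [map_div₀, map_mul, e1]
    have hpos : 0 < v (p : K) * mx v D.a D.b D.c := by
      rw [← e1, ← map_mul]
      exact FinitePlace.pos_iff.mpr hne
    rw [div_le_one hpos]
    exact h1 v
  exact ⟨⟨_, h2⟩, div_mul_cancel₀ _ hne⟩

namespace Sq

variable (Q : Sq K) {M : Type} [Field M] [NumberField M] [Algebra K M]

/-- the units in the Galois closure -/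
noncomputable def fM (M : Type) [Field M] [NumberField M] [Algebra K M] (j : Fin 3) (t : ℕ) :
    (𝓞 M)ˣ :=
  Units.map (algebraMap (𝓞 K) (𝓞 M) : 𝓞 K →* 𝓞 M) ((Q.E t).un j)

theorem fM_coe (j : Fin 3) (t : ℕ) : ((Q.fM M j t : 𝓞 M) : M) =
    algebraMap K M ((Q.E t).U j / (Q.E t).U 2) := by
  rw [← (Q.E t).un_eq]
  rfl

theorem fM_two (t : ℕ) : Q.fM M 2 t = 1 := by
  apply Units.ext
  apply RingOfIntegers.ext
  have h1 := Q.fM_coe (M := M) 2 t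
  rw [div_self ((Q.E t).U_ne 2), map_one] at h1
  rw [h1]
  exact (map_one (algebraMap (𝓞 M) M)).symm

theorem log_fM (j : Fin 3) (t : ℕ) (φ : M →+* ℂ) :
    |Real.log ‖φ ((Q.fM M j t : 𝓞 M) : M)‖| ≤
      Q.A * Real.log (Q.pt t) + Module.finrank ℚ K + 1 := by
  have h1 : ‖φ ((Q.fM M j t : 𝓞 M) : M)‖ =
      InfinitePlace.mk (φ.comp (algebraMap K M)) ((Q.E t).U j / (Q.E t).U 2) := by
    rw [InfinitePlace.apply, RingHom.comp_apply, Q.fM_coe]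
  have h2 := (Q.E t).log_un j (InfinitePlace.mk (φ.comp (algebraMap K M)))
  rw [(Q.E t).un_eq] at h2
  rw [h1, h2]
  exact diff_le _ (Q.hh t) _ _ _

/-- the quotients of the sums by the prime -/
noncomputable def om (j : Fin 3) (t : ℕ) : 𝓞 K := (exists_om (Q.hp t) (Q.hd t) (Q.E t) j).choose

theorem om_spec (j : Fin 3) (t : ℕ) : (Q.om j t : K) * ((Q.pt t : K) * (Q.E t).U j) =
    (Q.E t).a + (Q.E t).b + (Q.E t).c := (exists_om (Q.hp t) (Q.hd t) (Q.E t) j).choose_spec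

theorem hp0 (t : ℕ) : 1 ≤ Q.pt t := by have := Q.h5 t; omega

variable [IsGalois ℚ M] {D : PD M} (hs : D.s = 0) {𝒰 : Ultrafilter ℕ}

include hs in
theorem bd_of_log (f : ℕ → M) (hf : ∀ t, f t ≠ 0) (C : ℝ) (hC : 0 ≤ C)
    (h : ∀ t (φ : M →+* ℂ), Real.log ‖φ (f t)‖ ≤ C * Np Q.pt t) : Bd D (Np Q.pt) 𝒰 f := by
  refine ⟨C, hC, Filter.Eventually.of_forall fun t v => ?_⟩
  rcases v with σ | w
  · have h1 := h t (D.ψ.comp (σ : M →+* M))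
    have h2 : 0 < ‖D.ψ (σ (f t))‖ := by
      rw [norm_pos_iff]
      exact (map_ne_zero _).2 ((map_ne_zero _).2 (hf t))
    exact (Real.log_le_iff_le_exp h2).1 h1
  · exact absurd w.2 (by omega)

theorem log_bound (t : ℕ) : Q.A * Real.log (Q.pt t) + Module.finrank ℚ K + 1 ≤
    (Q.A + Module.finrank ℚ K + 1) * Np Q.pt t := by
  have h1 : 0 ≤ Real.log (Q.pt t) := Real.log_nonneg (by exact_mod_cast Q.hp0 t)
  have h2 := Q.hA
  have h3 : (0 : ℝ) ≤ Module.finrank ℚ K := Nat.cast_nonneg _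
  unfold Np
  nlinarith [mul_nonneg h3 h1]

include hs in
theorem bd1 (j : Fin 3) : Bd D (Np Q.pt) 𝒰 (fun t => ((Q.fM M j t : 𝓞 M) : M)) := by
  refine Q.bd_of_log hs _ (fun t => RingOfIntegers.coe_ne_zero_iff.2 (Units.ne_zero _))
    (Q.A + Module.finrank ℚ K + 1) (by have := Q.hA; positivity) fun t φ => ?_
  exact ((le_abs_self _).trans (Q.log_fM j t φ)).trans (Q.log_bound t)

theorem coe_inv (u : (𝓞 M)ˣ) : (((u⁻¹ : (𝓞 M)ˣ) : 𝓞 M) : M) = (((u : 𝓞 M) : M))⁻¹ := by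
  refine eq_inv_of_mul_eq_one_left ?_
  have h1 : (((u⁻¹ : (𝓞 M)ˣ) : 𝓞 M) : M) * ((u : 𝓞 M) : M) = ((u⁻¹ * u : (𝓞 M)ˣ) : 𝓞 M) := by
    rw [Units.val_mul]
    exact (map_mul (algebraMap (𝓞 M) M) _ _).symm
  rw [h1, inv_mul_cancel, Units.val_one]
  exact map_one (algebraMap (𝓞 M) M)

include hs in
theorem bd2 (j : Fin 3) : Bd D (Np Q.pt) 𝒰 (fun t => ((((Q.fM M j t)⁻¹ : (𝓞 M)ˣ) : 𝓞 M) : M)) := by
  refine Q.bd_of_log hs _ (fun t => RingOfIntegers.coe_ne_zero_iff.2 (Units.ne_zero _))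
    (Q.A + Module.finrank ℚ K + 1) (by have := Q.hA; positivity) fun t φ => ?_
  rw [coe_inv, map_inv₀, norm_inv, Real.log_inv]
  exact ((neg_le_abs _).trans (Q.log_fM j t φ)).trans (Q.log_bound t)

/-- the germs of the units -/
noncomputable def Xg (𝒰 : Ultrafilter ℕ) (j : Fin 3) : WH D 𝒰 (Np Q.pt) (one_le_Np Q.pt Q.hp0) :=
  mkU (Q.fM M j) (Q.bd1 hs j) (Q.bd2 hs j)

/-- the germs of the units, as elements -/
noncomputable def Xr (𝒰 : Ultrafilter ℕ) (j : Fin 3) : RA D 𝒰 (Np Q.pt) (one_le_Np Q.pt Q.hp0) :=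
  ((Q.Xg (M := M) (D := D) hs 𝒰 j).1 : (RA D 𝒰 (Np Q.pt) (one_le_Np Q.pt Q.hp0))ˣ).val

theorem vl_Xg (j : Fin 3) : vl D 𝒰 (Np Q.pt) (one_le_Np Q.pt Q.hp0) (Q.Xr (M := M) hs 𝒰 j) =
      gm 𝒰 (fun t => ((Q.fM M j t : 𝓞 M) : M)) := rfl

theorem Xg_two : Q.Xg (M := M) (D := D) hs 𝒰 2 = 1 := by
  apply Subtype.ext
  apply Units.ext
  apply vl_inj
  show gm 𝒰 (fun t => ((Q.fM M 2 t : 𝓞 M) : M)) = (1 : GK M 𝒰)
  rw [← map_one (gm 𝒰)]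
  congr 1
  funext t
  rw [Q.fM_two]
  rfl

/-- the identity for the sum -/
theorem sum_eq (t : ℕ) (j : Fin 3) : (Q.E t).U 0 + (Q.E t).U 1 + (Q.E t).U 2 =
    (Q.pt t : K) * (2 * (Q.om j t : K)) * (Q.E t).U j := by
  have h1 : (Q.E t).U 0 + (Q.E t).U 1 + (Q.E t).U 2 =
      2 * ((Q.E t).a + (Q.E t).b + (Q.E t).c) := by
    show (Q.E t).a + (Q.E t).b + ((Q.E t).b + (Q.E t).c) + ((Q.E t).c + (Q.E t).a) = _
    ring
  rw [h1, ← Q.om_spec j t]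
  ring

theorem sum_fM (t : ℕ) : ((Q.fM M 0 t : 𝓞 M) : M) + ((Q.fM M 1 t : 𝓞 M) : M) +
    ((Q.fM M 2 t : 𝓞 M) : M) = (Q.pt t : M) * (2 * algebraMap K M (Q.om 2 t)) := by
  rw [Q.fM_coe, Q.fM_coe, Q.fM_coe, ← map_add, ← map_add, ← add_div, ← add_div, Q.sum_eq t 2]
  have h2 := (Q.E t).U_ne 2
  rw [mul_div_assoc, div_self h2, mul_one, map_mul, map_mul, map_natCast, map_ofNat]

include hs in
theorem bdW : Bd D (Np Q.pt) 𝒰 (fun t => 2 * algebraMap K M (Q.om 2 t)) := by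
  have h1 := ((Q.bd1 (M := M) (𝒰 := 𝒰) hs 0).add (one_le_Np Q.pt Q.hp0)
    (Q.bd1 (M := M) (𝒰 := 𝒰) hs 1)).add (one_le_Np Q.pt Q.hp0) (Q.bd1 (M := M) (𝒰 := 𝒰) hs 2)
  obtain ⟨C, hC, h2⟩ := h1
  refine ⟨C, hC, ?_⟩
  filter_upwards [h2] with t ht v
  refine le_trans ?_ (ht v)
  have e1 := Q.sum_fM (M := M) t
  show _ ≤ D.av v (((Q.fM M 0 t : 𝓞 M) : M) + ((Q.fM M 1 t : 𝓞 M) : M) +
    ((Q.fM M 2 t : 𝓞 M) : M))
  rw [e1, D.av_mul v (Q.pt t : M)]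
  have h3 : 1 ≤ D.av v ((Q.pt t : ℕ) : M) := by
    rcases v with σ | w
    · show 1 ≤ ‖D.ψ (σ ((Q.pt t : ℕ) : M))‖
      rw [map_natCast, map_natCast, Complex.norm_natCast]
      exact_mod_cast Q.hp0 t
    · exact absurd w.2 (by omega)
  exact le_mul_of_one_le_left (D.av_nonneg _ _) h3

/-- the germ of the quotient -/
noncomputable def Wg (𝒰 : Ultrafilter ℕ) : RA D 𝒰 (Np Q.pt) (one_le_Np Q.pt Q.hp0) :=
  mk' (fun t => 2 * algebraMap K M (Q.om 2 t)) ((ti_int fun t =>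
    2 * algebraMap (𝓞 K) (𝓞 M) (Q.om 2 t)).congr (Filter.Eventually.of_forall fun _ => by
      refine (map_mul (algebraMap (𝓞 M) M) _ _).trans ?_
      rw [map_ofNat]
      rfl)) (Q.bdW hs)

theorem pt_tendsto (h𝒰 : (𝒰 : Filter ℕ) ≤ atTop) : Tendsto Q.pt (𝒰 : Filter ℕ) atTop :=
  (tendsto_atTop_mono Q.hge tendsto_id).mono_left h𝒰

/-- the system -/
noncomputable abbrev S (h𝒰 : (𝒰 : Filter ℕ) ≤ atTop) :
    Sys M (RA D 𝒰 (Np Q.pt) (one_le_Np Q.pt Q.hp0)) (M ≃ₐ[ℚ] M) :=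
  sys hs Q.pt Q.hp0 (Q.pt_tendsto h𝒰)

theorem main_eq (h𝒰 : (𝒰 : Filter ℕ) ≤ atTop) :
    Q.Xr (M := M) hs 𝒰 0 + Q.Xr hs 𝒰 1 + Q.Xr hs 𝒰 2 = (Q.S hs h𝒰).g * Q.Wg hs 𝒰 := by
  apply vl_inj
  show gm 𝒰 _ + gm 𝒰 _ + gm 𝒰 _ = gm 𝒰 _ * gm 𝒰 _
  rw [← map_add, ← map_add, ← map_mul]
  congr 1
  funext t
  exact Q.sum_fM t

end Sq

end Run7.h879.SH
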