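import Mathlib
import Pool.Agent.Run7.h879.SH.Seq
import Pool.Agent.Run7.h879.SH.Lg
import Pool.Agent.Run7.h879.SH.Gap

/-!
The case of rank one: estimates.
-/

set_option autoImplicit false
set_option linter.unusedSectionVars false

open MvPolynomial Filter

namespace Run7.h879.SH

open NumberField IsDedekindDomain
open Pool.Agent.Y742.SF Pool.Agent.Y742.AR Pool.Agent.N754.LT
open Pool.Agent.TH286.GT.GrowD (sg sg_coe sg_inj)
open Run7.h879.Sp Pool.Agent.W7.FH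

namespace Sq

variable {K : Type} [Field K] [NumberField K]
variable (Q : Sq K) {M : Type} [Field M] [NumberField M] [Algebra K M] [IsGalois ℚ M] {D : PD M}

/-- the logarithms of the conjugates -/
noncomputable def rr (D : PD M) (σ : M ≃ₐ[ℚ] M) (j : Fin 3) (t : ℕ) : ℝ :=
  Real.log ‖D.ψ (σ ((Q.fM M j t : 𝓞 M) : M))‖

theorem rr_eq (σ : M ≃ₐ[ℚ] M) (j : Fin 3) (t : ℕ) : Q.rr D σ j t =
    (Q.E t).t 2 (InfinitePlace.mk ((D.ψ.comp (σ : M →+* M)).comp (algebraMap K M))) -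
    (Q.E t).t j (InfinitePlace.mk ((D.ψ.comp (σ : M →+* M)).comp (algebraMap K M))) := by
  rw [← Dat.log_un, (Q.E t).un_eq, InfinitePlace.apply]
  unfold rr
  rw [Q.fM_coe]
  rfl

theorem gap (σ : M ≃ₐ[ℚ] M) (t : ℕ) (l l' m : Fin 3) (hl : l ≠ l') :
    Q.rr D σ m t ≤ Real.log (Q.pt t) + 4 + max (Q.rr D σ l t) (Q.rr D σ l' t) := by
  have hodd : Odd (Q.pt t) := (Q.hp t).odd_of_ne_two (by have := Q.h5 t; omega)
  have h1 := (Q.E t).good_or (Q.hp0 t) hodd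
    (InfinitePlace.mk ((D.ψ.comp (σ : M →+* M)).comp (algebraMap K M))) l l' hl
  have h2 := (Q.E t).neg_le_t m
    (InfinitePlace.mk ((D.ψ.comp (σ : M →+* M)).comp (algebraMap K M)))
  rw [Q.rr_eq, Q.rr_eq, Q.rr_eq]
  have hp : (0 : ℝ) < Q.pt t := by exact_mod_cast (Q.hp0 t)
  have h3 : Real.log (8 * Q.pt t) + Real.log 2 ≤ Real.log (Q.pt t) + 4 := by
    rw [Real.log_mul (by norm_num) hp.ne']
    have h4 : Real.log 8 = 3 * Real.log 2 := by
      rw [show (8 : ℝ) = 2 ^ 3 by norm_num, Real.log_pow]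
      norm_num
    have h5 := log2_le
    rw [h4]
    linarith
  rcases h1 with h1 | h1 <;> unfold Dat.Good at h1
  · have := le_max_left ((Q.E t).t 2 (InfinitePlace.mk ((D.ψ.comp (σ : M →+* M)).comp
      (algebraMap K M))) - (Q.E t).t l (InfinitePlace.mk ((D.ψ.comp (σ : M →+* M)).comp
      (algebraMap K M)))) ((Q.E t).t 2 (InfinitePlace.mk ((D.ψ.comp (σ : M →+* M)).comp
      (algebraMap K M))) - (Q.E t).t l' (InfinitePlace.mk ((D.ψ.comp (σ : M →+* M)).comp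
      (algebraMap K M))))
    linarith
  · have := le_max_right ((Q.E t).t 2 (InfinitePlace.mk ((D.ψ.comp (σ : M →+* M)).comp
      (algebraMap K M))) - (Q.E t).t l (InfinitePlace.mk ((D.ψ.comp (σ : M →+* M)).comp
      (algebraMap K M)))) ((Q.E t).t 2 (InfinitePlace.mk ((D.ψ.comp (σ : M →+* M)).comp
      (algebraMap K M))) - (Q.E t).t l' (InfinitePlace.mk ((D.ψ.comp (σ : M →+* M)).comp
      (algebraMap K M))))
    linarith

theorem log3_le : Real.log 3 ≤ 4 := by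
  have := Real.log_le_sub_one_of_pos (show (0 : ℝ) < 3 by norm_num)
  linarith

/-- the sum of the units -/
noncomputable def sm (M : Type) [Field M] [NumberField M] [Algebra K M] (t : ℕ) : M :=
  ((Q.fM M 0 t : 𝓞 M) : M) + ((Q.fM M 1 t : 𝓞 M) : M) + ((Q.fM M 2 t : 𝓞 M) : M)

theorem om_ne (j : Fin 3) (t : ℕ) : Q.om j t ≠ 0 := by
  intro h
  have h1 := Q.om_spec j t
  have h0 : ((0 : 𝓞 K) : K) = 0 := map_zero (algebraMap (𝓞 K) K)
  rw [h, h0, zero_mul] at h1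
  exact Q.hs t h1.symm

theorem sm_eq (t : ℕ) : Q.sm M t = (Q.pt t : M) * (2 * algebraMap K M (Q.om 2 t)) := Q.sum_fM t

theorem om2_ne (j : Fin 3) (t : ℕ) : (2 * algebraMap K M (Q.om j t) : M) ≠ 0 := by
  refine mul_ne_zero two_ne_zero ?_
  refine (map_ne_zero _).2 ?_
  exact RingOfIntegers.coe_ne_zero_iff.2 (Q.om_ne j t)

theorem pM_ne (t : ℕ) : (Q.pt t : M) ≠ 0 := by
  have := (Q.hp t).ne_zero
  exact_mod_cast this

theorem sm_ne (t : ℕ) : Q.sm M t ≠ 0 := by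
  rw [sm_eq]
  exact mul_ne_zero (Q.pM_ne t) (Q.om2_ne 2 t)

theorem top (σ : M ≃ₐ[ℚ] M) (t : ℕ) : ∃ l, Real.log ‖D.ψ (σ (Q.sm M t))‖ ≤ 4 + Q.rr D σ l t := by
  have hpos : ∀ j, 0 < ‖D.ψ (σ ((Q.fM M j t : 𝓞 M) : M))‖ := fun j =>
    ψ_pos D ((map_ne_zero _).2 (RingOfIntegers.coe_ne_zero_iff.2 (Units.ne_zero _)))
  obtain ⟨l, -, hl⟩ := Finset.exists_max_image (Finset.univ : Finset (Fin 3))
    (fun j => ‖D.ψ (σ ((Q.fM M j t : 𝓞 M) : M))‖) ⟨0, Finset.mem_univ _⟩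
  refine ⟨l, ?_⟩
  have h1 : ‖D.ψ (σ (Q.sm M t))‖ ≤ 3 * ‖D.ψ (σ ((Q.fM M l t : 𝓞 M) : M))‖ := by
    unfold sm
    rw [map_add, map_add, map_add, map_add]
    refine (norm_add₃_le).trans ?_
    have := hl 0 (Finset.mem_univ _)
    have := hl 1 (Finset.mem_univ _)
    have := hl 2 (Finset.mem_univ _)
    linarith
  have h2 := Real.log_le_log (ψ_pos D ((map_ne_zero _).2 (Q.sm_ne t))) h1
  rw [Real.log_mul (by norm_num) (hpos l).ne'] at h2
  have := log3_le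
  unfold rr
  linarith

theorem norm_ge (hs : D.s = 0) (t : ℕ) : Fintype.card (M ≃ₐ[ℚ] M) * Real.log (Q.pt t) ≤
    ∑ σ : M ≃ₐ[ℚ] M, Real.log ‖D.ψ (σ (Q.sm M t))‖ := by
  have h1 : ∀ σ : M ≃ₐ[ℚ] M, Real.log ‖D.ψ (σ (Q.sm M t))‖ = Real.log (Q.pt t) +
      Real.log ‖D.ψ (σ (((2 * algebraMap (𝓞 K) (𝓞 M) (Q.om 2 t) : 𝓞 M)) : M))‖ := by
    intro σ
    have h2 : (((2 * algebraMap (𝓞 K) (𝓞 M) (Q.om 2 t) : 𝓞 M)) : M) =
        2 * algebraMap K M (Q.om 2 t) := by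
      refine (map_mul (algebraMap (𝓞 M) M) _ _).trans ?_
      rw [map_ofNat]
      rfl
    have hp : (0 : ℝ) < Q.pt t := by exact_mod_cast (Q.hp0 t)
    rw [h2, sm_eq, map_mul, map_mul, norm_mul, map_natCast, map_natCast, Complex.norm_natCast,
      Real.log_mul hp.ne' (ψ_pos D ((map_ne_zero _).2 (Q.om2_ne 2 t))).ne']
  rw [Finset.sum_congr rfl fun σ _ => h1 σ, Finset.sum_add_distrib, Finset.sum_const,
    Finset.card_univ, nsmul_eq_mul]
  have h3 := sum_log_nonneg (D := D) hs (2 * algebraMap (𝓞 K) (𝓞 M) (Q.om 2 t) : 𝓞 M) (by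
    intro h
    have h2 : (((2 * algebraMap (𝓞 K) (𝓞 M) (Q.om 2 t) : 𝓞 M)) : M) =
        2 * algebraMap K M (Q.om 2 t) := by
      refine (map_mul (algebraMap (𝓞 M) M) _ _).trans ?_
      rw [map_ofNat]
      rfl
    rw [h] at h2
    exact Q.om2_ne (M := M) 2 t (h2.symm.trans (map_zero (algebraMap (𝓞 M) M))))
  linarith

end Sq

end Run7.h879.SH
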