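import Mathlib
import Pool.Agent.Run7.h879.SH.R1

/-!
The case of rank one: the exponents.
-/

set_option autoImplicit false
set_option linter.unusedSectionVars false

open MvPolynomial Filter

namespace Run7.h879.SH

open NumberField IsDedekindDomain
open Pool.Agent.Y742.SF Pool.Agent.Y742.AR Pool.Agent.N754.LT
open Pool.Agent.TH286.GT.GrowD (sg sg_coe sg_inj)
open Run7.h879.Sp Pool.Agent.W7.FH

theorem fin3 : ∀ i j k l : Fin 3, i ≠ j → j ≠ k → i ≠ k → l = i ∨ l = j ∨ l = k := by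
  decide

namespace Sq

variable {K : Type} [Field K] [NumberField K]
variable (Q : Sq K) {M : Type} [Field M] [NumberField M] [Algebra K M] [IsGalois ℚ M] {D : PD M}
  (hs : D.s = 0) {𝒰 : Ultrafilter ℕ} (h𝒰 : (𝒰 : Filter ℕ) ≤ atTop)

/-- the germs of the units in the system -/
noncomputable def Xs (j : Fin 3) : (Q.S (M := M) hs h𝒰).W := Q.Xg hs 𝒰 j

theorem Xs_two : Q.Xs (M := M) hs h𝒰 2 = 1 := Q.Xg_two hs

theorem sq_Xs (j : Fin 3) : ∀ᶠ t in (𝒰 : Filter ℕ),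
    ((sqS hs (Q.pt_tendsto h𝒰) (Q.Xs (M := M) hs h𝒰 j) t : 𝓞 M) : M) = ((Q.fM M j t : 𝓞 M) : M) :=
  sqS_eq hs (Q.pt_tendsto h𝒰) (Q.Xs (M := M) hs h𝒰 j) _ rfl

theorem lg_Xs (j : Fin 3) (σ : M ≃ₐ[ℚ] M) : ∀ᶠ t in (𝒰 : Filter ℕ),
    lg hs (Q.pt_tendsto h𝒰) ((Q.S hs h𝒰).act σ (Q.Xs (M := M) hs h𝒰 j)) t = Q.rr D σ j t := by
  filter_upwards [lg_act hs (Q.pt_tendsto h𝒰) σ (Q.Xs (M := M) hs h𝒰 j), Q.sq_Xs hs h𝒰 j]
    with t h1 h2
  rw [h1, h2]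
  rfl

/-- the exponents are in arithmetic progression -/
theorem progression (t0 : (Q.S (M := M) hs h𝒰).W) 
    (hgrow : Tendsto (lg hs (Q.pt_tendsto h𝒰) t0) (𝒰 : Filter ℕ) atTop)
    (χ : (M ≃ₐ[ℚ] M) → ℤ) (hχ : ∀ σ, χ σ = 1 ∨ χ σ = -1)
    (hσ : ∀ σ, (Q.S hs h𝒰).π ((Q.S hs h𝒰).act σ t0) = χ σ • (Q.S hs h𝒰).π t0)
    (e : Fin 3 → ℤ) (he : ∀ j, (Q.S hs h𝒰).π (Q.Xs hs h𝒰 j) = e j • (Q.S hs h𝒰).π t0)
    (hne : ¬ ∀ i j, e i = e j) :
    ∃ (i j k : Fin 3) (q : ℤ) (C : ℝ), i ≠ j ∧ j ≠ k ∧ i ≠ k ∧ q ≠ 0 ∧ e i = e j + q ∧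
      e k = e j - q ∧ ∀ᶠ t in (𝒰 : Filter ℕ), ∀ σ,
        Q.rr D σ i t ≤ Q.rr D σ j t + Real.log (Q.pt t) + C ∧
        Q.rr D σ k t ≤ Q.rr D σ j t + Real.log (Q.pt t) + C := by
  classical
  have hpt := Q.pt_tendsto h𝒰
  -- the constant
  have h1 : ∀ σ j, ∃ C : ℝ, ∀ᶠ t in (𝒰 : Filter ℕ),
      |Q.rr D σ j t - χ σ * e j * lg hs (Q.pt_tendsto h𝒰) t0 t| ≤ C := by
    intro σ j
    have h2 : (Q.S hs h𝒰).π ((Q.S hs h𝒰).act σ (Q.Xs hs h𝒰 j)) =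
        (χ σ * e j) • (Q.S hs h𝒰).π t0 := by
      rw [(Q.S hs h𝒰).π_act_of σ _ t0 (e j) (he j), hσ, smul_smul, mul_comm]
    obtain ⟨C, hC⟩ := lg_of_π hs (Q.pt_tendsto h𝒰) _ _ _ h2
    refine ⟨C, ?_⟩
    filter_upwards [hC, Q.lg_Xs hs h𝒰 j σ] with t k1 k2
    rw [k2] at k1
    push_cast at k1
    exact k1
  choose C0 hC0 using h1
  obtain ⟨C, hCdef⟩ : ∃ C : ℝ, C = 4 + ∑ σ, ∑ j, |C0 σ j| := ⟨_, rfl⟩
  have hCle : ∀ σ j, C0 σ j ≤ C := by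
    intro σ j
    have a1 : |C0 σ j| ≤ ∑ j, |C0 σ j| := Finset.single_le_sum (f := fun j => |C0 σ j|)
      (fun _ _ => abs_nonneg _) (Finset.mem_univ j)
    have a2 : ∑ j, |C0 σ j| ≤ ∑ σ, ∑ j, |C0 σ j| :=
      Finset.single_le_sum (f := fun σ => ∑ j, |C0 σ j|)
        (fun _ _ => Finset.sum_nonneg fun _ _ => abs_nonneg _) (Finset.mem_univ σ)
    have a3 := le_abs_self (C0 σ j)
    rw [hCdef]
    linarith
  have hC4 : 4 ≤ C := by
    rw [hCdef]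
    have : 0 ≤ ∑ σ, ∑ j, |C0 σ j| :=
      Finset.sum_nonneg fun _ _ => Finset.sum_nonneg fun _ _ => abs_nonneg _
    linarith
  have hr : ∀ᶠ t in (𝒰 : Filter ℕ), ∀ σ j,
      |Q.rr D σ j t - χ σ * e j * lg hs (Q.pt_tendsto h𝒰) t0 t| ≤ C := by
    rw [Filter.eventually_all]
    intro σ
    rw [Filter.eventually_all]
    intro j
    filter_upwards [hC0 σ j] with t ht
    exact ht.trans (hCle σ j)
  -- the signs sum to zero
  have hsum : ∑ σ, χ σ = 0 := by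
    have h2 : ∀ σ, ∃ C : ℝ, ∀ᶠ t in (𝒰 : Filter ℕ),
        |lg hs (Q.pt_tendsto h𝒰) ((Q.S hs h𝒰).act σ t0) t -
          χ σ * lg hs (Q.pt_tendsto h𝒰) t0 t| ≤ C := fun σ =>
      lg_of_π hs (Q.pt_tendsto h𝒰) _ _ _ (hσ σ)
    choose C1 hC1 using h2
    have h3 : ∀ᶠ t in (𝒰 : Filter ℕ), ∀ σ,
        |lg hs (Q.pt_tendsto h𝒰) ((Q.S hs h𝒰).act σ t0) t -
          χ σ * lg hs (Q.pt_tendsto h𝒰) t0 t| ≤ C1 σ := by
      rw [Filter.eventually_all]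
      exact hC1
    by_contra hne0
    obtain ⟨t, k1, k2, k3⟩ := (h3.and ((lg_sum hs (Q.pt_tendsto h𝒰) t0).and
      (hgrow.eventually_ge_atTop (∑ σ, C1 σ + 1)))).exists
    have h4 : |∑ σ, (lg hs (Q.pt_tendsto h𝒰) ((Q.S hs h𝒰).act σ t0) t -
          χ σ * lg hs (Q.pt_tendsto h𝒰) t0 t)| ≤ ∑ σ, C1 σ :=
      (Finset.abs_sum_le_sum_abs _ _).trans (Finset.sum_le_sum fun σ _ => k1 σ)
    rw [Finset.sum_sub_distrib, k2, zero_sub, abs_neg, ← Finset.sum_mul, abs_mul,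
      ← Int.cast_sum] at h4
    have h5 : (1 : ℝ) ≤ |((∑ σ, χ σ : ℤ) : ℝ)| := by
      rw [← Int.cast_abs]
      exact_mod_cast Int.one_le_abs hne0
    have h6 := le_abs_self (lg hs (Q.pt_tendsto h𝒰) t0 t)
    have h7 := mul_le_mul_of_nonneg_right h5 (abs_nonneg (lg hs (Q.pt_tendsto h𝒰) t0 t))
    linarith
  -- the order of the exponents
  obtain ⟨i, j, k, hij, hjk, hik, hkj, hji⟩ := exists_ord e
  have hall : ∀ l, e l ≤ e i ∧ e k ≤ e l := by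
    intro l
    have h2 : l = i ∨ l = j ∨ l = k := fin3 i j k l hij hjk hik
    rcases h2 with rfl | rfl | rfl
    · exact ⟨le_rfl, by linarith⟩
    · exact ⟨hji, hkj⟩
    · exact ⟨by linarith, le_rfl⟩
  have : Nonempty (M ≃ₐ[ℚ] M) := ⟨1⟩
  have hcore : ∀ᶠ t in (𝒰 : Filter ℕ),
      |((e i : ℝ) - e j) * lg hs (Q.pt_tendsto h𝒰) t0 t - Real.log (Q.pt t)| ≤ 7 * C ∧
      |((e j : ℝ) - e k) * lg hs (Q.pt_tendsto h𝒰) t0 t - Real.log (Q.pt t)| ≤ 7 * C := by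
    filter_upwards [hr, hgrow.eventually_ge_atTop 0] with t k1 k2
    refine core_gap χ hχ hsum e i j k hij hjk hkj hji _ _ C k2 (fun σ j => Q.rr D σ j t) k1
      (fun σ => Real.log ‖D.ψ (σ (Q.sm M t))‖) (fun σ => ?_) (Q.norm_ge hs t) hall
      (fun σ l l' m hl => ?_)
    · obtain ⟨l, hl⟩ := Q.top σ t (D := D)
      exact ⟨l, by linarith⟩
    · have := Q.gap σ t l l' m hl (D := D)
      linarith
  have hq : e i - e j = e j - e k := by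
    obtain ⟨t, k1, k2⟩ := (hcore.and (hgrow.eventually_ge_atTop (14 * C + 1))).exists
    by_contra hne0
    have h2 : (1 : ℝ) ≤ |((e i - e j - (e j - e k) : ℤ) : ℝ)| := by
      rw [← Int.cast_abs]
      exact_mod_cast Int.one_le_abs (sub_ne_zero.2 hne0)
    push_cast at h2
    have h3 : |((e i : ℝ) - e j - (e j - e k)) * lg hs (Q.pt_tendsto h𝒰) t0 t| ≤ 14 * C := by
      have h4 : ((e i : ℝ) - e j - (e j - e k)) * lg hs (Q.pt_tendsto h𝒰) t0 t =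
        (((e i : ℝ) - e j) * lg hs (Q.pt_tendsto h𝒰) t0 t - Real.log (Q.pt t)) -
        (((e j : ℝ) - e k) * lg hs (Q.pt_tendsto h𝒰) t0 t - Real.log (Q.pt t)) := by ring
      rw [h4]
      refine (abs_sub _ _).trans ?_
      linarith [k1.1, k1.2]
    rw [abs_mul] at h3
    have h6 := le_abs_self (lg hs (Q.pt_tendsto h𝒰) t0 t)
    have h7 := mul_le_mul_of_nonneg_right h2 (abs_nonneg (lg hs (Q.pt_tendsto h𝒰) t0 t))
    linarith
  have hq0 : e i - e j ≠ 0 := by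
    intro h0
    apply hne
    have h2 : e i = e j := by linarith
    have h3 : e k = e j := by linarith
    have h4 : ∀ l, e l = e j := by
      intro l
      have h5 : l = i ∨ l = j ∨ l = k := fin3 i j k l hij hjk hik
      rcases h5 with rfl | rfl | rfl
      · exact h2
      · rfl
      · exact h3
    intro a b
    rw [h4 a, h4 b]
  refine ⟨i, j, k, e i - e j, 9 * C, hij, hjk, hik, hq0, by ring, by linarith, ?_⟩
  filter_upwards [hr, hcore, hgrow.eventually_ge_atTop 0] with t k1 k2 k3 σ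
  have a1 := abs_le.1 (k1 σ i)
  have a2 := abs_le.1 (k1 σ j)
  have a3 := abs_le.1 (k1 σ k)
  have b1 := abs_le.1 k2.1
  have b2 := abs_le.1 k2.2
  have hP : 0 ≤ Real.log (Q.pt t) := Real.log_nonneg (by exact_mod_cast Q.hp0 t)
  have hji' : (0 : ℝ) ≤ ((e i : ℝ) - e j) * lg hs (Q.pt_tendsto h𝒰) t0 t := by
    refine mul_nonneg ?_ k3
    have : (e j : ℝ) ≤ e i := by exact_mod_cast hji
    linarith
  have hkj' : (0 : ℝ) ≤ ((e j : ℝ) - e k) * lg hs (Q.pt_tendsto h𝒰) t0 t := by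
    refine mul_nonneg ?_ k3
    have : (e k : ℝ) ≤ e j := by exact_mod_cast hkj
    linarith
  rcases hχ σ with h | h <;> rw [h] at a1 a2 a3
  · rw [Int.cast_one, one_mul] at a1 a2 a3
    constructor <;> linarith
  · rw [Int.cast_neg, Int.cast_one] at a1 a2 a3
    constructor <;> linarith

end Sq

end Run7.h879.SH
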