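import Mathlib

/-!
The final inequality.
-/

set_option autoImplicit false

namespace Run7.h879.SH

theorem odd_pos_sum {p : ℕ} (hodd : Odd p) (δ : ℝ) : 0 < (1 + δ) ^ p + (1 - δ) ^ p := by
  have h1 : (δ - 1) ^ p < (δ + 1) ^ p := hodd.strictMono_pow (by linarith)
  have h2 : (1 - δ) ^ p = -(δ - 1) ^ p := by
    rw [← hodd.neg_pow]
    congr 1
    ring
  rw [h2, add_comm 1 δ]
  linarith

theorem real_core {p : ℕ} (hp : 3 ≤ p) (hodd : Odd p) (τ δ : ℝ) (hτ : 2 * p + 1 ≤ τ) (hδ : 0 ≤ δ)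
    (ν : ℝ) (hν : ν = 1 ∨ ν = -1) (h1 : δ ^ 2 = τ ^ 2 - 4 * ν)
    (h : (τ + 1) ^ p = (δ + 1) ^ p - (δ - 1) ^ p) : False := by
  have hpR : (3 : ℝ) ≤ p := by exact_mod_cast hp
  have hτ0 : 0 < τ := by linarith
  rcases hν with rfl | rfl
  · have h2 : δ < τ := by nlinarith
    have h3 : 1 ≤ δ := by nlinarith
    have h4 : (δ + 1) ^ p < (τ + 1) ^ p := pow_lt_pow_left₀ (by linarith) (by linarith) (by omega)
    have h5 : 0 ≤ (δ - 1) ^ p := pow_nonneg (by linarith) _
    linarith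
  · -- the norm is `-1`
    have h2 : τ < δ := by nlinarith
    have h3 : δ ≤ τ + 2 / τ := by
      by_contra hcon
      push Not at hcon
      have e1 : 0 ≤ τ + 2 / τ := by positivity
      have e2 : (τ + 2 / τ) ^ 2 < δ ^ 2 := pow_lt_pow_left₀ hcon e1 (by norm_num)
      have e3 : (τ + 2 / τ) ^ 2 = τ ^ 2 + 4 + (2 / τ) ^ 2 := by
        field_simp
        ring
      have e4 : 0 ≤ (2 / τ) ^ 2 := by positivity
      linarith
    have h4 : (δ + 1) ^ p ≤ ((τ + 1) * (1 + 2 / (τ * (τ + 1)))) ^ p := by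
      refine pow_le_pow_left₀ (by linarith) ?_ _
      have e1 : (τ + 1) * (1 + 2 / (τ * (τ + 1))) = τ + 1 + 2 / τ := by
        field_simp
      rw [e1]
      linarith
    have h5 : ((τ + 1) * (1 - 2 / (τ + 1))) ^ p ≤ (δ - 1) ^ p := by
      have e1 : (τ + 1) * (1 - 2 / (τ + 1)) = τ - 1 := by
        field_simp
        ring
      rw [e1]
      exact pow_le_pow_left₀ (by linarith) (by linarith) _
    rw [mul_pow] at h4 h5
    -- the upper bound
    obtain ⟨u, hu⟩ : ∃ u : ℝ, u = 2 / (τ * (τ + 1)) := ⟨_, rfl⟩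
    obtain ⟨v, hv⟩ : ∃ v : ℝ, v = 2 / (τ + 1) := ⟨_, rfl⟩
    rw [← hu] at h4
    rw [← hv] at h5
    have hu0 : 0 < u := by rw [hu]; positivity
    have hv0 : 0 < v := by rw [hv]; positivity
    have huv : u * τ = v := by rw [hu, hv]; field_simp
    have hpv : (p : ℝ) * v ≤ 1 := by
      rw [hv, mul_div_assoc', div_le_one (by linarith)]
      linarith
    have h6 : (1 + u) ^ p ≤ 1 + 2 * p * u := by
      have e1 : (1 + u) ^ p ≤ Real.exp (p * u) := by
        rw [mul_comm, Real.exp_mul, Real.rpow_natCast]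
        refine pow_le_pow_left₀ (by linarith) ?_ _
        have := Real.add_one_le_exp u
        linarith
      have e2 : (p : ℝ) * u ≤ 1 := by
        have : u ≤ v := by nlinarith
        nlinarith
      have e3 : Real.exp (p * u) ≤ 1 + 2 * (p * u) := by
        have e4 := Real.exp_bound_div_one_sub_of_interval (x := p * u / 1) (by positivity)
        have e5 : 0 ≤ (p : ℝ) * u := by positivity
        have e6 := Real.abs_exp_sub_one_sub_id_le (x := p * u) (by rw [abs_of_nonneg e5]; exact e2)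
        have e7 := (abs_le.1 e6).2
        nlinarith
      linarith
    have h7 : 1 - p * v ≤ (1 - v) ^ p := by
      have := one_add_mul_le_pow (a := -v) (by nlinarith) p
      have e1 : 1 + (p : ℝ) * -v = 1 - p * v := by ring
      have e2 : (1 + -v) ^ p = (1 - v) ^ p := by ring
      rw [e1, e2] at this
      exact this
    -- `(1 + u) ^ p - (1 - v) ^ p < 1` needs `1 - v` to be bounded below
    have h8 : v ≤ (1 - v) ^ p := by
      have e1 : (1 : ℝ) - p * v ≥ v := by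
        rw [hv]
        have e2 : (1 : ℝ) - p * (2 / (τ + 1)) - 2 / (τ + 1) = (τ - 1 - 2 * p) / (τ + 1) := by
          field_simp
          ring
        have e3 : 0 ≤ (τ - 1 - 2 * p) / (τ + 1) := div_nonneg (by linarith) (by linarith)
        linarith
      linarith
    have h9 : 2 * (p : ℝ) * u < v := by
      rw [← huv]
      nlinarith
    have hT : 0 < (τ + 1) ^ p := by positivity
    have h10 : (τ + 1) ^ p * ((1 + u) ^ p - (1 - v) ^ p) < (τ + 1) ^ p * 1 :=
      mul_lt_mul_of_pos_left (by linarith) hT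
    have h11 : (τ + 1) ^ p ≤ (τ + 1) ^ p * ((1 + u) ^ p - (1 - v) ^ p) := by
      rw [mul_sub]
      linarith
    linarith

/-- there are no solutions with conjugate units of a real quadratic field -/
theorem real_final {p : ℕ} (hp : 3 ≤ p) (hodd : Odd p) (T ν : ℤ) (hν : ν = 1 ∨ ν = -1)
    (hT : 2 * (p : ℤ) ≤ |T + 1|) (ζ ζ' : ℂ) (h1 : ζ + ζ' = T) (h2 : ζ * ζ' = ν)
    (h : ((1 + ζ + ζ') / 2 - 1) ^ p + ((1 + ζ + ζ') / 2 - ζ) ^ p + ((1 + ζ + ζ') / 2 - ζ') ^ p = 0) :
    False := by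
  have hpZ : (3 : ℤ) ≤ p := by exact_mod_cast hp
  have hT2 : 4 ≤ T ^ 2 := by
    rcases abs_cases (T + 1) with ⟨h3, h4⟩ | ⟨h3, h4⟩ <;> rw [h3] at hT <;> nlinarith
  have hdisc : (0 : ℝ) ≤ (T : ℝ) ^ 2 - 4 * ν := by
    have h3 : (0 : ℤ) ≤ T ^ 2 - 4 * ν := by
      rcases hν with rfl | rfl <;> linarith
    exact_mod_cast h3
  obtain ⟨δ, hδ⟩ : ∃ δ : ℝ, δ = Real.sqrt ((T : ℝ) ^ 2 - 4 * ν) := ⟨_, rfl⟩
  have hδ0 : 0 ≤ δ := by rw [hδ]; exact Real.sqrt_nonneg _
  have hδ2 : δ ^ 2 = (T : ℝ) ^ 2 - 4 * ν := by rw [hδ]; exact Real.sq_sqrt hdisc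
  have hsq : (ζ - ζ') ^ 2 = (δ : ℂ) ^ 2 := by
    have e1 : ((δ : ℂ)) ^ 2 = (T : ℂ) ^ 2 - 4 * ν := by exact_mod_cast hδ2
    rw [e1]
    linear_combination (ζ + ζ' + T) * h1 - 4 * h2
  have hmain : (((T : ℝ) - 1) / 2) ^ p + ((1 - δ) / 2) ^ p + ((1 + δ) / 2) ^ p = 0 := by
    have e0 : ((((T : ℝ) - 1) / 2) ^ p + ((1 - δ) / 2) ^ p + ((1 + δ) / 2) ^ p : ℝ) = (0 : ℂ) := by
      push_cast
      rcases sq_eq_sq_iff_eq_or_eq_neg.1 hsq with e1 | e1
      · rw [← h, ← e1, ← h1]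
        congr 1
        · congr 1
          · congr 1
            ring
          · congr 1
            ring
        · congr 1
          ring
      · have e2 : (δ : ℂ) = -(ζ - ζ') := by rw [e1, neg_neg]
        rw [← h, e2, ← h1, add_right_comm]
        congr 1
        · congr 1
          · congr 1
            ring
          · congr 1
            ring
        · congr 1
          ring
    exact_mod_cast e0
  have hmul : ((T : ℝ) - 1) ^ p + (1 - δ) ^ p + (1 + δ) ^ p = 0 := by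
    rw [div_pow, div_pow, div_pow, ← add_div, ← add_div, div_eq_zero_iff] at hmain
    rcases hmain with h3 | h3
    · exact h3
    · exact absurd h3 (by positivity)
  have hpos := odd_pos_sum hodd δ
  have hTneg : (T : ℝ) - 1 < 0 := by
    by_contra hcon
    push Not at hcon
    have := pow_nonneg hcon p
    linarith
  have hTZ : T < 1 := by
    have : (T : ℝ) < 1 := by linarith
    exact_mod_cast this
  have hTle : T ≤ -(2 * p) - 1 := by
    rcases abs_cases (T + 1) with ⟨h3, h4⟩ | ⟨h3, h4⟩ <;> rw [h3] at hT <;> omega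
  obtain ⟨τ, hτ⟩ : ∃ τ : ℝ, τ = -(T : ℝ) := ⟨_, rfl⟩
  refine real_core hp hodd τ δ ?_ hδ0 ν ?_ ?_ ?_
  · have : (T : ℝ) ≤ -(2 * p) - 1 := by exact_mod_cast hTle
    rw [hτ]
    linarith
  · rcases hν with rfl | rfl
    · left; norm_num
    · right; norm_num
  · rw [hδ2, hτ]
    ring
  · have e1 : (T : ℝ) - 1 = -(τ + 1) := by rw [hτ]; ring
    have e2 : (1 - δ) ^ p = -(δ - 1) ^ p := by
      rw [← hodd.neg_pow]
      congr 1
      ring
    rw [e1, hodd.neg_pow, e2, add_comm 1 δ] at hmul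
    linarith

end Run7.h879.SH
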