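import Mathlib
import Pool.Agent.Run7.h879.SH.R2
import Pool.Agent.Run7.h879.SH.Real

/-!
The case of rank one: the end.
-/

set_option autoImplicit false
set_option linter.unusedSectionVars false

open MvPolynomial Filter

namespace Run7.h879.SH

open NumberField IsDedekindDomain
open Pool.Agent.Y742.SF Pool.Agent.Y742.AR Pool.Agent.N754.LT
open Pool.Agent.TH286.GT.GrowD (sg sg_coe sg_inj)
open Run7.h879.Sp Pool.Agent.W7.FH

theorem int_of_fixed {M : Type} [Field M] [NumberField M] [IsGalois ℚ M] (x : M)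
    (hx : IsIntegral ℤ x) (h : ∀ σ : M ≃ₐ[ℚ] M, σ x = x) : ∃ n : ℤ, x = n := by
  obtain ⟨r, hr⟩ := (IsGalois.mem_range_algebraMap_iff_fixed x).2 h
  have h1 : IsIntegral ℤ r := by
    rw [← hr] at hx
    exact (isIntegral_algebraMap_iff (algebraMap ℚ M).injective).1 hx
  obtain ⟨n, hn⟩ := IsIntegrallyClosed.isIntegral_iff.1 h1
  refine ⟨n, ?_⟩
  rw [← hr, ← hn]
  simp

theorem unit_of_fixed {M : Type} [Field M] [NumberField M] [IsGalois ℚ M] (u : (𝓞 M)ˣ)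
    (h : ∀ σ : M ≃ₐ[ℚ] M, σ ((u : 𝓞 M) : M) = ((u : 𝓞 M) : M)) :
    ((u : 𝓞 M) : M) = 1 ∨ ((u : 𝓞 M) : M) = -1 := by
  obtain ⟨n, hn⟩ := int_of_fixed ((u : 𝓞 M) : M) (RingOfIntegers.isIntegral_coe (u : 𝓞 M)) h
  have hinv : (((u⁻¹ : (𝓞 M)ˣ) : 𝓞 M) : M) = ((u : 𝓞 M) : M)⁻¹ := Sq.coe_inv u
  obtain ⟨m, hm⟩ := int_of_fixed (((u⁻¹ : (𝓞 M)ˣ) : 𝓞 M) : M)
    (RingOfIntegers.isIntegral_coe ((u⁻¹ : (𝓞 M)ˣ) : 𝓞 M))
    (fun σ => by rw [hinv, map_inv₀, h σ])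
  have h1 : ((u : 𝓞 M) : M) ≠ 0 := RingOfIntegers.coe_ne_zero_iff.2 (Units.ne_zero _)
  have h2 : n * m = 1 := by
    have h3 : (n : M) * m = 1 := by rw [← hn, ← hm, hinv, mul_inv_cancel₀ h1]
    exact_mod_cast h3
  rcases Int.isUnit_iff.1 (IsUnit.of_mul_eq_one _ h2) with h4 | h4
  · left
    rw [hn, h4, Int.cast_one]
  · right
    rw [hn, h4, Int.cast_neg, Int.cast_one]

theorem sum_perm {A : Type} [AddCommMonoid A] (f : Fin 3 → A) (i j k : Fin 3) (hij : i ≠ j)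
    (hjk : j ≠ k) (hik : i ≠ k) : f i + f j + f k = f 0 + f 1 + f 2 := by
  have h1 : ({i, j, k} : Finset (Fin 3)) = {0, 1, 2} := by
    revert hij hjk hik
    revert i j k
    decide
  have h2 : ∑ l ∈ ({i, j, k} : Finset (Fin 3)), f l = ∑ l ∈ ({0, 1, 2} : Finset (Fin 3)), f l := by
    rw [h1]
  rw [Finset.sum_insert (by simp [hij, hik]), Finset.sum_pair hjk,
    Finset.sum_insert (by decide), Finset.sum_pair (by decide), ← add_assoc, ← add_assoc] at h2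
  exact h2

namespace Sq

variable {K : Type} [Field K] [NumberField K]
variable (Q : Sq K) {M : Type} [Field M] [NumberField M] [Algebra K M]

theorem fM_ne (j : Fin 3) (t : ℕ) : ((Q.fM M j t : 𝓞 M) : M) ≠ 0 :=
  RingOfIntegers.coe_ne_zero_iff.2 (Units.ne_zero _)

theorem sm_eq' (t : ℕ) (j : Fin 3) : Q.sm M t =
    (Q.pt t : M) * (2 * algebraMap K M (Q.om j t)) * ((Q.fM M j t : 𝓞 M) : M) := by
  unfold sm
  rw [Q.fM_coe, Q.fM_coe, Q.fM_coe, Q.fM_coe, ← map_add, ← map_add, ← add_div, ← add_div,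
    Q.sum_eq t j, mul_div_assoc, map_mul, map_mul, map_mul, map_natCast, map_ofNat]

/-- Fermat's equation for the units -/
theorem fermat (t : ℕ) (i j k : Fin 3) (hij : i ≠ j) (hjk : j ≠ k) (hik : i ≠ k) (z z' : M)
    (hz : z * ((Q.fM M j t : 𝓞 M) : M) = ((Q.fM M i t : 𝓞 M) : M))
    (hz' : z' * ((Q.fM M j t : 𝓞 M) : M) = ((Q.fM M k t : 𝓞 M) : M)) :
    ((1 + z + z') / 2 - 1) ^ Q.pt t + ((1 + z + z') / 2 - z) ^ Q.pt t +
      ((1 + z + z') / 2 - z') ^ Q.pt t = 0 := by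
  obtain ⟨f, hf⟩ : ∃ f : Fin 3 → M, f = fun l => (Q.sm M t / 2 - ((Q.fM M l t : 𝓞 M) : M)) ^ Q.pt t :=
    ⟨_, rfl⟩
  have h0 : f 0 + f 1 + f 2 = 0 := by
    have hU2 : algebraMap K M ((Q.E t).U 2) ≠ 0 := (map_ne_zero _).2 ((Q.E t).U_ne 2)
    have e1 : ∀ l, ((Q.fM M l t : 𝓞 M) : M) * algebraMap K M ((Q.E t).U 2) =
        algebraMap K M ((Q.E t).U l) := by
      intro l
      rw [Q.fM_coe, ← map_mul, div_mul_cancel₀ _ ((Q.E t).U_ne 2)]
    have e2 : (f 0 + f 1 + f 2) * (algebraMap K M ((Q.E t).U 2)) ^ Q.pt t = 0 := by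
      have e3 : Q.sm M t * algebraMap K M ((Q.E t).U 2) =
          2 * algebraMap K M ((Q.E t).a + (Q.E t).b + (Q.E t).c) := by
        unfold sm
        rw [add_mul, add_mul, e1, e1, e1]
        show algebraMap K M ((Q.E t).a + (Q.E t).b) + algebraMap K M ((Q.E t).b + (Q.E t).c) +
          algebraMap K M ((Q.E t).c + (Q.E t).a) = _
        simp only [map_add]
        ring
      have e4 : ∀ l, (Q.sm M t / 2 - ((Q.fM M l t : 𝓞 M) : M)) * algebraMap K M ((Q.E t).U 2) =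
          algebraMap K M ((Q.E t).a + (Q.E t).b + (Q.E t).c - (Q.E t).U l) := by
        intro l
        rw [sub_mul, e1, map_sub]
        linear_combination e3 / 2
      rw [hf]
      simp only
      rw [add_mul, add_mul, ← mul_pow, ← mul_pow, ← mul_pow, e4, e4, e4]
      have c0 : (Q.E t).a + (Q.E t).b + (Q.E t).c - (Q.E t).U 0 = (Q.E t).c := by
        show (Q.E t).a + (Q.E t).b + (Q.E t).c - ((Q.E t).a + (Q.E t).b) = _
        ring
      have c1 : (Q.E t).a + (Q.E t).b + (Q.E t).c - (Q.E t).U 1 = (Q.E t).a := by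
        show (Q.E t).a + (Q.E t).b + (Q.E t).c - ((Q.E t).b + (Q.E t).c) = _
        ring
      have c2 : (Q.E t).a + (Q.E t).b + (Q.E t).c - (Q.E t).U 2 = (Q.E t).b := by
        show (Q.E t).a + (Q.E t).b + (Q.E t).c - ((Q.E t).c + (Q.E t).a) = _
        ring
      rw [c0, c1, c2, ← map_pow, ← map_pow, ← map_pow, ← map_add, ← map_add,
        map_eq_zero_iff _ (algebraMap K M).injective]
      linear_combination (Q.E t).h
    exact (mul_eq_zero.1 e2).resolve_right (pow_ne_zero _ hU2)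
  have h1 : f i + f j + f k = 0 := (sum_perm f i j k hij hjk hik).trans h0
  have h2 : Q.sm M t = (1 + z + z') * ((Q.fM M j t : 𝓞 M) : M) := by
    have h3 := sum_perm (fun l => ((Q.fM M l t : 𝓞 M) : M)) i j k hij hjk hik
    unfold sm
    rw [← h3, ← hz, ← hz']
    ring
  have h3 : (((1 + z + z') / 2 - 1) ^ Q.pt t + ((1 + z + z') / 2 - z) ^ Q.pt t +
      ((1 + z + z') / 2 - z') ^ Q.pt t) * ((Q.fM M j t : 𝓞 M) : M) ^ Q.pt t = 0 := by
    rw [add_mul, add_mul, ← mul_pow, ← mul_pow, ← mul_pow]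
    have g1 : ((1 + z + z') / 2 - 1) * ((Q.fM M j t : 𝓞 M) : M) =
        Q.sm M t / 2 - ((Q.fM M j t : 𝓞 M) : M) := by rw [h2]; ring
    have g2 : ((1 + z + z') / 2 - z) * ((Q.fM M j t : 𝓞 M) : M) =
        Q.sm M t / 2 - ((Q.fM M i t : 𝓞 M) : M) := by rw [h2, ← hz]; ring
    have g3 : ((1 + z + z') / 2 - z') * ((Q.fM M j t : 𝓞 M) : M) =
        Q.sm M t / 2 - ((Q.fM M k t : 𝓞 M) : M) := by rw [h2, ← hz']; ring
    rw [g1, g2, g3]
    rw [hf] at h1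
    simp only at h1
    rw [← h1]
    ring
  exact (mul_eq_zero.1 h3).resolve_right (pow_ne_zero _ (Q.fM_ne j t))

end Sq

end Run7.h879.SH
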