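import Mathlib
import Pool.Agent.Run7.h879.SH.R3

/-!
The case of rank one is impossible.
-/

set_option autoImplicit false
set_option linter.unusedSectionVars false

open MvPolynomial Filter

namespace Run7.h879.SH

open NumberField IsDedekindDomain
open Pool.Agent.Y742.SF Pool.Agent.Y742.AR Pool.Agent.N754.LT
open Pool.Agent.TH286.GT.GrowD (sg sg_coe sg_inj)
open Run7.h879.Sp Pool.Agent.W7.FH

namespace Sq

variable {K : Type} [Field K] [NumberField K]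
variable (Q : Sq K) {M : Type} [Field M] [NumberField M] [Algebra K M] [IsGalois ℚ M] {D : PD M}
  (hs : D.s = 0) {𝒰 : Ultrafilter ℕ} (h𝒰 : (𝒰 : Filter ℕ) ≤ atTop)

include hs in
/-- the bounded quotient is constant -/
theorem quot_const (i j k : Fin 3) (hij : i ≠ j) (hjk : j ≠ k) (hik : i ≠ k) (C : ℝ)
    (hC : ∀ᶠ t in (𝒰 : Filter ℕ), ∀ σ,
        Q.rr D σ i t ≤ Q.rr D σ j t + Real.log (Q.pt t) + C ∧
        Q.rr D σ k t ≤ Q.rr D σ j t + Real.log (Q.pt t) + C) :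
    ∃ c : M, ∀ᶠ t in (𝒰 : Filter ℕ), (2 * algebraMap K M (Q.om j t) : M) = c := by
  obtain ⟨c, hc⟩ := const_of_bdd (D := D) (𝒰 := 𝒰)
    (gm 𝒰 (fun t => (2 * algebraMap K M (Q.om j t) : M))) (by
      refine ((ti_int fun t => 2 * algebraMap (𝓞 K) (𝓞 M) (Q.om j t)).congr
        (Filter.Eventually.of_forall fun t => ?_) : TI D 𝒰
          (fun t => (2 * algebraMap K M (Q.om j t) : M))).congr ?_
      · refine (map_mul (algebraMap (𝓞 M) M) _ _).trans ?_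
        rw [map_ofNat]
        rfl
      · filter_upwards [rep_gm (𝒰 := 𝒰) (fun t => (2 * algebraMap K M (Q.om j t) : M))] with t ht
        exact ht.symm) (3 * Real.exp |C|) (by
      filter_upwards [hC, rep_gm (𝒰 := 𝒰) (fun t => (2 * algebraMap K M (Q.om j t) : M))]
        with t h1 h2 v
      rw [h2]
      rcases v with σ | w
      · show ‖D.ψ (σ (2 * algebraMap K M (Q.om j t)))‖ ≤ _
        obtain ⟨a1, a2⟩ := h1 σ
        unfold rr at a1 a2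
        have hpos : ∀ l, 0 < ‖D.ψ (σ ((Q.fM M l t : 𝓞 M) : M))‖ := fun l =>
          ψ_pos D ((map_ne_zero _).2 (Q.fM_ne l t))
        have hp : (0 : ℝ) < Q.pt t := by exact_mod_cast (Q.hp0 t)
        have hp1 : (1 : ℝ) ≤ Q.pt t := by exact_mod_cast (Q.hp0 t)
        have hE : 1 ≤ Real.exp |C| := Real.one_le_exp (abs_nonneg C)
        have conv : ∀ l, Real.log ‖D.ψ (σ ((Q.fM M l t : 𝓞 M) : M))‖ ≤
            Real.log ‖D.ψ (σ ((Q.fM M j t : 𝓞 M) : M))‖ + Real.log (Q.pt t) + C →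
            ‖D.ψ (σ ((Q.fM M l t : 𝓞 M) : M))‖ ≤
              ‖D.ψ (σ ((Q.fM M j t : 𝓞 M) : M))‖ * Q.pt t * Real.exp |C| := by
          intro l hl
          have h3 : Real.log ‖D.ψ (σ ((Q.fM M l t : 𝓞 M) : M))‖ ≤
              Real.log (‖D.ψ (σ ((Q.fM M j t : 𝓞 M) : M))‖ * Q.pt t * Real.exp |C|) := by
            rw [Real.log_mul (mul_pos (hpos j) hp).ne' (Real.exp_pos _).ne',
              Real.log_mul (hpos j).ne' hp.ne', Real.log_exp]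
            have := le_abs_self C
            linarith
          exact (Real.log_le_log_iff (hpos l) (mul_pos (mul_pos (hpos j) hp)
            (Real.exp_pos _))).1 h3
        have b1 := conv i a1
        have b2 := conv k a2
        have b3 : ‖D.ψ (σ ((Q.fM M j t : 𝓞 M) : M))‖ ≤
            ‖D.ψ (σ ((Q.fM M j t : 𝓞 M) : M))‖ * Q.pt t * Real.exp |C| := by
          rw [mul_assoc]
          exact le_mul_of_one_le_right (hpos j).le (by nlinarith)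
        have h4 : Q.sm M t = ((Q.fM M i t : 𝓞 M) : M) + ((Q.fM M j t : 𝓞 M) : M) +
            ((Q.fM M k t : 𝓞 M) : M) :=
          (sum_perm (fun l => ((Q.fM M l t : 𝓞 M) : M)) i j k hij hjk hik).symm
        have h5 : ‖D.ψ (σ (Q.sm M t))‖ ≤
            3 * (‖D.ψ (σ ((Q.fM M j t : 𝓞 M) : M))‖ * Q.pt t * Real.exp |C|) := by
          rw [h4, map_add, map_add, map_add, map_add]
          refine (norm_add₃_le).trans ?_
          linarith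
        rw [Q.sm_eq' t j, map_mul, map_mul, norm_mul, map_mul, map_mul, norm_mul, map_natCast,
          map_natCast, Complex.norm_natCast] at h5
        have h6 : ‖D.ψ (σ (2 * algebraMap K M (Q.om j t)))‖ *
            (Q.pt t * ‖D.ψ (σ ((Q.fM M j t : 𝓞 M) : M))‖) ≤ 3 * Real.exp |C| *
            (Q.pt t * ‖D.ψ (σ ((Q.fM M j t : 𝓞 M) : M))‖) := by
          linarith
        exact le_of_mul_le_mul_right h6 (mul_pos hp (hpos j))
      · exact absurd w.2 (by omega))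
  refine ⟨c, ?_⟩
  rw [cg_eq, gm_eq] at hc
  exact hc

/-- the case of rank one is impossible -/
theorem no_rank_one (t0 : (Q.S (M := M) hs h𝒰).W) (ht0 : (Q.S hs h𝒰).π t0 ≠ 0)
    (hgrow : Tendsto (lg hs (Q.pt_tendsto h𝒰) t0) (𝒰 : Filter ℕ) atTop)
    (χ : (M ≃ₐ[ℚ] M) → ℤ) (hχ : ∀ σ, χ σ = 1 ∨ χ σ = -1)
    (hσ : ∀ σ, (Q.S hs h𝒰).π ((Q.S hs h𝒰).act σ t0) = χ σ • (Q.S hs h𝒰).π t0)
    (e : Fin 3 → ℤ) (he : ∀ j, (Q.S hs h𝒰).π (Q.Xs hs h𝒰 j) = e j • (Q.S hs h𝒰).π t0)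
    (hne : ¬ ∀ i j, e i = e j) : False := by
  obtain ⟨i, j, k, q, C, hij, hjk, hik, hq, hi, hk, hC⟩ :=
    Q.progression hs h𝒰 t0 hgrow χ hχ hσ e he hne
  obtain ⟨c, hc⟩ := Q.quot_const hs i j k hij hjk hik C hC (M := M)
  have hc0 : c ≠ 0 := by
    obtain ⟨t, ht⟩ := hc.exists
    rw [← ht]
    exact Q.om2_ne j t
  obtain ⟨Z, hZ⟩ : ∃ Z, Z = Q.Xs hs h𝒰 i * (Q.Xs hs h𝒰 j)⁻¹ := ⟨_, rfl⟩
  obtain ⟨Z', hZ'⟩ : ∃ Z', Z' = Q.Xs hs h𝒰 k * (Q.Xs hs h𝒰 j)⁻¹ := ⟨_, rfl⟩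
  have πZ : (Q.S hs h𝒰).π Z = q • (Q.S hs h𝒰).π t0 := by
    rw [hZ, (Q.S hs h𝒰).π_mul, (Q.S hs h𝒰).π_inv, he, he, hi, add_smul]
    abel
  have πZ' : (Q.S hs h𝒰).π Z' = (-q) • (Q.S hs h𝒰).π t0 := by
    rw [hZ', (Q.S hs h𝒰).π_mul, (Q.S hs h𝒰).π_inv, he, he, hk, sub_smul, neg_smul]
    abel
  have sZ : ∀ (l : Fin 3), ∀ᶠ t in (𝒰 : Filter ℕ),
      ((sqS hs (Q.pt_tendsto h𝒰) (Q.Xs (M := M) hs h𝒰 l * (Q.Xs hs h𝒰 j)⁻¹) t : 𝓞 M) : M) =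
      ((Q.fM M l t : 𝓞 M) : M) * (((Q.fM M j t : 𝓞 M) : M))⁻¹ := by
    intro l
    filter_upwards [sqS_mul hs (Q.pt_tendsto h𝒰) (Q.Xs (M := M) hs h𝒰 l) (Q.Xs hs h𝒰 j)⁻¹,
      sqS_inv hs (Q.pt_tendsto h𝒰) (Q.Xs (M := M) hs h𝒰 j), Q.sq_Xs hs h𝒰 l, Q.sq_Xs hs h𝒰 j]
      with t k1 k2 k3 k4
    rw [k1, k2, k3, k4]
  have hmain : 1 + ((Z.1 : (RA D 𝒰 (Np Q.pt) (one_le_Np Q.pt Q.hp0))ˣ) :
      RA D 𝒰 (Np Q.pt) (one_le_Np Q.pt Q.hp0)) + ((Z'.1 : (RA D 𝒰 (Np Q.pt)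
      (one_le_Np Q.pt Q.hp0))ˣ) : RA D 𝒰 (Np Q.pt) (one_le_Np Q.pt Q.hp0)) =
      (Q.S hs h𝒰).g * algebraMap M _ c := by
    apply vl_inj
    have e1 := sqS_spec hs (Q.pt_tendsto h𝒰) Z
    have e2 := sqS_spec hs (Q.pt_tendsto h𝒰) Z'
    have e3 : vl D 𝒰 (Np Q.pt) (one_le_Np Q.pt Q.hp0) ((Q.S hs h𝒰).g * algebraMap M _ c) =
        gm 𝒰 (fun t => ((Q.pt t : ℕ) : M)) * gm 𝒰 (fun _ => c) := rfl
    have e4 : vl D 𝒰 (Np Q.pt) (one_le_Np Q.pt Q.hp0)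
      (1 + ((Z.1 : (RA D 𝒰 (Np Q.pt) (one_le_Np Q.pt Q.hp0))ˣ) :
      RA D 𝒰 (Np Q.pt) (one_le_Np Q.pt Q.hp0)) + ((Z'.1 : (RA D 𝒰 (Np Q.pt)
      (one_le_Np Q.pt Q.hp0))ˣ) : RA D 𝒰 (Np Q.pt) (one_le_Np Q.pt Q.hp0))) =
        gm 𝒰 (fun _ => (1 : M)) + gm 𝒰 (fun t => ((sqS hs (Q.pt_tendsto h𝒰) Z t : 𝓞 M) : M)) +
          gm 𝒰 (fun t => ((sqS hs (Q.pt_tendsto h𝒰) Z' t : 𝓞 M) : M)) := by
      rw [← e1, ← e2]
      rfl
    rw [e3, e4, ← map_add, ← map_add, ← map_mul, gm_eq]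
    have s1 := sZ i
    have s2 := sZ k
    rw [← hZ] at s1
    rw [← hZ'] at s2
    filter_upwards [s1, s2, hc] with t k1 k2 k3
    show (1 : M) + ((sqS hs (Q.pt_tendsto h𝒰) Z t : 𝓞 M) : M) +
      ((sqS hs (Q.pt_tendsto h𝒰) Z' t : 𝓞 M) : M) = (Q.pt t : M) * c
    rw [k1, k2, ← k3]
    have h0 := Q.fM_ne (M := M) j t
    have h4 : Q.sm M t = ((Q.fM M i t : 𝓞 M) : M) + ((Q.fM M j t : 𝓞 M) : M) +
        ((Q.fM M k t : 𝓞 M) : M) :=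
      (sum_perm (fun l => ((Q.fM M l t : 𝓞 M) : M)) i j k hij hjk hik).symm
    have h5 := Q.sm_eq' (M := M) t j
    rw [h4] at h5
    field_simp
    linear_combination h5
  have hfix := fun σ => (Q.S hs h𝒰).two_fix Z Z' t0 q hq ht0 πZ πZ' c hc0 hmain σ (by
    rcases hχ σ with h | h
    · left
      rw [hσ, h, one_smul]
    · right
      rw [hσ, h, neg_smul, one_smul])
  -- at the level of sequences
  have s1 := sZ i
  have s2 := sZ k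
  rw [← hZ] at s1
  rw [← hZ'] at s2
  have hact : ∀ᶠ t in (𝒰 : Filter ℕ), ∀ σ : M ≃ₐ[ℚ] M,
      (σ ((sqS hs (Q.pt_tendsto h𝒰) Z t : 𝓞 M) : M) = ((sqS hs (Q.pt_tendsto h𝒰) Z t : 𝓞 M) : M) ∧
      σ ((sqS hs (Q.pt_tendsto h𝒰) Z' t : 𝓞 M) : M) =
        ((sqS hs (Q.pt_tendsto h𝒰) Z' t : 𝓞 M) : M)) ∨
      (σ ((sqS hs (Q.pt_tendsto h𝒰) Z t : 𝓞 M) : M) =
        ((sqS hs (Q.pt_tendsto h𝒰) Z' t : 𝓞 M) : M) ∧
      σ ((sqS hs (Q.pt_tendsto h𝒰) Z' t : 𝓞 M) : M) =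
        ((sqS hs (Q.pt_tendsto h𝒰) Z t : 𝓞 M) : M)) := by
    rw [Filter.eventually_all]
    intro σ
    have a1 := sq_act hs (Q.pt_tendsto h𝒰) σ Z
    have a2 := sq_act hs (Q.pt_tendsto h𝒰) σ Z'
    rcases (hfix σ).2 with h | h
    · rw [h.1] at a1
      rw [h.2] at a2
      filter_upwards [a1, a2] with t k1 k2
      exact Or.inl ⟨k1.symm, k2.symm⟩
    · rw [h.1] at a1
      rw [h.2] at a2
      filter_upwards [a1, a2] with t k1 k2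
      exact Or.inr ⟨k1.symm, k2.symm⟩
  obtain ⟨t, k1, k2, k3, k4⟩ := (hact.and (s1.and (s2.and hc))).exists
  obtain ⟨z, hz⟩ : ∃ z : M, z = ((sqS hs (Q.pt_tendsto h𝒰) Z t : 𝓞 M) : M) := ⟨_, rfl⟩
  obtain ⟨z', hz'⟩ : ∃ z' : M, z' = ((sqS hs (Q.pt_tendsto h𝒰) Z' t : 𝓞 M) : M) := ⟨_, rfl⟩
  rw [← hz, ← hz'] at k1
  have zi : IsIntegral ℤ z := by rw [hz]; exact RingOfIntegers.isIntegral_coe _
  have zi' : IsIntegral ℤ z' := by rw [hz']; exact RingOfIntegers.isIntegral_coe _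
  obtain ⟨T, hT⟩ := int_of_fixed (z + z') (zi.add zi') (fun σ => by
    rw [map_add]
    rcases k1 σ with h | h
    · rw [h.1, h.2]
    · rw [h.1, h.2, add_comm])
  have hν := unit_of_fixed ((sqS hs (Q.pt_tendsto h𝒰) Z t) * (sqS hs (Q.pt_tendsto h𝒰) Z' t))
  have hzz : (((sqS hs (Q.pt_tendsto h𝒰) Z t) * (sqS hs (Q.pt_tendsto h𝒰) Z' t) : (𝓞 M)ˣ) :
      𝓞 M) = ((z * z' : M)) := by
    rw [hz, hz', Units.val_mul]
    exact map_mul (algebraMap (𝓞 M) M) _ _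
  rw [hzz] at hν
  have hν' := hν (fun σ => by
    rw [map_mul]
    rcases k1 σ with h | h
    · rw [h.1, h.2]
    · rw [h.1, h.2, mul_comm])
  obtain ⟨ν, hν1, hν2⟩ : ∃ ν : ℤ, (ν = 1 ∨ ν = -1) ∧ z * z' = ν := by
    rcases hν' with h | h
    · exact ⟨1, Or.inl rfl, by rw [h, Int.cast_one]⟩
    · exact ⟨-1, Or.inr rfl, by rw [h, Int.cast_neg, Int.cast_one]⟩
  obtain ⟨n, hn⟩ := int_of_fixed (algebraMap K M (Q.om j t))
    ((Q.om j t).2.map (algebraMap K M).toIntAlgHom) (fun σ => by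
      have h1 : (Q.S hs h𝒰).ρk σ c = σ c := rfl
      have h2 := (hfix σ).1
      rw [h1, ← k4, map_mul, map_ofNat] at h2
      exact mul_left_cancel₀ two_ne_zero h2)
  have hn0 : n ≠ 0 := by
    rintro rfl
    rw [Int.cast_zero] at hn
    have := Q.om2_ne (M := M) j t
    rw [hn, mul_zero] at this
    exact this rfl
  have hfj := Q.fM_ne (M := M) j t
  have hzj : z * ((Q.fM M j t : 𝓞 M) : M) = ((Q.fM M i t : 𝓞 M) : M) := by
    rw [hz, k2, inv_mul_cancel_right₀ hfj]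
  have hzj' : z' * ((Q.fM M j t : 𝓞 M) : M) = ((Q.fM M k t : 𝓞 M) : M) := by
    rw [hz', k3, inv_mul_cancel_right₀ hfj]
  have hT1 : T + 1 = 2 * (Q.pt t : ℤ) * n := by
    have h4 : Q.sm M t = ((Q.fM M i t : 𝓞 M) : M) + ((Q.fM M j t : 𝓞 M) : M) +
        ((Q.fM M k t : 𝓞 M) : M) :=
      (sum_perm (fun l => ((Q.fM M l t : 𝓞 M) : M)) i j k hij hjk hik).symm
    have h5 := Q.sm_eq' (M := M) t j
    rw [h4, ← hzj, ← hzj', hn] at h5
    have h6 : (z + z' + 1) * ((Q.fM M j t : 𝓞 M) : M) =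
        (2 * (Q.pt t : M) * n) * ((Q.fM M j t : 𝓞 M) : M) := by
      linear_combination h5
    have h7 := mul_right_cancel₀ hfj h6
    rw [hT] at h7
    exact_mod_cast h7
  have h3 : 3 ≤ Q.pt t := by have := Q.h5 t; omega
  have hodd : Odd (Q.pt t) := (Q.hp t).odd_of_ne_two (by have := Q.h5 t; omega)
  refine real_final h3 hodd T ν hν1 ?_ (D.ψ z) (D.ψ z') ?_ ?_ ?_
  · rw [hT1, abs_mul, abs_mul]
    have h4 : 1 ≤ |n| := Int.one_le_abs hn0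
    have h5 : |(Q.pt t : ℤ)| = Q.pt t := abs_of_nonneg (by positivity)
    rw [h5]
    have h6 : |(2 : ℤ)| = 2 := rfl
    rw [h6]
    have h7 : (0 : ℤ) ≤ 2 * Q.pt t := by positivity
    nlinarith
  · rw [← map_add, hT, map_intCast]
  · rw [← map_mul, hν2, map_intCast]
  · have h4 := congrArg D.ψ (Q.fermat (M := M) t i j k hij hjk hik z z' hzj hzj')
    simpa only [map_add, map_pow, map_sub, map_div₀, map_one, map_ofNat, map_zero] using h4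

end Sq

end Run7.h879.SH
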