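import Mathlib
import Pool.Agent.Run7.h879.SH.R4
import Pool.Agent.Run7.h879.SH.Perm2

/-!
The case of rank two.
-/

set_option autoImplicit false
set_option linter.unusedSectionVars false

open Filter

namespace Run7.h879.SH

open NumberField IsDedekindDomain
open Pool.Agent.Y742.SF Pool.Agent.Y742.AR Pool.Agent.N754.LT
open Pool.Agent.TH286.GT.GrowD (sg sg_coe sg_inj)
open Run7.h879.Sp Pool.Agent.W7.FH

theorem six_inv {F : Type} [Field F] (x y x' y' : F) (hx : x ≠ 0) (hy : y ≠ 0)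
    (hxy : x + y + 1 ≠ 0)
    (h : (x' = x ∧ y' = y) ∨ (x' = y ∧ y' = x) ∨ (x' * y = x ∧ y' * y = 1) ∨
      (x' * y = 1 ∧ y' * y = x) ∨ (x' * x = y ∧ y' * x = 1) ∨ (x' * x = 1 ∧ y' * x = y)) :
    (x' * y' + x' + y') / (x' + y' + 1) ^ 2 = (x * y + x + y) / (x + y + 1) ^ 2 ∧
      (x' * y') / (x' + y' + 1) ^ 3 = (x * y) / (x + y + 1) ^ 3 := by
  have gen : ∀ c X Y : F, c ≠ 0 → x' = X / c → y' = Y / c → X + Y + c = x + y + 1 →
      X * Y + X * c + Y * c = x * y + x + y → X * Y * c = x * y →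
      (x' * y' + x' + y') / (x' + y' + 1) ^ 2 = (x * y + x + y) / (x + y + 1) ^ 2 ∧
      (x' * y') / (x' + y' + 1) ^ 3 = (x * y) / (x + y + 1) ^ 3 := by
    intro c X Y hc h1 h2 h3 h4 h5
    have e1 : x' + y' + 1 = (x + y + 1) / c := by
      rw [h1, h2, ← h3]
      field_simp
    have e2 : x' * y' + x' + y' = (x * y + x + y) / c ^ 2 := by
      rw [h1, h2, ← h4]
      field_simp
    have e3 : x' * y' = (x * y) / c ^ 3 := by
      rw [h1, h2, ← h5]
      field_simp
    rw [e1, e2, e3]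
    constructor
    · field_simp
    · field_simp
  rcases h with ⟨h1, h2⟩ | ⟨h1, h2⟩ | ⟨h1, h2⟩ | ⟨h1, h2⟩ | ⟨h1, h2⟩ | ⟨h1, h2⟩
  · rw [h1, h2]
    exact ⟨rfl, rfl⟩
  · rw [h1, h2]
    constructor <;> congr 1 <;> ring
  · exact gen y x 1 hy (eq_div_of_mul_eq hy h1) (eq_div_of_mul_eq hy h2) (by ring) (by ring)
      (by ring)
  · exact gen y 1 x hy (eq_div_of_mul_eq hy h1) (eq_div_of_mul_eq hy h2) (by ring) (by ring)
      (by ring)
  · exact gen x y 1 hx (eq_div_of_mul_eq hx h1) (eq_div_of_mul_eq hx h2) (by ring) (by ring)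
      (by ring)
  · exact gen x 1 y hx (eq_div_of_mul_eq hx h1) (eq_div_of_mul_eq hx h2) (by ring) (by ring)
      (by ring)

/-- the cubic type -/
def Cubic {K : Type} [Field K] [NumberField K] (a b c : K) : Prop :=
  ∃ f : Polynomial ℚ, Irreducible f ∧ f.natDegree = 3 ∧ f.map (algebraMap ℚ K) =
    (Polynomial.X - Polynomial.C (a / (a + b + c))) *
    (Polynomial.X - Polynomial.C (b / (a + b + c))) *
    (Polynomial.X - Polynomial.C (c / (a + b + c)))

theorem rat_of_fixed {K M : Type} [Field K] [NumberField K] [Field M] [NumberField M]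
    [Algebra K M] [IsGalois ℚ M] (x : K)
    (h : ∀ σ : M ≃ₐ[ℚ] M, σ (algebraMap K M x) = algebraMap K M x) :
    ∃ r : ℚ, algebraMap ℚ K r = x := by
  obtain ⟨r, hr⟩ := (IsGalois.mem_range_algebraMap_iff_fixed _).2 h
  refine ⟨r, (algebraMap K M).injective ?_⟩
  rw [← hr]
  have h1 : (algebraMap K M).comp (algebraMap ℚ K) = algebraMap ℚ M := Subsingleton.elim _ _
  rw [← h1]
  rfl

theorem cubic_poly {K : Type} [Field K] [NumberField K] (α β γ : K) (h1 : α + β + γ = 1)
    (q r : ℚ) (hq : algebraMap ℚ K q = α * β + β * γ + γ * α) (hr : algebraMap ℚ K r = α * β * γ)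
    (hα : ∀ x : ℚ, algebraMap ℚ K x ≠ α) (hβ : ∀ x : ℚ, algebraMap ℚ K x ≠ β)
    (hγ : ∀ x : ℚ, algebraMap ℚ K x ≠ γ) :
    ∃ f : Polynomial ℚ, Irreducible f ∧ f.natDegree = 3 ∧ f.map (algebraMap ℚ K) =
    (Polynomial.X - Polynomial.C α) * (Polynomial.X - Polynomial.C β) *
    (Polynomial.X - Polynomial.C γ) := by
  obtain ⟨f, hf⟩ : ∃ f : Polynomial ℚ, f = Polynomial.X ^ 3 - Polynomial.X ^ 2 +
    Polynomial.C q * Polynomial.X - Polynomial.C r := ⟨_, rfl⟩
  have hmap : f.map (algebraMap ℚ K) =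
    (Polynomial.X - Polynomial.C α) * (Polynomial.X - Polynomial.C β) *
    (Polynomial.X - Polynomial.C γ) := by
    rw [hf]
    simp only [Polynomial.map_sub, Polynomial.map_add, Polynomial.map_mul, Polynomial.map_pow,
      Polynomial.map_X, Polynomial.map_C, hq, hr]
    have h2 : (Polynomial.C α + Polynomial.C β + Polynomial.C γ : Polynomial K) = 1 := by
      rw [← map_add, ← map_add, h1, map_one]
    simp only [map_add, map_mul]
    linear_combination (Polynomial.X ^ 2 : Polynomial K) * h2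
  have hdeg : f.natDegree = 3 := by
    rw [hf]
    compute_degree!
  have hmonic : f.Monic := by
    rw [hf]
    monicity!
  refine ⟨f, ?_, hdeg, hmap⟩
  rw [hmonic.irreducible_iff_roots_eq_zero_of_degree_le_three (by rw [hdeg]; norm_num)
    (by rw [hdeg])]
  rw [Multiset.eq_zero_iff_forall_notMem]
  intro x hx
  rw [Polynomial.mem_roots hmonic.ne_zero, Polynomial.IsRoot.def] at hx
  have h3 : (f.map (algebraMap ℚ K)).eval (algebraMap ℚ K x) = 0 := by
    rw [Polynomial.eval_map_algebraMap, Polynomial.aeval_algebraMap_apply]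
    have h4 : Polynomial.aeval x f = 0 := by
      rw [Polynomial.coe_aeval_eq_eval]
      exact hx
    rw [h4, map_zero]
  rw [hmap] at h3
  simp only [Polynomial.eval_mul, Polynomial.eval_sub, Polynomial.eval_X, Polynomial.eval_C,
    mul_eq_zero, sub_eq_zero] at h3
  rcases h3 with (h3 | h3) | h3
  · exact hα x h3
  · exact hβ x h3
  · exact hγ x h3

end Run7.h879.SH
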