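import Mathlib
import Pool.Agent.Run7.h879.SH.R5

/-!
The case of rank two: the cubic type.
-/

set_option autoImplicit false
set_option linter.unusedSectionVars false

open Filter

namespace Run7.h879.SH

open NumberField IsDedekindDomain
open Pool.Agent.Y742.SF Pool.Agent.Y742.AR Pool.Agent.N754.LT
open Pool.Agent.TH286.GT.GrowD (sg sg_coe sg_inj)
open Run7.h879.Sp Pool.Agent.W7.FH

variable {K M : Type} [Field K] [NumberField K] [Field M] [NumberField M] [Algebra K M]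
  [IsGalois ℚ M]

/-- six relations for the action -/
def SixAt (x y : M) : Prop := ∀ σ : M ≃ₐ[ℚ] M,
  (σ x = x ∧ σ y = y) ∨ (σ x = y ∧ σ y = x) ∨ (σ x * y = x ∧ σ y * y = 1) ∨
      (σ x * y = 1 ∧ σ y * y = x) ∨ (σ x * x = y ∧ σ y * x = 1) ∨ (σ x * x = 1 ∧ σ y * x = y)

theorem dat_cubic {p : ℕ} (E : Dat K p) (hs : E.a + E.b + E.c ≠ 0) (x y : (𝓞 M)ˣ)
    (hx : ((x : 𝓞 M) : M) = algebraMap K M (E.U 0 / E.U 2))
    (hy : ((y : 𝓞 M) : M) = algebraMap K M (E.U 1 / E.U 2))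
    (h : SixAt ((x : 𝓞 M) : M) ((y : 𝓞 M) : M)) :
    Cubic E.a E.b E.c ∨
      ((((y : 𝓞 M) : M) = ((x : 𝓞 M) : M) ^ 2 ∨ ((y : 𝓞 M) : M) = -((x : 𝓞 M) : M) ^ 2) ∨
      (((x : 𝓞 M) : M) = ((y : 𝓞 M) : M) ^ 2 ∨ ((x : 𝓞 M) : M) = -((y : 𝓞 M) : M) ^ 2) ∨
      (((x : 𝓞 M) : M) * ((y : 𝓞 M) : M) = 1 ∨ ((x : 𝓞 M) : M) * ((y : 𝓞 M) : M) = -1)) := by
  have hx0 : ((x : 𝓞 M) : M) ≠ 0 := RingOfIntegers.coe_ne_zero_iff.2 (Units.ne_zero _)
  have hy0 : ((y : 𝓞 M) : M) ≠ 0 := RingOfIntegers.coe_ne_zero_iff.2 (Units.ne_zero _)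
  obtain ⟨S, hS⟩ : ∃ S : K, S = E.U 0 + E.U 1 + E.U 2 := ⟨_, rfl⟩
  have hSs : S = 2 * (E.a + E.b + E.c) := by
    rw [hS]
    show E.a + E.b + (E.b + E.c) + (E.c + E.a) = _
    ring
  have hS0 : S ≠ 0 := by
    rw [hSs]
    exact mul_ne_zero two_ne_zero hs
  have hU2 := E.U_ne 2
  have hxy1 : ((x : 𝓞 M) : M) + ((y : 𝓞 M) : M) + 1 = algebraMap K M (S / E.U 2) := by
    rw [hx, hy, ← map_add, ← map_one (algebraMap K M), ← map_add]
    congr 1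
    rw [hS]
    field_simp
  have hxy0 : ((x : 𝓞 M) : M) + ((y : 𝓞 M) : M) + 1 ≠ 0 := by
    rw [hxy1]
    exact (map_ne_zero _).2 (div_ne_zero hS0 hU2)
  -- the elementary symmetric functions
  obtain ⟨e2, he2⟩ : ∃ e2 : K, e2 = (E.U 0 * E.U 1 + E.U 0 * E.U 2 + E.U 1 * E.U 2) / S ^ 2 :=
    ⟨_, rfl⟩
  obtain ⟨e3, he3⟩ : ∃ e3 : K, e3 = (E.U 0 * E.U 1 * E.U 2) / S ^ 3 := ⟨_, rfl⟩
  have m2 : algebraMap K M e2 = (((x : 𝓞 M) : M) * ((y : 𝓞 M) : M) + ((x : 𝓞 M) : M) +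
      ((y : 𝓞 M) : M)) / (((x : 𝓞 M) : M) + ((y : 𝓞 M) : M) + 1) ^ 2 := by
    rw [hxy1, hx, hy, ← map_pow, ← map_mul, ← map_add, ← map_add, ← map_div₀]
    congr 1
    rw [he2]
    field_simp
  have m3 : algebraMap K M e3 = (((x : 𝓞 M) : M) * ((y : 𝓞 M) : M)) /
      (((x : 𝓞 M) : M) + ((y : 𝓞 M) : M) + 1) ^ 3 := by
    rw [hxy1, hx, hy, ← map_pow, ← map_mul, ← map_div₀]
    congr 1
    rw [he3]
    field_simp
  have f2 : ∀ σ : M ≃ₐ[ℚ] M, σ (algebraMap K M e2) = algebraMap K M e2 := by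
    intro σ
    rw [m2, map_div₀, map_pow, map_add, map_add, map_add, map_add, map_mul, map_one]
    exact (six_inv _ _ _ _ hx0 hy0 hxy0 (h σ)).1
  have f3 : ∀ σ : M ≃ₐ[ℚ] M, σ (algebraMap K M e3) = algebraMap K M e3 := by
    intro σ
    rw [m3, map_div₀, map_pow, map_add, map_add, map_mul, map_one]
    exact (six_inv _ _ _ _ hx0 hy0 hxy0 (h σ)).2
  obtain ⟨q, hq⟩ := rat_of_fixed e2 f2
  obtain ⟨r, hr⟩ := rat_of_fixed e3 f3
  have ha : E.a = S / 2 - E.U 1 := by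
    rw [hSs]
    show E.a = _ - (E.b + E.c)
    ring
  have hb : E.b = S / 2 - E.U 2 := by
    rw [hSs]
    show E.b = _ - (E.c + E.a)
    ring
  have hc : E.c = S / 2 - E.U 0 := by
    rw [hSs]
    show E.c = _ - (E.a + E.b)
    ring
  have hs2 : E.a + E.b + E.c = S / 2 := by rw [hSs]; ring
  have ea : E.a / (E.a + E.b + E.c) = 1 - 2 * (E.U 1 / S) := by
    rw [hs2, ha]
    field_simp
  have eb : E.b / (E.a + E.b + E.c) = 1 - 2 * (E.U 2 / S) := by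
    rw [hs2, hb]
    field_simp
  have ec : E.c / (E.a + E.b + E.c) = 1 - 2 * (E.U 0 / S) := by
    rw [hs2, hc]
    field_simp
  have fixV : ∀ (l : Fin 3), (∃ z : ℚ, algebraMap ℚ K z = 1 - 2 * (E.U l / S)) →
      ∀ σ : M ≃ₐ[ℚ] M, σ (algebraMap K M (e3 / (E.U l / S) ^ 3)) =
        algebraMap K M (e3 / (E.U l / S) ^ 3) := by
    rintro l ⟨z, hz⟩ σ
    have h1 : E.U l / S = algebraMap ℚ K ((1 - z) / 2) := by
      rw [map_div₀, map_sub, hz, map_one, map_ofNat]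
      ring
    rw [map_div₀, map_div₀, f3, h1, ← map_pow]
    congr 1
    have h2 : algebraMap K M (algebraMap ℚ K (((1 - z) / 2) ^ 3)) =
        algebraMap ℚ M (((1 - z) / 2) ^ 3) := by
      have h1 : (algebraMap K M).comp (algebraMap ℚ K) = algebraMap ℚ M := Subsingleton.elim _ _
      rw [← h1]
      rfl
    rw [h2, σ.commutes]
  have coeMul : ∀ a b : (𝓞 M)ˣ, (((a * b : (𝓞 M)ˣ) : 𝓞 M) : M) =
      ((a : 𝓞 M) : M) * ((b : 𝓞 M) : M) := fun a b => by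
    rw [Units.val_mul]
    exact map_mul (algebraMap (𝓞 M) M) _ _
  have U0 := E.U_ne 0
  have U1 := E.U_ne 1
  have c0 : (∃ z : ℚ, algebraMap ℚ K z = 1 - 2 * (E.U 0 / S)) →
      ((y : 𝓞 M) : M) = ((x : 𝓞 M) : M) ^ 2 ∨ ((y : 𝓞 M) : M) = -((x : 𝓞 M) : M) ^ 2 := by
    intro hz
    have h1 := unit_of_fixed (y * (x * x)⁻¹) (by
      have h2 : (((y * (x * x)⁻¹ : (𝓞 M)ˣ) : 𝓞 M) : M) =
          algebraMap K M (e3 / (E.U 0 / S) ^ 3) := by
        rw [coeMul, Sq.coe_inv, coeMul, hx, hy, ← map_mul, ← map_inv₀, ← map_mul, he3]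
        congr 1
        field_simp
      rw [h2]
      exact fixV 0 hz)
    rw [coeMul, Sq.coe_inv, coeMul] at h1
    rcases h1 with h1 | h1
    · left
      rw [← div_eq_mul_inv, div_eq_iff (mul_ne_zero hx0 hx0)] at h1
      rw [h1]
      ring
    · right
      rw [← div_eq_mul_inv, div_eq_iff (mul_ne_zero hx0 hx0)] at h1
      rw [h1]
      ring
  have c1 : (∃ z : ℚ, algebraMap ℚ K z = 1 - 2 * (E.U 1 / S)) →
      ((x : 𝓞 M) : M) = ((y : 𝓞 M) : M) ^ 2 ∨ ((x : 𝓞 M) : M) = -((y : 𝓞 M) : M) ^ 2 := by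
    intro hz
    have h1 := unit_of_fixed (x * (y * y)⁻¹) (by
      have h2 : (((x * (y * y)⁻¹ : (𝓞 M)ˣ) : 𝓞 M) : M) =
          algebraMap K M (e3 / (E.U 1 / S) ^ 3) := by
        rw [coeMul, Sq.coe_inv, coeMul, hx, hy, ← map_mul, ← map_inv₀, ← map_mul, he3]
        congr 1
        field_simp
      rw [h2]
      exact fixV 1 hz)
    rw [coeMul, Sq.coe_inv, coeMul] at h1
    rcases h1 with h1 | h1
    · left
      rw [← div_eq_mul_inv, div_eq_iff (mul_ne_zero hy0 hy0)] at h1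
      rw [h1]
      ring
    · right
      rw [← div_eq_mul_inv, div_eq_iff (mul_ne_zero hy0 hy0)] at h1
      rw [h1]
      ring
  have c2 : (∃ z : ℚ, algebraMap ℚ K z = 1 - 2 * (E.U 2 / S)) →
      ((x : 𝓞 M) : M) * ((y : 𝓞 M) : M) = 1 ∨ ((x : 𝓞 M) : M) * ((y : 𝓞 M) : M) = -1 := by
    intro hz
    have h1 := unit_of_fixed (x * y) (by
      have h2 : (((x * y : (𝓞 M)ˣ) : 𝓞 M) : M) =
          algebraMap K M (e3 / (E.U 2 / S) ^ 3) := by
        rw [coeMul, hx, hy, ← map_mul, he3]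
        congr 1
        field_simp
      rw [h2]
      exact fixV 2 hz)
    rwa [coeMul] at h1
  by_contra hcon
  push Not at hcon
  obtain ⟨n1, n2, n3, n4⟩ := hcon
  apply n1
  unfold Cubic
  refine cubic_poly _ _ _ ?_ (-1 + 4 * q) (-1 + 4 * q - 8 * r) ?_ ?_ ?_ ?_ ?_
  · rw [← add_div, ← add_div, div_self hs]
  · rw [map_add, map_mul, hq, map_neg, map_one, map_ofNat, ea, eb, ec, he2, hS]
    rw [hS] at hS0
    field_simp
    ring
  · rw [map_sub, map_add, map_mul, map_mul, hq, hr, map_neg, map_one, map_ofNat, map_ofNat, ea, eb,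
      ec, he2, he3, hS]
    rw [hS] at hS0
    field_simp
    ring
  · intro z hz
    rw [ea] at hz
    rcases c1 ⟨z, hz⟩ with h1 | h1
    · exact n3.1 h1
    · exact n3.2 h1
  · intro z hz
    rw [eb] at hz
    rcases c2 ⟨z, hz⟩ with h1 | h1
    · exact n4.1 h1
    · exact n4.2 h1
  · intro z hz
    rw [ec] at hz
    rcases c0 ⟨z, hz⟩ with h1 | h1
    · exact n2.1 h1
    · exact n2.2 h1

end Run7.h879.SH
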