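import Mathlib
import Pool.Agent.Run7.h879.SH.R6

/-!
Sequences of small solutions are of cubic type.
-/

set_option autoImplicit false
set_option linter.unusedSectionVars false

open Filter

namespace Run7.h879.SH

open NumberField IsDedekindDomain
open Pool.Agent.Y742.SF Pool.Agent.Y742.AR Pool.Agent.N754.LT
open Pool.Agent.TH286.GT.GrowD (sg sg_coe sg_inj)
open Run7.h879.Sp Pool.Agent.W7.FH

section sys

variable {M : Type} [Field M] [NumberField M] [IsGalois ℚ M] {D : PD M} {𝒰 : Ultrafilter ℕ}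
  (hs : D.s = 0) {pt : ℕ → ℕ} {hp0 : ∀ t, 1 ≤ pt t} (hpt : Tendsto pt (𝒰 : Filter ℕ) atTop)

theorem sqS_mul_eq (u v w : (sys hs pt hp0 hpt).W) (h : u * v = w) : ∀ᶠ t in (𝒰 : Filter ℕ),
    ((sqS hs hpt u t : 𝓞 M) : M) * ((sqS hs hpt v t : 𝓞 M) : M) =
      ((sqS hs hpt w t : 𝓞 M) : M) := by
  filter_upwards [sqS_mul hs hpt u v] with t ht
  rw [← ht, h]

theorem π_zero_of_pm (u : (sys hs pt hp0 hpt).W) (h : ∀ᶠ t in (𝒰 : Filter ℕ),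
    ((sqS hs hpt u t : 𝓞 M) : M) = 1 ∨ ((sqS hs hpt u t : 𝓞 M) : M) = -1) :
    (sys hs pt hp0 hpt).π u = 0 := by
  rw [Sys.π_zero]
  have h0 := sqS_spec hs hpt u
  rcases (Ultrafilter.eventually_or).1 h with h1 | h1
  · refine ⟨1, vl_inj ?_⟩
    refine h0.trans ?_
    rw [vl_const, cg_eq, gm_eq]
    exact h1
  · refine ⟨-1, vl_inj ?_⟩
    refine h0.trans ?_
    rw [vl_const, cg_eq, gm_eq]
    exact h1

end sys

namespace Sq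

variable {K : Type} [Field K] [NumberField K]
variable (Q : Sq K) {M : Type} [Field M] [NumberField M] [Algebra K M] [IsGalois ℚ M] {D : PD M}
  (hs : D.s = 0) {𝒰 : Ultrafilter ℕ} (h𝒰 : (𝒰 : Filter ℕ) ≤ atTop)

include hs h𝒰 in
/-- the case of rank zero is impossible -/
theorem no_rank_zero (h : ∀ j, (Q.S (M := M) hs h𝒰).π (Q.Xs hs h𝒰 j) = 0) : False := by
  classical
  have h1 : ∀ σ j, ∃ C : ℝ, ∀ᶠ t in (𝒰 : Filter ℕ), |Q.rr D σ j t| ≤ C := by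
    intro σ j
    have h2 : (Q.S hs h𝒰).π ((Q.S hs h𝒰).act σ (Q.Xs hs h𝒰 j)) =
        (0 : ℤ) • (Q.S (M := M) hs h𝒰).π 1 := by
      rw [zero_smul]
      exact (Q.S hs h𝒰).act_zero σ _ (h j)
    obtain ⟨C, hC⟩ := lg_of_π hs (Q.pt_tendsto h𝒰) _ _ _ h2
    refine ⟨C, ?_⟩
    filter_upwards [hC, Q.lg_Xs hs h𝒰 j σ] with t k1 k2
    rw [k2] at k1
    simpa using k1
  choose C0 hC0 using h1
  obtain ⟨C, hCdef⟩ : ∃ C : ℝ, C = ∑ σ, ∑ j, |C0 σ j| := ⟨_, rfl⟩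
  have hCle : ∀ σ j, C0 σ j ≤ C := by
    intro σ j
    have a1 : |C0 σ j| ≤ ∑ j, |C0 σ j| := Finset.single_le_sum (f := fun j => |C0 σ j|)
      (fun _ _ => abs_nonneg _) (Finset.mem_univ j)
    have a2 : ∑ j, |C0 σ j| ≤ ∑ σ, ∑ j, |C0 σ j| :=
      Finset.single_le_sum (f := fun σ => ∑ j, |C0 σ j|)
        (fun _ _ => Finset.sum_nonneg fun _ _ => abs_nonneg _) (Finset.mem_univ σ)
    have a3 := le_abs_self (C0 σ j)
    rw [hCdef]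
    linarith
  have hr : ∀ᶠ t in (𝒰 : Filter ℕ), ∀ σ j, |Q.rr D σ j t| ≤ C := by
    rw [Filter.eventually_all]
    intro σ
    rw [Filter.eventually_all]
    intro j
    filter_upwards [hC0 σ j] with t ht
    exact ht.trans (hCle σ j)
  have hlog : Tendsto (fun t => Real.log (Q.pt t)) (𝒰 : Filter ℕ) atTop :=
    Real.tendsto_log_atTop.comp (tendsto_natCast_atTop_atTop.comp (Q.pt_tendsto h𝒰))
  obtain ⟨t, k1, k2⟩ := (hr.and (hlog.eventually_ge_atTop (C + 5))).exists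
  have h3 := Q.norm_ge (M := M) hs t
  have h4 : ∑ σ : M ≃ₐ[ℚ] M, Real.log ‖D.ψ (σ (Q.sm M t))‖ ≤
      ∑ _σ : M ≃ₐ[ℚ] M, (4 + C) := by
    refine Finset.sum_le_sum fun σ _ => ?_
    obtain ⟨l, hl⟩ := Q.top σ t (D := D)
    have := (le_abs_self _).trans (k1 σ l)
    linarith
  rw [Finset.sum_const, Finset.card_univ, nsmul_eq_mul] at h4
  have hcard : (0 : ℝ) < Fintype.card (M ≃ₐ[ℚ] M) := by
    have : Nonempty (M ≃ₐ[ℚ] M) := ⟨1⟩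
    exact_mod_cast Fintype.card_pos
  have h5 := le_of_mul_le_mul_left (h3.trans h4) hcard
  linarith

include hs h𝒰 in
/-- the case of rank two gives cubics -/
theorem rank_two (hind : ∀ i j : ℤ, i • (Q.S (M := M) hs h𝒰).π (Q.Xs hs h𝒰 0) +
    j • (Q.S (M := M) hs h𝒰).π (Q.Xs hs h𝒰 1) = 0 → i = 0 ∧ j = 0) :
    ∀ᶠ t in (𝒰 : Filter ℕ), Cubic (Q.E t).a (Q.E t).b (Q.E t).c := by
  have hmain : 1 + (((Q.Xs (M := M) hs h𝒰 0).1 : (RA D 𝒰 (Np Q.pt) (one_le_Np Q.pt Q.hp0))ˣ) :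
      RA D 𝒰 (Np Q.pt) (one_le_Np Q.pt Q.hp0)) + (((Q.Xs hs h𝒰 1).1 : (RA D 𝒰 (Np Q.pt)
      (one_le_Np Q.pt Q.hp0))ˣ) : RA D 𝒰 (Np Q.pt) (one_le_Np Q.pt Q.hp0)) =
      (Q.S hs h𝒰).g * Q.Wg hs 𝒰 := by
    rw [← Q.main_eq hs h𝒰]
    have h2 : Q.Xr (M := M) hs 𝒰 2 = 1 := by
      have h3 := Q.Xs_two (M := M) hs h𝒰
      have h4 : Q.Xr (M := M) hs 𝒰 2 = ((Q.Xs (M := M) hs h𝒰 2).1 :
        (RA D 𝒰 (Np Q.pt) (one_le_Np Q.pt Q.hp0))ˣ).val := rfl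
      rw [h4, h3]
      rfl
    rw [h2]
    show 1 + Q.Xr (M := M) hs 𝒰 0 + Q.Xr (M := M) hs 𝒰 1 = _
    ring
  have hsix := (Q.S hs h𝒰).six_act (Q.Xs (M := M) hs h𝒰 0) (Q.Xs (M := M) hs h𝒰 1) hind _ hmain
  have hev : ∀ᶠ t in (𝒰 : Filter ℕ),
      SixAt ((Q.fM M 0 t : 𝓞 M) : M) ((Q.fM M 1 t : 𝓞 M) : M) := by
    unfold SixAt
    rw [Filter.eventually_all]
    intro σ
    have b0 := Q.sq_Xs (M := M) hs h𝒰 0
    have b1 := Q.sq_Xs (M := M) hs h𝒰 1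
    have a0 := sq_act hs (Q.pt_tendsto h𝒰) σ (Q.Xs (M := M) hs h𝒰 0)
    have a1 := sq_act hs (Q.pt_tendsto h𝒰) σ (Q.Xs (M := M) hs h𝒰 1)
    have o := sqS_one (D := D) (𝒰 := 𝒰) (hp0 := Q.hp0) hs (Q.pt_tendsto h𝒰)
    rcases hsix σ with ⟨h1, h2⟩ | ⟨h1, h2⟩ | ⟨h1, h2⟩ | ⟨h1, h2⟩ | ⟨h1, h2⟩ | ⟨h1, h2⟩
    · rw [h1] at a0
      rw [h2] at a1
      filter_upwards [b0, b1, a0, a1] with t k1 k2 k3 k4
      rw [k1] at k3
      rw [k2] at k4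
      exact Or.inl ⟨k3.symm, k4.symm⟩
    · rw [h1] at a0
      rw [h2] at a1
      filter_upwards [b0, b1, a0, a1] with t k1 k2 k3 k4
      rw [k1, k2] at k3
      rw [k2, k1] at k4
      exact Or.inr (Or.inl ⟨k3.symm, k4.symm⟩)
    · filter_upwards [b0, b1, a0, a1, o, sqS_mul_eq hs (Q.pt_tendsto h𝒰) _ _ _ h1,
        sqS_mul_eq hs (Q.pt_tendsto h𝒰) _ _ _ h2] with t k1 k2 k3 k4 k5 k6 k7
      rw [k3, k2, k1] at k6
      rw [k4, k2, k5] at k7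
      exact Or.inr (Or.inr (Or.inl ⟨k6, k7⟩))
    · filter_upwards [b0, b1, a0, a1, o, sqS_mul_eq hs (Q.pt_tendsto h𝒰) _ _ _ h1,
        sqS_mul_eq hs (Q.pt_tendsto h𝒰) _ _ _ h2] with t k1 k2 k3 k4 k5 k6 k7
      rw [k3, k2, k1, k5] at k6
      rw [k4, k2, k1] at k7
      exact Or.inr (Or.inr (Or.inr (Or.inl ⟨k6, k7⟩)))
    · filter_upwards [b0, b1, a0, a1, o, sqS_mul_eq hs (Q.pt_tendsto h𝒰) _ _ _ h1,
        sqS_mul_eq hs (Q.pt_tendsto h𝒰) _ _ _ h2] with t k1 k2 k3 k4 k5 k6 k7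
      rw [k3, k2, k1] at k6
      rw [k4, k2, k1, k5] at k7
      exact Or.inr (Or.inr (Or.inr (Or.inr (Or.inl ⟨k6, k7⟩))))
    · filter_upwards [b0, b1, a0, a1, o, sqS_mul_eq hs (Q.pt_tendsto h𝒰) _ _ _ h1,
        sqS_mul_eq hs (Q.pt_tendsto h𝒰) _ _ _ h2] with t k1 k2 k3 k4 k5 k6 k7
      rw [k3, k1, k5] at k6
      rw [k4, k1, k2] at k7
      exact Or.inr (Or.inr (Or.inr (Or.inr (Or.inr ⟨k6, k7⟩))))
  by_contra hcon
  rw [← Ultrafilter.eventually_not] at hcon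
  have h1 := (hev.and hcon).mono fun t ht =>
    (dat_cubic (Q.E t) (Q.hs t) (Q.fM M 0 t) (Q.fM M 1 t) (Q.fM_coe 0 t) (Q.fM_coe 1 t)
      ht.1).resolve_left ht.2
  have S' := (Q.S (M := M) hs h𝒰)
  have c0 := Q.sq_Xs (M := M) hs h𝒰 0
  have c1 := Q.sq_Xs (M := M) hs h𝒰 1
  rcases (Ultrafilter.eventually_or).1 h1 with h2 | h2
  · have h3 : (Q.S (M := M) hs h𝒰).π (Q.Xs hs h𝒰 1 * (Q.Xs hs h𝒰 0 ^ (-2 : ℤ))) = 0 := by
      refine π_zero_of_pm hs (Q.pt_tendsto h𝒰) _ ?_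
      filter_upwards [h2, c0, c1, sqS_mul hs (Q.pt_tendsto h𝒰) (Q.Xs (M := M) hs h𝒰 1)
        (Q.Xs hs h𝒰 0 ^ (-2 : ℤ)), sqS_zpow hs (Q.pt_tendsto h𝒰) (Q.Xs (M := M) hs h𝒰 0) (-2)]
        with t k1 k2 k3 k4 k5
      have k6 := Q.fM_ne (M := M) 0 t
      rw [k4, k5, k2, k3]
      rcases k1 with k1 | k1 <;> rw [k1]
      · left
        rw [zpow_neg]
        rw [zpow_ofNat]
        exact mul_inv_cancel₀ (pow_ne_zero 2 k6)
      · right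
        rw [zpow_neg, neg_mul]
        congr 1
        rw [zpow_ofNat]
        exact mul_inv_cancel₀ (pow_ne_zero 2 k6)
    rw [Sys.π_mul, Sys.π_zpow] at h3
    have h4 := hind (-2) 1 (by rw [one_smul, add_comm]; exact h3)
    omega
  rcases (Ultrafilter.eventually_or).1 h2 with h2 | h2
  · have h3 : (Q.S (M := M) hs h𝒰).π (Q.Xs hs h𝒰 0 * (Q.Xs hs h𝒰 1 ^ (-2 : ℤ))) = 0 := by
      refine π_zero_of_pm hs (Q.pt_tendsto h𝒰) _ ?_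
      filter_upwards [h2, c0, c1, sqS_mul hs (Q.pt_tendsto h𝒰) (Q.Xs (M := M) hs h𝒰 0)
        (Q.Xs hs h𝒰 1 ^ (-2 : ℤ)), sqS_zpow hs (Q.pt_tendsto h𝒰) (Q.Xs (M := M) hs h𝒰 1) (-2)]
        with t k1 k2 k3 k4 k5
      have k6 := Q.fM_ne (M := M) 1 t
      rw [k4, k5, k2, k3]
      rcases k1 with k1 | k1 <;> rw [k1]
      · left
        rw [zpow_neg]
        rw [zpow_ofNat]
        exact mul_inv_cancel₀ (pow_ne_zero 2 k6)
      · right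
        rw [zpow_neg, neg_mul]
        congr 1
        rw [zpow_ofNat]
        exact mul_inv_cancel₀ (pow_ne_zero 2 k6)
    rw [Sys.π_mul, Sys.π_zpow] at h3
    have h4 := hind 1 (-2) (by rw [one_smul]; exact h3)
    omega
  · have h3 : (Q.S (M := M) hs h𝒰).π (Q.Xs hs h𝒰 0 * Q.Xs hs h𝒰 1) = 0 := by
      refine π_zero_of_pm hs (Q.pt_tendsto h𝒰) _ ?_
      filter_upwards [h2, c0, c1, sqS_mul hs (Q.pt_tendsto h𝒰) (Q.Xs (M := M) hs h𝒰 0)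
        (Q.Xs hs h𝒰 1)] with t k1 k2 k3 k4
      rw [k4, k2, k3]
      exact k1
    rw [Sys.π_mul] at h3
    have h4 := hind 1 1 (by rw [one_smul, one_smul]; exact h3)
    omega

include hs h𝒰 in
/-- the units are independent -/
theorem indep : ∀ i j : ℤ, i • (Q.S (M := M) hs h𝒰).π (Q.Xs hs h𝒰 0) +
    j • (Q.S (M := M) hs h𝒰).π (Q.Xs hs h𝒰 1) = 0 → i = 0 ∧ j = 0 := by
  have hmain : 1 + (((Q.Xs (M := M) hs h𝒰 0).1 : (RA D 𝒰 (Np Q.pt) (one_le_Np Q.pt Q.hp0))ˣ) :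
      RA D 𝒰 (Np Q.pt) (one_le_Np Q.pt Q.hp0)) + (((Q.Xs hs h𝒰 1).1 : (RA D 𝒰 (Np Q.pt)
      (one_le_Np Q.pt Q.hp0))ˣ) : RA D 𝒰 (Np Q.pt) (one_le_Np Q.pt Q.hp0)) =
      (Q.S hs h𝒰).g * Q.Wg hs 𝒰 := by
    rw [← Q.main_eq hs h𝒰]
    have h2 : Q.Xr (M := M) hs 𝒰 2 = 1 := by
      have h3 := Q.Xs_two (M := M) hs h𝒰
      have h4 : Q.Xr (M := M) hs 𝒰 2 = ((Q.Xs (M := M) hs h𝒰 2).1 :
        (RA D 𝒰 (Np Q.pt) (one_le_Np Q.pt Q.hp0))ˣ).val := rfl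
      rw [h4, h3]
      rfl
    rw [h2]
    show 1 + Q.Xr (M := M) hs 𝒰 0 + Q.Xr (M := M) hs 𝒰 1 = _
    ring
  have hgW : (Q.S (M := M) hs h𝒰).g * Q.Wg hs 𝒰 ≠ 0 := by
    intro h
    have h1 := congrArg (vl D 𝒰 (Np Q.pt) (one_le_Np Q.pt Q.hp0)) h
    have h2 : vl D 𝒰 (Np Q.pt) (one_le_Np Q.pt Q.hp0) ((Q.S hs h𝒰).g * Q.Wg hs 𝒰) =
        gm 𝒰 (fun t => ((Q.pt t : ℕ) : M)) * gm 𝒰 (fun t => 2 * algebraMap K M (Q.om 2 t)) := rfl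
    rw [h2, vl_zero, ← map_mul, ← map_zero (gm 𝒰), gm_eq] at h1
    obtain ⟨t, ht⟩ := h1.exists
    exact mul_ne_zero (Q.pM_ne t) (Q.om2_ne 2 t) ht
  have h2π : (Q.S (M := M) hs h𝒰).π (Q.Xs hs h𝒰 2) = 0 := by
    rw [Q.Xs_two hs h𝒰]
    rfl
  rcases (Q.S hs h𝒰).tri_rank (Q.Xs (M := M) hs h𝒰 0) (Q.Xs (M := M) hs h𝒰 1) with
    h | h | ⟨t, m, n, hmn, ht, hx, hy⟩
  · exact h
  · exfalso
    refine Q.no_rank_zero (M := M) hs h𝒰 fun j => ?_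
    fin_cases j
    · exact h.1
    · exact h.2
    · exact h2π
  · exfalso
    have hact := (Q.S hs h𝒰).one_act _ _ t ht m n hmn hx hy _ hmain hgW
    obtain ⟨v, hv, hgrow⟩ := exists_grow hs (Q.pt_tendsto h𝒰) t ht hact
    -- the sign
    obtain ⟨s, hs1, hs2⟩ : ∃ s : ℤ, (s = 1 ∨ s = -1) ∧
        (Q.S (M := M) hs h𝒰).π t = s • (Q.S (M := M) hs h𝒰).π v := by
      rcases hv with h | h
      · exact ⟨1, Or.inl rfl, by rw [h, one_smul]⟩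
      · exact ⟨-1, Or.inr rfl, by rw [h, neg_smul, one_smul, neg_neg]⟩
    have hss : s * s = 1 := by rcases hs1 with h | h <;> rw [h] <;> rfl
    have hv0 : (Q.S (M := M) hs h𝒰).π v ≠ 0 := by
      intro h0
      rw [h0, smul_zero] at hs2
      exact ht hs2
    have hvt : (Q.S (M := M) hs h𝒰).π v = s • (Q.S (M := M) hs h𝒰).π t := by
      rw [hs2, smul_smul, hss, one_smul]
    have hactv : ∀ σ, ∃ χ : ℤ, (χ = 1 ∨ χ = -1) ∧
        (Q.S (M := M) hs h𝒰).π ((Q.S hs h𝒰).act σ v) = χ • (Q.S (M := M) hs h𝒰).π v := by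
      intro σ
      have h3 := (Q.S hs h𝒰).π_act_of σ v t s hvt
      rcases hact σ with h | h
      · exact ⟨1, Or.inl rfl, by rw [h3, h, one_smul, hvt]⟩
      · exact ⟨-1, Or.inr rfl, by rw [h3, h, hvt, smul_neg, neg_smul, one_smul]⟩
    choose χ hχ hχ' using hactv
    refine Q.no_rank_one hs h𝒰 v hv0 hgrow χ hχ hχ' ![m * s, n * s, 0] ?_ ?_
    · intro j
      fin_cases j
      · exact hx.trans (by rw [hs2, smul_smul]; rfl)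
      · exact hy.trans (by rw [hs2, smul_smul]; rfl)
      · exact h2π.trans (zero_smul ℤ _).symm
    · intro h3
      have s0 : s ≠ 0 := by rintro rfl; simp at hss
      have a0 : m * s = 0 := h3 0 2
      have a1 : n * s = 0 := h3 1 2
      rcases hmn with h | h
      · exact h ((mul_eq_zero.1 a0).resolve_right s0)
      · exact h ((mul_eq_zero.1 a1).resolve_right s0)

include hs h𝒰 in
/-- sequences of small solutions are of cubic type -/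
theorem cubic : ∀ᶠ t in (𝒰 : Filter ℕ), Cubic (Q.E t).a (Q.E t).b (Q.E t).c :=
  Q.rank_two hs h𝒰 (Q.indep hs h𝒰)

end Sq

end Run7.h879.SH
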