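import Mathlib
import Pool.Agent.Run7.h879.SH.R7
import Pool.Agent.Run7.h879.SH.Cx2
import Pool.Agent.Run7.h879.SH.Cx3

/-!
The cubic polynomials have real roots.
-/

set_option autoImplicit false
set_option linter.unusedSectionVars false

open Filter

namespace Run7.h879.SH

open NumberField IsDedekindDomain
open Pool.Agent.Y742.SF Pool.Agent.Y742.AR Pool.Agent.N754.LT
open Pool.Agent.TH286.GT.GrowD (sg sg_coe sg_inj)
open Run7.h879.Sp Pool.Agent.W7.FH
open ComplexConjugate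

/-- the totally real cubic type -/
def RealCubic {K : Type} [Field K] [NumberField K] (a b c : K) : Prop :=
  ∃ f : Polynomial ℚ, Irreducible f ∧ f.natDegree = 3 ∧ (∀ z : ℂ, Polynomial.aeval z f = 0 →
    z.im = 0) ∧ f.map (algebraMap ℚ K) =
    (Polynomial.X - Polynomial.C (a / (a + b + c))) *
    (Polynomial.X - Polynomial.C (b / (a + b + c))) *
    (Polynomial.X - Polynomial.C (c / (a + b + c)))

variable {K : Type} [Field K] [NumberField K]

theorem aeval_iff (f : Polynomial ℚ) (α β γ : K) (hf : f.map (algebraMap ℚ K) =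
    (Polynomial.X - Polynomial.C α) * (Polynomial.X - Polynomial.C β) *
    (Polynomial.X - Polynomial.C γ)) (φ : K →+* ℂ) (z : ℂ) :
    Polynomial.aeval z f = 0 ↔ z = φ α ∨ z = φ β ∨ z = φ γ := by
  have h1 : Polynomial.aeval z f = (z - φ α) * (z - φ β) * (z - φ γ) := by
    have h2 : f.map (algebraMap ℚ ℂ) = (f.map (algebraMap ℚ K)).map φ := by
      rw [Polynomial.map_map]
      congr 1
      exact Subsingleton.elim _ _
    rw [Polynomial.aeval_def, ← Polynomial.eval_map, h2, hf]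
    simp
  rw [h1]
  simp only [mul_eq_zero, sub_eq_zero, or_assoc]

theorem aeval_conj (f : Polynomial ℚ) (z : ℂ) (h : Polynomial.aeval z f = 0) :
    Polynomial.aeval (conj z) f = 0 := by
  rw [Polynomial.aeval_def] at h ⊢
  have h1 := congrArg (starRingEnd ℂ) h
  rw [Polynomial.hom_eval₂, map_zero] at h1
  rw [← h1]
  congr 1
  exact Subsingleton.elim _ _

theorem nonreal_perm (f : Polynomial ℚ) (α β γ : K) (hs : α + β + γ = 1)
    (hf : f.map (algebraMap ℚ K) =
    (Polynomial.X - Polynomial.C α) * (Polynomial.X - Polynomial.C β) *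
    (Polynomial.X - Polynomial.C γ)) (φ : K →+* ℂ) (z : ℂ) (hz : Polynomial.aeval z f = 0)
    (him : z.im ≠ 0) :
    (conj (φ α) = φ β ∧ conj (φ γ) = φ γ) ∨ (conj (φ β) = φ γ ∧ conj (φ α) = φ α) ∨
      (conj (φ γ) = φ α ∧ conj (φ β) = φ β) := by
  have hsum : φ α + φ β + φ γ = 1 := by rw [← map_add, ← map_add, hs, map_one]
  have hcz : conj z ≠ z := by
    intro h
    rw [Complex.conj_eq_iff_im] at h
    exact him h
  have key : ∀ x y w : ℂ, x + y + w = 1 → conj x = y → conj w = w := by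
    intro x y w h1 h2
    have h3 : w = 1 - x - conj x := by rw [h2]; linear_combination h1
    rw [h3, map_sub, map_sub, map_one, Complex.conj_conj]
    ring
  have h1 := aeval_conj f z hz
  rw [aeval_iff f α β γ hf φ] at hz h1
  rcases hz with hz | hz | hz <;> rcases h1 with h1 | h1 | h1 <;> rw [hz] at h1 hcz
  · exact absurd h1 hcz
  · exact Or.inl ⟨h1, key _ _ _ hsum h1⟩
  · refine Or.inr (Or.inr ⟨?_, key (φ α) (φ γ) (φ β) (by linear_combination hsum) h1⟩)
    rw [← h1, Complex.conj_conj]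
  · refine Or.inl ⟨?_, key (φ β) (φ α) (φ γ) (by linear_combination hsum) h1⟩
    rw [← h1, Complex.conj_conj]
  · exact absurd h1 hcz
  · exact Or.inr (Or.inl ⟨h1, key (φ β) (φ γ) (φ α) (by linear_combination hsum) h1⟩)
  · exact Or.inr (Or.inr ⟨h1, key (φ γ) (φ α) (φ β) (by linear_combination hsum) h1⟩)
  · refine Or.inr (Or.inl ⟨?_, key (φ γ) (φ β) (φ α) (by linear_combination hsum) h1⟩)
    rw [← h1, Complex.conj_conj]
  · exact absurd h1 hcz

/-- the normalised sums -/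
noncomputable def Vn {p : ℕ} (E : Dat K p) (l : Fin 3) : K := E.U l / (E.U 0 + E.U 1 + E.U 2)

theorem dat_perm {p : ℕ} (E : Dat K p) (hs : E.a + E.b + E.c ≠ 0) (hC : Cubic E.a E.b E.c)
    (hR : ¬ RealCubic E.a E.b E.c) (φ : K →+* ℂ) :
    (∃ q : ℚ, Vn E 0 * Vn E 1 * Vn E 2 = algebraMap ℚ K q) ∧
    ∃ i j k : Fin 3, i ≠ j ∧ j ≠ k ∧ i ≠ k ∧ conj (φ (Vn E i)) = φ (Vn E k) ∧
      conj (φ (Vn E j)) = φ (Vn E j) := by
  obtain ⟨f, h1, h2, h3⟩ := hC
  have hz : ∃ z : ℂ, Polynomial.aeval z f = 0 ∧ z.im ≠ 0 := by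
    by_contra hcon
    push Not at hcon
    exact hR ⟨f, h1, h2, hcon, h3⟩
  obtain ⟨z, hz, him⟩ := hz
  obtain ⟨S, hS⟩ : ∃ S : K, S = E.U 0 + E.U 1 + E.U 2 := ⟨_, rfl⟩
  have hSs : S = 2 * (E.a + E.b + E.c) := by
    rw [hS]
    show E.a + E.b + (E.b + E.c) + (E.c + E.a) = _
    ring
  have hS0 : S ≠ 0 := by
    rw [hSs]
    exact mul_ne_zero two_ne_zero hs
  have hs2 : E.a + E.b + E.c = S / 2 := by rw [hSs]; ring
  have ha : E.a = S / 2 - E.U 1 := by
    rw [hSs]
    show E.a = _ - (E.b + E.c)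
    ring
  have hb : E.b = S / 2 - E.U 2 := by
    rw [hSs]
    show E.b = _ - (E.c + E.a)
    ring
  have hc : E.c = S / 2 - E.U 0 := by
    rw [hSs]
    show E.c = _ - (E.a + E.b)
    ring
  have ea : E.a / (E.a + E.b + E.c) = 1 - 2 * Vn E 1 := by
    rw [hs2, ha, Vn, ← hS]
    field_simp
  have eb : E.b / (E.a + E.b + E.c) = 1 - 2 * Vn E 2 := by
    rw [hs2, hb, Vn, ← hS]
    field_simp
  have ec : E.c / (E.a + E.b + E.c) = 1 - 2 * Vn E 0 := by
    rw [hs2, hc, Vn, ← hS]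
    field_simp
  rw [ea, eb, ec] at h3
  have hsum : (1 - 2 * Vn E 1) + (1 - 2 * Vn E 2) + (1 - 2 * Vn E 0) = 1 := by
    rw [← ea, ← eb, ← ec, ← add_div, ← add_div, div_self hs]
  refine ⟨⟨f.eval 1 / 8, ?_⟩, ?_⟩
  · have h4 := congrArg (Polynomial.eval 1) h3
    have h5 : Polynomial.eval (1 : K) (f.map (algebraMap ℚ K)) = algebraMap ℚ K (f.eval 1) := by
      rw [Polynomial.eval_map, ← map_one (algebraMap ℚ K), Polynomial.eval₂_at_apply]
    rw [h5] at h4
    rw [map_div₀, h4, map_ofNat]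
    simp only [Polynomial.eval_mul, Polynomial.eval_sub, Polynomial.eval_X, Polynomial.eval_C]
    ring
  · have h4 := nonreal_perm f _ _ _ hsum h3 φ z hz him
    have conv : ∀ i k : Fin 3, conj (φ (1 - 2 * Vn E i)) = φ (1 - 2 * Vn E k) →
        conj (φ (Vn E i)) = φ (Vn E k) := by
      intro i k h5
      rw [map_sub, map_mul, map_one, map_sub, map_mul, map_one, map_ofNat, map_ofNat, map_sub,
        map_mul, map_one, map_ofNat] at h5
      linear_combination (-1 / 2 : ℂ) * h5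
    rcases h4 with ⟨h5, h6⟩ | ⟨h5, h6⟩ | ⟨h5, h6⟩
    · exact ⟨1, 0, 2, by decide, by decide, by decide, conv _ _ h5, conv _ _ h6⟩
    · exact ⟨2, 1, 0, by decide, by decide, by decide, conv _ _ h5, conv _ _ h6⟩
    · exact ⟨0, 2, 1, by decide, by decide, by decide, conv _ _ h5, conv _ _ h6⟩

end Run7.h879.SH
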