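import Mathlib
import Pool.Agent.Run7.h879.SH.Cx4

/-!
The cubic polynomials have real roots: sequences.
-/

set_option autoImplicit false
set_option linter.unusedSectionVars false

open Filter

namespace Run7.h879.SH

open NumberField IsDedekindDomain
open Pool.Agent.Y742.SF Pool.Agent.Y742.AR Pool.Agent.N754.LT
open Pool.Agent.TH286.GT.GrowD (sg sg_coe sg_inj)
open Run7.h879.Sp Pool.Agent.W7.FH
open ComplexConjugate

namespace Sq

variable {K : Type} [Field K] [NumberField K]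
variable (Q : Sq K) {M : Type} [Field M] [NumberField M] [Algebra K M] [IsGalois ℚ M] {D : PD M}
  (hs : D.s = 0) {𝒰 : Ultrafilter ℕ} (h𝒰 : (𝒰 : Filter ℕ) ≤ atTop)

theorem sumU_ne (t : ℕ) : (Q.E t).U 0 + (Q.E t).U 1 + (Q.E t).U 2 ≠ 0 := by
  have h1 : (Q.E t).U 0 + (Q.E t).U 1 + (Q.E t).U 2 =
      2 * ((Q.E t).a + (Q.E t).b + (Q.E t).c) := by
    show (Q.E t).a + (Q.E t).b + ((Q.E t).b + (Q.E t).c) + ((Q.E t).c + (Q.E t).a) = _
    ring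
  rw [h1]
  exact mul_ne_zero two_ne_zero (Q.hs t)

theorem Vn_ne (t : ℕ) (l : Fin 3) : Vn (Q.E t) l ≠ 0 :=
  div_ne_zero ((Q.E t).U_ne l) (Q.sumU_ne t)

theorem Vn_om (t : ℕ) (l : Fin 3) : Vn (Q.E t) l * ((Q.pt t : K) * (2 * (Q.om l t : K))) = 1 := by
  have h1 := Q.sum_eq t l
  have h2 := Q.sumU_ne t
  unfold Vn
  rw [div_mul_eq_mul_div, div_eq_one_iff_eq h2]
  linear_combination -h1

theorem Vn_sum (t : ℕ) : Vn (Q.E t) 0 + Vn (Q.E t) 1 + Vn (Q.E t) 2 = 1 := by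
  unfold Vn
  rw [← add_div, ← add_div, div_self (Q.sumU_ne t)]

/-- the product is small -/
theorem Vn_prod (t : ℕ) (q : ℚ)
    (hq : Vn (Q.E t) 0 * Vn (Q.E t) 1 * Vn (Q.E t) 2 = algebraMap ℚ K q) (φ : K →+* ℂ) :
    ‖φ (Vn (Q.E t) 0 * Vn (Q.E t) 1 * Vn (Q.E t) 2)‖ ≤ 1 / (Q.pt t : ℝ) ^ 3 := by
  have hp : (Q.pt t : K) ≠ 0 := by
    have := (Q.hp t).ne_zero
    exact_mod_cast this
  have hpR : (0 : ℝ) < Q.pt t := by exact_mod_cast Q.hp0 t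
  obtain ⟨w, hw⟩ : ∃ w : K, w = (2 * (Q.om 0 t : K)) * (2 * (Q.om 1 t : K)) * (2 * (Q.om 2 t : K)) :=
    ⟨_, rfl⟩
  have hmul : Vn (Q.E t) 0 * Vn (Q.E t) 1 * Vn (Q.E t) 2 * ((Q.pt t : K) ^ 3 * w) = 1 := by
    calc Vn (Q.E t) 0 * Vn (Q.E t) 1 * Vn (Q.E t) 2 * ((Q.pt t : K) ^ 3 * w) =
        (Vn (Q.E t) 0 * ((Q.pt t : K) * (2 * (Q.om 0 t : K)))) *
        (Vn (Q.E t) 1 * ((Q.pt t : K) * (2 * (Q.om 1 t : K)))) *
        (Vn (Q.E t) 2 * ((Q.pt t : K) * (2 * (Q.om 2 t : K)))) := by rw [hw]; ring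
      _ = 1 := by rw [Q.Vn_om, Q.Vn_om, Q.Vn_om]; norm_num
  have hq0 : q ≠ 0 := by
    rintro rfl
    rw [map_zero] at hq
    rw [hq, zero_mul] at hmul
    exact zero_ne_one hmul
  have hwq : w = algebraMap ℚ K (1 / ((Q.pt t : ℚ) ^ 3 * q)) := by
    have hq' : algebraMap ℚ K q ≠ 0 := (map_ne_zero _).2 hq0
    rw [map_div₀, map_one, map_mul, map_pow, map_natCast, eq_div_iff
      (mul_ne_zero (pow_ne_zero 3 hp) hq'), ← hq]
    linear_combination hmul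
  have hwint : IsIntegral ℤ w := by
    rw [hw]
    have h2 : IsIntegral ℤ (2 : K) := by
      have := isIntegral_algebraMap (R := ℤ) (A := K) (x := 2)
      simpa using this
    have h3 : ∀ l, IsIntegral ℤ (Q.om l t : K) := fun l => RingOfIntegers.isIntegral_coe _
    exact ((h2.mul (h3 0)).mul (h2.mul (h3 1))).mul (h2.mul (h3 2))
  rw [hwq] at hwint
  have hint : IsIntegral ℤ (1 / ((Q.pt t : ℚ) ^ 3 * q)) :=
    (isIntegral_algebraMap_iff (algebraMap ℚ K).injective).1 hwint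
  obtain ⟨n, hn⟩ := IsIntegrallyClosed.isIntegral_iff.1 hint
  have hwn : w = (n : K) := by
    rw [hwq, ← hn]
    simp
  have hn0 : n ≠ 0 := by
    rintro rfl
    rw [Int.cast_zero] at hwn
    rw [hwn, mul_zero, mul_zero] at hmul
    exact zero_ne_one hmul
  rw [hwn] at hmul
  obtain ⟨e, he⟩ : ∃ e : K, e = Vn (Q.E t) 0 * Vn (Q.E t) 1 * Vn (Q.E t) 2 := ⟨_, rfl⟩
  rw [← he] at hmul ⊢
  have h5 := congrArg (fun x => ‖φ x‖) hmul
  rw [map_mul, norm_mul, map_mul, map_pow, map_natCast, map_intCast, norm_mul, norm_pow,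
    Complex.norm_natCast, map_one, norm_one, Complex.norm_intCast] at h5
  have h6 : (1 : ℝ) ≤ |(n : ℝ)| := by
    rw [← Int.cast_abs]
    exact_mod_cast Int.one_le_abs hn0
  rw [le_div_iff₀ (by positivity)]
  have h7 : ‖φ e‖ * (Q.pt t : ℝ) ^ 3 ≤ ‖φ e‖ * ((Q.pt t : ℝ) ^ 3 * |(n : ℝ)|) := by
    refine mul_le_mul_of_nonneg_left ?_ (norm_nonneg _)
    exact le_mul_of_one_le_right (by positivity) h6
  linarith

theorem fermatV (t : ℕ) (i j k : Fin 3) (hij : i ≠ j) (hjk : j ≠ k) (hik : i ≠ k) :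
    (1 - 2 * Vn (Q.E t) j) ^ Q.pt t + (1 - 2 * Vn (Q.E t) i) ^ Q.pt t +
      (1 - 2 * Vn (Q.E t) k) ^ Q.pt t = 0 := by
  obtain ⟨S, hS⟩ : ∃ S : K, S = (Q.E t).U 0 + (Q.E t).U 1 + (Q.E t).U 2 := ⟨_, rfl⟩
  have hS0 : S ≠ 0 := by rw [hS]; exact Q.sumU_ne t
  have hSs : S = 2 * ((Q.E t).a + (Q.E t).b + (Q.E t).c) := by
    rw [hS]
    show (Q.E t).a + (Q.E t).b + ((Q.E t).b + (Q.E t).c) + ((Q.E t).c + (Q.E t).a) = _
    ring
  have h1 := sum_perm (fun l => (1 - 2 * Vn (Q.E t) l) ^ Q.pt t) j i k (Ne.symm hij) hik hjk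
  rw [h1]
  have e0 : 1 - 2 * Vn (Q.E t) 0 = (2 / S) * (Q.E t).c := by
    rw [Vn, ← hS]
    have : (Q.E t).c = S / 2 - (Q.E t).U 0 := by
      rw [hSs]
      show (Q.E t).c = _ - ((Q.E t).a + (Q.E t).b)
      ring
    rw [this]
    field_simp
  have e1 : 1 - 2 * Vn (Q.E t) 1 = (2 / S) * (Q.E t).a := by
    rw [Vn, ← hS]
    have : (Q.E t).a = S / 2 - (Q.E t).U 1 := by
      rw [hSs]
      show (Q.E t).a = _ - ((Q.E t).b + (Q.E t).c)
      ring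
    rw [this]
    field_simp
  have e2 : 1 - 2 * Vn (Q.E t) 2 = (2 / S) * (Q.E t).b := by
    rw [Vn, ← hS]
    have : (Q.E t).b = S / 2 - (Q.E t).U 2 := by
      rw [hSs]
      show (Q.E t).b = _ - ((Q.E t).c + (Q.E t).a)
      ring
    rw [this]
    field_simp
  rw [e0, e1, e2, mul_pow, mul_pow, mul_pow]
  linear_combination (2 / S) ^ Q.pt t * (Q.E t).h

theorem log_fM_le (j : Fin 3) (t : ℕ) (φ : M →+* ℂ) :
    |Real.log ‖φ ((Q.fM M j t : 𝓞 M) : M)‖| ≤ (Q.A + Module.finrank ℚ K + 1) * Np Q.pt t :=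
  (Q.log_fM j t φ).trans (Q.log_bound t)

theorem fM_Vn (t : ℕ) (l : Fin 3) : ((Q.fM M l t : 𝓞 M) : M) =
    algebraMap K M (Vn (Q.E t) l) / algebraMap K M (Vn (Q.E t) 2) := by
  rw [Q.fM_coe, ← map_div₀]
  congr 1
  have h2 := Q.sumU_ne t
  have h3 := (Q.E t).U_ne 2
  unfold Vn
  field_simp

end Sq

end Run7.h879.SH
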