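import Mathlib
import Pool.Agent.Run7.h879.SH.Cx5

/-!
The cubic polynomials have real roots: the end.
-/

set_option autoImplicit false
set_option linter.unusedSectionVars false

open Filter

namespace Run7.h879.SH

open NumberField IsDedekindDomain
open Pool.Agent.Y742.SF Pool.Agent.Y742.AR Pool.Agent.N754.LT
open Pool.Agent.TH286.GT.GrowD (sg sg_coe sg_inj)
open Run7.h879.Sp Pool.Agent.W7.FH
open ComplexConjugate

theorem prod_perm {A : Type} [CommMonoid A] (f : Fin 3 → A) (i j k : Fin 3) (hij : i ≠ j)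
    (hjk : j ≠ k) (hik : i ≠ k) : f i * f j * f k = f 0 * f 1 * f 2 :=
  sum_perm (A := Additive A) f i j k hij hjk hik

namespace Sq

variable {K : Type} [Field K] [NumberField K]
variable (Q : Sq K) {M : Type} [Field M] [NumberField M] [Algebra K M] [IsGalois ℚ M] {D : PD M}
  (hs : D.s = 0) {𝒰 : Ultrafilter ℕ} (h𝒰 : (𝒰 : Filter ℕ) ≤ atTop)

include hs h𝒰 in
/-- quotients of the units are not constant -/
theorem not_const (i k : Fin 3) (hik : i ≠ k) (d : M) :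
    ¬ ∀ᶠ t in (𝒰 : Filter ℕ),
      ((((Q.fM M i t * (Q.fM M k t)⁻¹) ^ 2 : (𝓞 M)ˣ) : 𝓞 M) : M) = d := by
  intro h
  obtain ⟨Y, hY⟩ : ∃ Y, Y = (Q.Xs (M := M) hs h𝒰 i * (Q.Xs hs h𝒰 k)⁻¹) ^ (2 : ℤ) := ⟨_, rfl⟩
  have coeMul : ∀ a b : (𝓞 M)ˣ, (((a * b : (𝓞 M)ˣ) : 𝓞 M) : M) =
      ((a : 𝓞 M) : M) * ((b : 𝓞 M) : M) := fun a b => by
    rw [Units.val_mul]
    exact map_mul (algebraMap (𝓞 M) M) _ _
  have h1 : (Q.S (M := M) hs h𝒰).π Y = 0 := by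
    rw [Sys.π_zero]
    refine ⟨d, vl_inj ?_⟩
    refine (sqS_spec hs (Q.pt_tendsto h𝒰) Y).trans ?_
    rw [vl_const, cg_eq, gm_eq, hY]
    filter_upwards [h, sqS_zpow hs (Q.pt_tendsto h𝒰) (Q.Xs (M := M) hs h𝒰 i *
      (Q.Xs hs h𝒰 k)⁻¹) 2, sqS_mul hs (Q.pt_tendsto h𝒰) (Q.Xs (M := M) hs h𝒰 i)
      (Q.Xs hs h𝒰 k)⁻¹, sqS_inv hs (Q.pt_tendsto h𝒰) (Q.Xs (M := M) hs h𝒰 k),
      Q.sq_Xs (M := M) hs h𝒰 i, Q.sq_Xs (M := M) hs h𝒰 k] with t k1 k2 k3 k4 k5 k6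
    rw [pow_two, coeMul, coeMul, coe_inv] at k1
    rw [k2, k3, k4, k5, k6, ← k1, zpow_ofNat, pow_two]
  rw [hY, Sys.π_zpow, Sys.π_mul, Sys.π_inv] at h1
  have h2 := (Q.S (M := M) hs h𝒰).torsion _ 2 two_ne_zero h1
  have h2π : (Q.S (M := M) hs h𝒰).π (Q.Xs hs h𝒰 2) = 0 := by
    rw [Q.Xs_two hs h𝒰]
    rfl
  have hind := Q.indep (M := M) hs h𝒰
  have h01 : (Q.S (M := M) hs h𝒰).π (Q.Xs hs h𝒰 0) = (Q.S (M := M) hs h𝒰).π (Q.Xs hs h𝒰 1) →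
      False := by
    intro h3
    have h4 := hind 1 (-1) (by rw [h3, one_smul, neg_smul, one_smul, add_neg_cancel])
    omega
  have h0 : (Q.S (M := M) hs h𝒰).π (Q.Xs hs h𝒰 0) = 0 → False := by
    intro h3
    have h4 := hind 1 0 (by rw [h3, smul_zero, zero_smul, add_zero])
    omega
  have h1' : (Q.S (M := M) hs h𝒰).π (Q.Xs hs h𝒰 1) = 0 → False := by
    intro h3
    have h4 := hind 0 1 (by rw [h3, smul_zero, zero_smul, add_zero])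
    omega
  have h3 : (Q.S (M := M) hs h𝒰).π (Q.Xs hs h𝒰 i) = (Q.S (M := M) hs h𝒰).π (Q.Xs hs h𝒰 k) :=
    eq_of_sub_eq_zero (by rw [sub_eq_add_neg]; exact h2)
  have h4 : ∀ i k : Fin 3, i ≠ k → (Q.S (M := M) hs h𝒰).π (Q.Xs hs h𝒰 i) =
      (Q.S (M := M) hs h𝒰).π (Q.Xs hs h𝒰 k) → False := by
    intro i k hik h3
    fin_cases i <;> fin_cases k
    · exact hik rfl
    · exact h01 h3
    · exact h0 (h3.trans h2π)
    · exact h01 h3.symm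
    · exact hik rfl
    · exact h1' (h3.trans h2π)
    · exact h0 (h3.symm.trans h2π)
    · exact h1' (h3.symm.trans h2π)
    · exact hik rfl
  exact h4 i k hik h3

include hs h𝒰 in
theorem real_cubic : ∀ᶠ t in (𝒰 : Filter ℕ), RealCubic (Q.E t).a (Q.E t).b (Q.E t).c := by
  classical
  by_contra hcon
  rw [← Ultrafilter.eventually_not] at hcon
  obtain ⟨φ, hφ⟩ : ∃ φ : K →+* ℂ, φ = D.ψ.comp (algebraMap K M) := ⟨_, rfl⟩
  have h1 : ∀ᶠ t in (𝒰 : Filter ℕ), (∃ q : ℚ, Vn (Q.E t) 0 * Vn (Q.E t) 1 * Vn (Q.E t) 2 =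
      algebraMap ℚ K q) ∧ ∃ x : Fin 3 × Fin 3 × Fin 3, x.1 ≠ x.2.1 ∧ x.2.1 ≠ x.2.2 ∧ x.1 ≠ x.2.2 ∧
      conj (φ (Vn (Q.E t) x.1)) = φ (Vn (Q.E t) x.2.2) ∧
      conj (φ (Vn (Q.E t) x.2.1)) = φ (Vn (Q.E t) x.2.1) := by
    filter_upwards [hcon, Q.cubic (M := M) hs h𝒰] with t k1 k2
    obtain ⟨k3, i, j, k, k4⟩ := dat_perm (Q.E t) (Q.hs t) k2 k1 φ
    exact ⟨k3, ⟨i, j, k⟩, k4⟩
  have h2 : ∀ t, ∃ x : Fin 3 × Fin 3 × Fin 3, (∃ x : Fin 3 × Fin 3 × Fin 3, x.1 ≠ x.2.1 ∧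
      x.2.1 ≠ x.2.2 ∧ x.1 ≠ x.2.2 ∧ conj (φ (Vn (Q.E t) x.1)) = φ (Vn (Q.E t) x.2.2) ∧
      conj (φ (Vn (Q.E t) x.2.1)) = φ (Vn (Q.E t) x.2.1)) → x.1 ≠ x.2.1 ∧
      x.2.1 ≠ x.2.2 ∧ x.1 ≠ x.2.2 ∧ conj (φ (Vn (Q.E t) x.1)) = φ (Vn (Q.E t) x.2.2) ∧
      conj (φ (Vn (Q.E t) x.2.1)) = φ (Vn (Q.E t) x.2.1) := by
    intro t
    by_cases h : ∃ x : Fin 3 × Fin 3 × Fin 3, x.1 ≠ x.2.1 ∧
      x.2.1 ≠ x.2.2 ∧ x.1 ≠ x.2.2 ∧ conj (φ (Vn (Q.E t) x.1)) = φ (Vn (Q.E t) x.2.2) ∧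
      conj (φ (Vn (Q.E t) x.2.1)) = φ (Vn (Q.E t) x.2.1)
    · obtain ⟨x, hx⟩ := h
      exact ⟨x, fun _ => hx⟩
    · exact ⟨(0, 0, 0), fun h' => absurd h' h⟩
  choose F hF using h2
  obtain ⟨⟨i, j, k⟩, hb⟩ := eventually_const (𝒰 := 𝒰) F
  have h3 : ∀ᶠ t in (𝒰 : Filter ℕ), (∃ q : ℚ, Vn (Q.E t) 0 * Vn (Q.E t) 1 * Vn (Q.E t) 2 =
      algebraMap ℚ K q) ∧ i ≠ j ∧ j ≠ k ∧ i ≠ k ∧ conj (φ (Vn (Q.E t) i)) = φ (Vn (Q.E t) k) ∧
      conj (φ (Vn (Q.E t) j)) = φ (Vn (Q.E t) j) := by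
    filter_upwards [h1, hb] with t k1 k2
    have k3 := hF t k1.2
    rw [k2] at k3
    exact ⟨k1.1, k3⟩
  obtain ⟨-, -, hij, hjk, hik, -⟩ := h3.exists
  -- the constants
  obtain ⟨c, hc⟩ : ∃ c : ℝ, c = Q.A + Module.finrank ℚ K + 1 := ⟨_, rfl⟩
  have hc0 : 0 ≤ c := by
    rw [hc]
    have := Q.hA
    positivity
  obtain ⟨P0, hP0⟩ := complex_core (4 * c + 2) (by linarith)
  have hpt := Q.pt_tendsto h𝒰
  have hcore : ∀ᶠ t in (𝒰 : Filter ℕ),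
      ‖D.ψ (1 + ((((Q.fM M i t * (Q.fM M k t)⁻¹) ^ 2 : (𝓞 M)ˣ) : 𝓞 M) : M))‖ ≤
        Real.exp (-(1 / 4 * Np Q.pt t)) := by
    filter_upwards [h3, hpt.eventually_ge_atTop (max P0 100000)] with t k1 k2
    obtain ⟨⟨q, hq⟩, -, -, -, k3, k4⟩ := k1
    have hpP : P0 ≤ Q.pt t := (le_max_left _ _).trans k2
    have hp5 : 100000 ≤ Q.pt t := (le_max_right _ _).trans k2
    have hodd : Odd (Q.pt t) := (Q.hp t).odd_of_ne_two (by have := Q.h5 t; omega)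
    have hpR : (100000 : ℝ) ≤ Q.pt t := by exact_mod_cast hp5
    have hp0 : (0 : ℝ) < Q.pt t := by linarith
    have hne : ∀ l, φ (Vn (Q.E t) l) ≠ 0 := fun l => (map_ne_zero _).2 (Q.Vn_ne t l)
    obtain ⟨r, hr⟩ : ∃ r : ℝ, r = (φ (Vn (Q.E t) j)).re := ⟨_, rfl⟩
    have hrφ : φ (Vn (Q.E t) j) = (r : ℂ) := by
      rw [hr]
      exact (Complex.conj_eq_iff_re.1 k4).symm
    obtain ⟨u, hu⟩ : ∃ u : ℂ, u = φ (Vn (Q.E t) i) := ⟨_, rfl⟩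
    rw [← hu] at k3
    have hr0 : r ≠ 0 := by
      intro h0
      apply hne j
      rw [hrφ, h0, Complex.ofReal_zero]
    have hu0 : u ≠ 0 := by rw [hu]; exact hne i
    have hnu : 0 < ‖u‖ := norm_pos_iff.2 hu0
    have a1 : (r : ℂ) + u + conj u = 1 := by
      rw [k3, hu, ← hrφ, ← map_add, ← map_add]
      have h4 := sum_perm (fun l => Vn (Q.E t) l) j i k (Ne.symm hij) hik hjk
      rw [h4, Q.Vn_sum, map_one]
    have a2 : |r| * ‖u‖ ^ 2 ≤ 1 / (Q.pt t : ℝ) ^ 3 := by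
      have h4 := Q.Vn_prod t q hq φ
      have h5 := prod_perm (fun l => Vn (Q.E t) l) j i k (Ne.symm hij) hik hjk
      rw [← h5, map_mul, map_mul, norm_mul, norm_mul, hrφ, ← hu, ← k3, RCLike.norm_conj,
        Complex.norm_real, Real.norm_eq_abs] at h4
      calc |r| * ‖u‖ ^ 2 = |r| * ‖u‖ * ‖u‖ := by ring
        _ ≤ _ := h4
    have hlogr : Real.log ‖φ (Vn (Q.E t) j)‖ = Real.log |r| := by
      rw [hrφ, Complex.norm_real, Real.norm_eq_abs]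
    -- the logarithms
    have hlg : ∀ l, Real.log ‖D.ψ ((Q.fM M l t : 𝓞 M) : M)‖ =
        Real.log ‖φ (Vn (Q.E t) l)‖ - Real.log ‖φ (Vn (Q.E t) 2)‖ := by
      intro l
      rw [Q.fM_Vn, map_div₀, norm_div, hφ]
      rw [hφ] at hne
      exact Real.log_div (norm_ne_zero_iff.2 (hne l)) (norm_ne_zero_iff.2 (hne 2))
    have hnk : ‖φ (Vn (Q.E t) k)‖ = ‖u‖ := by rw [← k3, RCLike.norm_conj]
    have a3 : |r| ≤ Real.exp 4 * Q.pt t * ‖u‖ := by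
      have h4 := Q.gap (D := D) 1 t i k j hik
      have h5 : ∀ l, Q.rr D 1 l t = Real.log ‖φ (Vn (Q.E t) l)‖ -
          Real.log ‖φ (Vn (Q.E t) 2)‖ := fun l => hlg l
      rw [h5, h5, h5, hnk, ← hu, max_self, hlogr] at h4
      have h6 : Real.log |r| ≤ Real.log (Real.exp 4 * Q.pt t * ‖u‖) := by
        rw [Real.log_mul (by positivity) hnu.ne', Real.log_mul (Real.exp_pos _).ne' hp0.ne',
          Real.log_exp]
        linarith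
      exact (Real.log_le_log_iff (abs_pos.2 hr0) (by positivity)).1 h6
    obtain ⟨b1, b2⟩ := cx_small hp5 r u a1 a2 a3
    have hlogp : 1 ≤ Real.log (Q.pt t) := by
      rw [Real.le_log_iff_exp_le hp0]
      have := Real.exp_one_lt_d9
      linarith
    have a4 : -((4 * c + 2) * Real.log (Q.pt t)) ≤ Real.log |r| := by
      have h4 := Q.log_fM_le j t D.ψ
      have h5 := Q.log_fM_le i t D.ψ
      rw [hlg, hlogr, ← hc] at h4
      rw [hlg, ← hu, ← hc] at h5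
      have h6 : -2 ≤ Real.log ‖u‖ := by
        have h7 : Real.log (1 / 3) ≤ Real.log ‖u‖ := Real.log_le_log (by norm_num) b1
        have h8 : Real.log (1 / 3) = -Real.log 3 := by rw [one_div, Real.log_inv]
        have h9 := Real.log_le_sub_one_of_pos (show (0 : ℝ) < 3 by norm_num)
        linarith
      have h7 := (abs_le.1 h4).1
      have h8 := (abs_le.1 h5).2
      unfold Np at h7 h8
      have h9 : c ≤ c * Real.log (Q.pt t) := le_mul_of_one_le_right hc0 hlogp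
      nlinarith
    have a5 : (1 - 2 * (r : ℂ)) ^ Q.pt t + (1 - 2 * u) ^ Q.pt t +
        (1 - 2 * conj u) ^ Q.pt t = 0 := by
      have h4 := congrArg φ (Q.fermatV t i j k hij hjk hik)
      simp only [map_add, map_pow, map_sub, map_mul, map_one, map_ofNat, map_zero] at h4
      rw [hrφ, ← hu, ← k3] at h4
      exact h4
    have h4 := hP0 (Q.pt t) hpP hodd r u hr0 a1 a2 a3 a5 a4
    have h5 : D.ψ (1 + ((((Q.fM M i t * (Q.fM M k t)⁻¹) ^ 2 : (𝓞 M)ˣ) : 𝓞 M) : M)) =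
        (u / conj u) ^ 2 + 1 := by
      have coeMul : ∀ a b : (𝓞 M)ˣ, (((a * b : (𝓞 M)ˣ) : 𝓞 M) : M) =
          ((a : 𝓞 M) : M) * ((b : 𝓞 M) : M) := fun a b => by
        rw [Units.val_mul]
        exact map_mul (algebraMap (𝓞 M) M) _ _
      have hv2 : algebraMap K M (Vn (Q.E t) 2) ≠ 0 := (map_ne_zero _).2 (Q.Vn_ne t 2)
      have h6 : ((Q.fM M i t : 𝓞 M) : M) * (((Q.fM M k t : 𝓞 M) : M))⁻¹ =
          algebraMap K M (Vn (Q.E t) i) / algebraMap K M (Vn (Q.E t) k) := by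
        rw [Q.fM_Vn, Q.fM_Vn]
        have hvk : algebraMap K M (Vn (Q.E t) k) ≠ 0 := (map_ne_zero _).2 (Q.Vn_ne t k)
        field_simp
      rw [pow_two, coeMul, coeMul, coe_inv, h6, map_add, map_one, map_mul, map_div₀, k3, hu, hφ,
        RingHom.comp_apply, RingHom.comp_apply]
      ring
    rw [h5]
    refine h4.trans ?_
    have h6 : 1 / Real.sqrt (Q.pt t) = Real.exp (-(1 / 2 * Real.log (Q.pt t))) := by
      rw [Real.exp_neg, one_div, Real.sqrt_eq_rpow, Real.rpow_def_of_pos hp0]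
      congr 2
      ring
    rw [h6]
    apply Real.exp_le_exp.2
    unfold Np
    linarith
  -- the size
  have hsz : ∀ᶠ t in (𝒰 : Filter ℕ), ∀ σ : M ≃ₐ[ℚ] M,
      ‖D.ψ (σ ((((Q.fM M i t * (Q.fM M k t)⁻¹) ^ 2 : (𝓞 M)ˣ) : 𝓞 M) : M))‖ ≤
        Real.exp (4 * c * Np Q.pt t) := by
    refine Filter.Eventually.of_forall fun t σ => ?_
    have coeMul : ∀ a b : (𝓞 M)ˣ, (((a * b : (𝓞 M)ˣ) : 𝓞 M) : M) =
        ((a : 𝓞 M) : M) * ((b : 𝓞 M) : M) := fun a b => by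
      rw [Units.val_mul]
      exact map_mul (algebraMap (𝓞 M) M) _ _
    have h4 := Q.log_fM_le i t (D.ψ.comp (σ : M →+* M))
    have h5 := Q.log_fM_le k t (D.ψ.comp (σ : M →+* M))
    have p1 : 0 < ‖D.ψ (σ ((Q.fM M i t : 𝓞 M) : M))‖ :=
      ψ_pos D ((map_ne_zero _).2 (Q.fM_ne i t))
    have p2 : 0 < ‖D.ψ (σ ((Q.fM M k t : 𝓞 M) : M))‖ :=
      ψ_pos D ((map_ne_zero _).2 (Q.fM_ne k t))
    rw [← hc] at h4 h5
    have h4' : |Real.log ‖D.ψ (σ ((Q.fM M i t : 𝓞 M) : M))‖| ≤ c * Np Q.pt t := h4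
    have h5' : |Real.log ‖D.ψ (σ ((Q.fM M k t : 𝓞 M) : M))‖| ≤ c * Np Q.pt t := h5
    rw [pow_two, coeMul, coeMul, coe_inv, map_mul, map_mul, norm_mul, map_mul, map_mul, norm_mul,
      map_inv₀, map_inv₀, norm_inv]
    have h6 : ‖D.ψ (σ ((Q.fM M i t : 𝓞 M) : M))‖ * ‖D.ψ (σ ((Q.fM M k t : 𝓞 M) : M))‖⁻¹ *
        (‖D.ψ (σ ((Q.fM M i t : 𝓞 M) : M))‖ * ‖D.ψ (σ ((Q.fM M k t : 𝓞 M) : M))‖⁻¹) =
        Real.exp (2 * Real.log ‖D.ψ (σ ((Q.fM M i t : 𝓞 M) : M))‖ -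
          2 * Real.log ‖D.ψ (σ ((Q.fM M k t : 𝓞 M) : M))‖) := by
      rw [Real.exp_sub, two_mul, two_mul, Real.exp_add, Real.exp_add, Real.exp_log p1,
        Real.exp_log p2]
      field_simp
    rw [h6]
    apply Real.exp_le_exp.2
    have := abs_le.1 h4'
    have := abs_le.1 h5'
    linarith
  exact approx_false hs (Np Q.pt) (Np_tendsto Q.pt hpt)
    (fun t => by have := one_le_Np Q.pt Q.hp0 t; linarith)
    (fun t => (Q.fM M i t * (Q.fM M k t)⁻¹) ^ 2) (4 * c) (by linarith) hsz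
    (fun d => Q.not_const hs h𝒰 i k hik d) (1 / 4) (by norm_num) hcore

end Sq

end Run7.h879.SH
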