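import Mathlib
import Pool.Agent.Run7.h879.SH.Cx6
import Pool.Agent.N754.LT.Ext

/-!
The heights of solutions of Fermat's equation: superpolynomial growth.
-/

set_option autoImplicit false
set_option linter.unusedSectionVars false

open Filter

namespace Run7.h879.SH

open NumberField Height
open Pool.Agent.Y742.SF Pool.Agent.Y742.AR Pool.Agent.N754.LT
open Run7.h879.Sp

theorem pow_small (d A : ℕ) : ∃ N1 : ℕ, ∀ p : ℕ, N1 ≤ p → (2 : ℝ) ^ d * (p : ℝ) ^ A < 2 ^ p := by
  have h1 : Tendsto (fun n : ℕ => (n : ℝ) ^ A / 2 ^ n) atTop (nhds 0) := by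
    have h2 := tendsto_pow_const_div_const_pow_of_one_lt A (show (1 : ℝ) < 2 by norm_num)
    exact h2
  have h3 : ∀ᶠ n : ℕ in atTop, (n : ℝ) ^ A / 2 ^ n < 1 / 2 ^ d :=
    h1.eventually (gt_mem_nhds (by positivity))
  obtain ⟨N1, hN1⟩ := eventually_atTop.1 h3
  refine ⟨N1, fun p hp => ?_⟩
  have h4 := hN1 p hp
  rw [div_lt_div_iff₀ (by positivity) (by positivity)] at h4
  linarith

/-- the main theorem -/
theorem main (K : Type) [Field K] [NumberField K] (A : ℕ) : ∃ P : ℕ, ∀ p : ℕ, p.Prime → P ≤ p →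
    ∀ a b c : K, a ≠ 0 → b ≠ 0 → c ≠ 0 → a ^ p + b ^ p + c ^ p = 0 →
      (p : ℝ) ^ A ≤ mulHeight ![a, b, c] ∨ (a + b + c = 0 ∧ a ^ 2 + a * b + b ^ 2 = 0) ∨
        (a + b + c ≠ 0 ∧ RealCubic a b c) := by
  by_contra hcon
  push Not at hcon
  obtain ⟨p0, hp0⟩ := omega_of_sum (K := K)
  obtain ⟨N1, hN1⟩ := pow_small (Module.finrank ℚ K) A
  have hex : ∀ t : ℕ, ∃ (p : ℕ) (_ : p.Prime) (_ : t ≤ p) (_ : 5 ≤ p)
      (_ : ¬ ((p : ℤ) ∣ discr K)) (D : Dat K p), D.ht ≤ A * Real.log p ∧ D.a + D.b + D.c ≠ 0 ∧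
        ¬ RealCubic D.a D.b D.c := by
    intro t
    obtain ⟨p, hp, hP, a, b, c, ha, hb, hc, h, h1, h2, h3⟩ := hcon
      (t + 5 + (Module.finrank ℚ K + 2) + 2 * Module.finrank ℚ K + p0 + ((discr K).natAbs + 1) + N1)
    have hp5 : 5 ≤ p := by omega
    have hN := hN1 p (by omega)
    have hH : 2 ^ Module.finrank ℚ K * mulHeight ![a, b, c] < 2 ^ p := by
      refine lt_trans ?_ hN
      exact mul_lt_mul_of_pos_left h1 (by positivity)
    obtain ⟨D, rfl, rfl, rfl⟩ := exists_dat hp hp5 (by omega) (by omega) ha hb hc h hH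
    have hd : ¬ ((p : ℤ) ∣ discr K) := by
      intro hdiv
      have h4 := Int.natAbs_dvd_natAbs.2 hdiv
      have h5 : 0 < (discr K).natAbs := Int.natAbs_pos.2 (discr_ne_zero K)
      have h6 := Nat.le_of_dvd h5 h4
      rw [Int.natAbs_natCast] at h6
      omega
    have hs : D.a + D.b + D.c ≠ 0 := by
      intro hs0
      exact h2 hs0 (hp0 p (by omega) D hs0)
    refine ⟨p, hp, by omega, hp5, hd, D, ?_, hs, h3 hs⟩
    have hpR : (0 : ℝ) < p := by exact_mod_cast hp.pos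
    unfold Dat.ht
    rw [← Real.log_pow]
    refine Real.log_le_log ?_ h1.le
    exact mulHeight_pos _
  choose pt hp hge h5 hd E hh hs hc using hex
  obtain ⟨M, _, _, _, _, hi⟩ := exists_big K
  obtain ⟨D, hD⟩ := exists_PD0 (M := M) hi
  let Q : Sq K := ⟨pt, hp, hge, h5, hd, E, A, Nat.cast_nonneg A, hh, hs⟩
  have h𝒰 : ((Filter.hyperfilter ℕ : Ultrafilter ℕ) : Filter ℕ) ≤ atTop := by
    rw [← Nat.cofinite_eq_atTop]
    exact Filter.hyperfilter_le_cofinite
  obtain ⟨t, ht⟩ := (Q.real_cubic (M := M) hD h𝒰).exists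
  exact hc t ht

/-- a totally real cubic subfield -/
theorem real_sub {K : Type} [Field K] [NumberField K] (a b c : K) (h : RealCubic a b c) :
    ∃ F : IntermediateField ℚ K, Module.finrank ℚ F = 3 ∧ NumberField.IsTotallyReal F := by
  obtain ⟨f, h1, h2, h3, h4⟩ := h
  obtain ⟨α, hα⟩ : ∃ α : K, α = a / (a + b + c) := ⟨_, rfl⟩
  rw [← hα] at h4
  have hroot : Polynomial.aeval α f = 0 := by
    rw [Polynomial.aeval_def, ← Polynomial.eval_map, h4]
    simp
  have hint : IsIntegral ℚ α := Algebra.IsIntegral.isIntegral α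
  have hassoc := minpoly.eq_of_irreducible h1 hroot
  have hdeg : (minpoly ℚ α).natDegree = 3 := by
    rw [← hassoc, Polynomial.natDegree_mul_C]
    · exact h2
    · exact inv_ne_zero (Polynomial.leadingCoeff_ne_zero.2 h1.ne_zero)
  refine ⟨IntermediateField.adjoin ℚ {α}, ?_, ⟨fun v => ?_⟩⟩
  · rw [IntermediateField.adjoin.finrank hint, hdeg]
  · rw [InfinitePlace.isReal_iff, ComplexEmbedding.isReal_iff]
    obtain ⟨φ, hφ⟩ : ∃ φ : (IntermediateField.adjoin ℚ {α}) →+* ℂ, φ = v.embedding := ⟨_, rfl⟩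
    rw [← hφ]
    have hgen : Polynomial.aeval (φ (IntermediateField.AdjoinSimple.gen ℚ α)) f = 0 := by
      have h5 : Polynomial.aeval (IntermediateField.AdjoinSimple.gen ℚ α) f = 0 := by
        apply (algebraMap (IntermediateField.adjoin ℚ {α}) K).injective
        rw [← Polynomial.aeval_algebraMap_apply, IntermediateField.AdjoinSimple.algebraMap_gen,
          hroot, map_zero]
      rw [Polynomial.aeval_def] at h5 ⊢
      have h6 := congrArg φ h5
      rw [Polynomial.hom_eval₂, map_zero] at h6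
      rw [← h6]
      congr 1
      exact Subsingleton.elim _ _
    have him := h3 _ hgen
    have hreal : (starRingEnd ℂ) (φ (IntermediateField.AdjoinSimple.gen ℚ α)) =
        φ (IntermediateField.AdjoinSimple.gen ℚ α) := Complex.conj_eq_iff_im.2 him
    obtain ⟨φ', hφ'⟩ : ∃ φ' : (IntermediateField.adjoin ℚ {α}) →ₐ[ℚ] ℂ, φ' = φ.toRatAlgHom :=
      ⟨_, rfl⟩
    obtain ⟨χ, hχ⟩ : ∃ χ : (IntermediateField.adjoin ℚ {α}) →ₐ[ℚ] ℂ,
      χ = ((starRingEnd ℂ).comp φ).toRatAlgHom := ⟨_, rfl⟩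
    have heq : χ = φ' := by
      refine IntermediateField.algHom_ext_of_eq_adjoin _ rfl ?_
      intro x hx
      have hx' : (⟨x, IntermediateField.subset_adjoin ℚ _ hx⟩ :
          IntermediateField.adjoin ℚ {α}) = IntermediateField.AdjoinSimple.gen ℚ α := by
        apply Subtype.ext
        exact hx
      rw [hχ, hφ']
      have h8 := hreal
      rw [← hx'] at h8
      exact h8
    apply RingHom.ext
    intro x
    have h7 := DFunLike.congr_fun heq x
    rw [hχ, hφ'] at h7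
    exact h7

end Run7.h879.SH
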